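import Mathlib
import Pool.Agent.Lib.P4a7640K.Par

/-!
# All arcs at once: definitions
-/

open Filter MeasureTheory

namespace Pool.Agent.Lib.P4a7640V

open Pool.Agent.Lib.P4a7640 Pool.Agent.Lib.P4a7640M Pool.Agent.Lib.P4a7640Y Pool.Agent.Lib.P4a7640Z
open Pool.Agent.Lib.P4a7640K

/-- the number of the cell of `x` modulo one, when `[0, 1)` is divided into `G` equal cells -/
noncomputable def cell (G : ℕ) (x : ℝ) : ℕ := ⌊(G:ℝ) * Int.fract x⌋₊

/-- the indicator of a cell -/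
noncomputable def cI (G i : ℕ) (x : ℝ) : ℝ := if cell G x = i then 1 else 0

/-- a union of `m` intervals with endpoints on the grid -/
def GS (G m : ℕ) (i : Fin m → Fin (G + 1) × Fin (G + 1)) : Set ℝ :=
  ⋃ j, Set.Ico ((((i j).1 : ℕ) : ℝ) / G) ((((i j).2 : ℕ) : ℝ) / G)

open Classical in
/-- the signs for given points `t p` and one set -/
noncomputable def xt (A : Set ℝ) (t : ℕ → ℝ) : SS := fun p => if Int.fract (t p) ∈ A then -1 else 1

open Classical in
/-- the mean number of primes `p > y` that divide a shift of `n` and have `t p` in the cell `i` -/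
noncomputable def TC (H : Finset ℕ) (N : ℕ) (y : ℝ) (G i : ℕ) (t : ℕ → ℝ) : ℝ :=
  (∑ n ∈ Finset.Icc 1 N, (1:ℝ) / n *
    ∑ p ∈ (oddT (MM H n)).filter (fun p : ℕ => y < (p:ℝ)), cI G i (t p)) / Real.log N

/-- two different primes up to `Y` share a cell -/
def BadE (a : ℕ → ℝ) (G Y : ℕ) : Set ℝ :=
  {α | ∃ p q : ℕ, p.Prime ∧ q.Prime ∧ p ≤ Y ∧ q ≤ Y ∧ p ≠ q ∧ cell G (α * a p) = cell G (α * a q)}

end Pool.Agent.Lib.P4a7640V
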