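import Mathlib
import Pool.Agent.Lib.P4a7640V.Par
import Pool.Agent.Lib.P4a7640K.PSumK
import Pool.Agent.Lib.P4a7640K.Rot
import Pool.Agent.Lib.P4a7640Y.Circ3
import Pool.Agent.Lib.P4a7640Y.LipPhi

/-!
# The variance of a sum of indicators of cells
-/

open Filter Topology MeasureTheory

namespace Pool.Agent.Lib.P4a7640V

open Pool.Agent.Lib.P4a7640 Pool.Agent.Lib.P4a7640M Pool.Agent.Lib.P4a7640Y Pool.Agent.Lib.P4a7640Z
open Pool.Agent.Lib.P4a7640K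

lemma cI_eq {G i : ℕ} (hi : i < G) (x : ℝ) :
    cI G i x = (1 - phi (Set.Ico ((i:ℝ) / G) ((i + 1 : ℝ) / G)) x) / 2 := by
  have hG : (0:ℝ) < G := by exact_mod_cast (by omega : 0 < G)
  have h0 : 0 ≤ (G:ℝ) * Int.fract x := mul_nonneg hG.le (Int.fract_nonneg x)
  have h1 : cell G x = i ↔ Int.fract x ∈ Set.Ico ((i:ℝ) / G) ((i + 1 : ℝ) / G) := by
    unfold cell
    rw [Nat.floor_eq_iff h0, Set.mem_Ico, div_le_iff₀ hG, lt_div_iff₀ hG, mul_comm (G:ℝ)]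
  unfold cI phi
  by_cases h : cell G x = i
  · rw [if_pos h, if_pos (h1.1 h)]
    norm_num
  · rw [if_neg h, if_neg fun h2 => h (h1.2 h2)]
    norm_num

namespace VarCAux

/-- the cell as a set -/
def cs (G i : ℕ) : Set ℝ := Set.Ico ((i:ℝ) / G) ((i + 1 : ℝ) / G)

lemma kint_cs (G i : ℕ) : KInt 1 (cs G i) :=
  ⟨{cs G i}, by simp, fun J hJ => by
    rw [Finset.mem_singleton] at hJ
    rw [hJ]
    exact Set.ordConnected_Ico, by simp⟩

lemma measurableSet_cs (G i : ℕ) : MeasurableSet (cs G i) := measurableSet_Ico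

lemma cc_cs {G i : ℕ} (hi : i < G) : P4a7640M.cc (cs G i) = 1 - 2 * (1 / (G:ℝ)) := by
  have hG : (0:ℝ) < G := by exact_mod_cast (by omega : 0 < G)
  have h1 : cs G i ∩ Set.Ico (0:ℝ) 1 = cs G i := by
    rw [Set.inter_eq_left]
    unfold cs
    apply Set.Ico_subset_Ico
    · positivity
    · rw [div_le_one hG]
      exact_mod_cast hi
  unfold P4a7640M.cc
  rw [h1]
  unfold cs
  rw [Real.volume_Ico, ENNReal.toReal_ofReal (by
    rw [sub_nonneg]
    exact div_le_div_of_nonneg_right (by linarith) hG.le)]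
  congr 2
  ring

/-- the centred indicator of a rotated cell -/
noncomputable def vc (G i : ℕ) (θ : ℝ) (x : UnitAddCircle) : ℝ := (1 - phR (cs G i) θ x) / 2 - 1 / G

lemma measurable_vc (G i : ℕ) (θ : ℝ) : Measurable (vc G i θ) :=
  ((measurable_const.sub (measurable_phR (measurableSet_cs G i) θ)).div_const 2).sub_const _

lemma abs_vc_le {G i : ℕ} (hi : i < G) (θ : ℝ) (x : UnitAddCircle) : |vc G i θ x| ≤ 1 := by
  have hG : (1:ℝ) ≤ G := by exact_mod_cast (by omega : 1 ≤ G)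
  have h1 : (1:ℝ) / G ≤ 1 := by rw [div_le_one (by linarith)]; exact hG
  have h2 : (0:ℝ) ≤ 1 / G := by positivity
  unfold vc
  rcases abs_eq (zero_le_one' ℝ) |>.1 (abs_phR (cs G i) θ x) with h | h
  · rw [h, abs_le]
    constructor <;> linarith
  · rw [h, abs_le]
    constructor <;> linarith

lemma LL1_vc (G i : ℕ) (θ : ℝ) : LL1 4 (vc G i θ) := by
  intro s hs
  have h1 := lip_phR (kint_cs G i) θ s hs
  have h2 : (fun x : UnitAddCircle => |vc G i θ (x + (s : UnitAddCircle)) - vc G i θ x|) =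
      fun x => 1 / 2 * |phR (cs G i) θ (x + (s : UnitAddCircle)) - phR (cs G i) θ x| := by
    funext x
    unfold vc
    have e : (1 - phR (cs G i) θ (x + (s : UnitAddCircle))) / 2 - 1 / (G:ℝ) -
        ((1 - phR (cs G i) θ x) / 2 - 1 / (G:ℝ)) =
        -(1 / 2) * (phR (cs G i) θ (x + (s : UnitAddCircle)) - phR (cs G i) θ x) := by ring
    rw [e, abs_mul, abs_neg, abs_of_pos (by norm_num : (0:ℝ) < 1 / 2)]
  rw [h2, integral_const_mul]
  push_cast at h1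
  linarith

lemma int_vc {G i : ℕ} (hi : i < G) (θ : ℝ) : ∫ x, vc G i θ x = 0 := by
  have h1 : ∫ x, phR (cs G i) θ x = 1 - 2 * (1 / (G:ℝ)) := by
    rw [← cc_cs hi, ← integral_phiC (measurableSet_cs G i)]
    exact integral_add_right_eq_self (fun y : UnitAddCircle => phiC (cs G i) y) (θ : UnitAddCircle)
  have hint : Integrable (phR (cs G i) θ) (volume : Measure UnitAddCircle) :=
    int_bdd (measurable_phR (measurableSet_cs G i) θ) (C := 1) fun x => (abs_phR _ _ _).le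
  have h2 : (fun x : UnitAddCircle => vc G i θ x) = fun x =>
      (1 / 2 - 1 / (G:ℝ)) - 1 / 2 * phR (cs G i) θ x := by
    funext x
    unfold vc
    ring
  rw [h2, integral_sub (integrable_const _) (hint.const_mul _), integral_const_mul, h1]
  simp
  ring

/-- the covariance of two cell indicators -/
noncomputable def cv (G i : ℕ) (θ θ' : ℝ) (a b : ℕ) : ℝ :=
  ∫ x : UnitAddCircle, vc G i θ (a • x) * vc G i θ' (b • x)

lemma abs_cv_le_one {G i : ℕ} (hi : i < G) (θ θ' : ℝ) (a b : ℕ) : |cv G i θ θ' a b| ≤ 1 :=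
  abs_int_le fun _ => mul_bd (abs_vc_le hi _ _) (abs_vc_le hi _ _)

lemma abs_cv_le {G i : ℕ} (hi : i < G) (θ θ' : ℝ) {a b : ℕ} (ha : a ≠ 0) (hb : b ≠ 0) :
    |cv G i θ θ' a b| ≤ 4 * (1 / (mx a b : ℝ)) := by
  have h1 := two_dil (measurable_vc G i θ) (measurable_vc G i θ') (LL1_vc G i θ)
    (abs_vc_le hi θ) (abs_vc_le hi θ') ha hb
  have h2 := two_dil (measurable_vc G i θ') (measurable_vc G i θ) (LL1_vc G i θ')
    (abs_vc_le hi θ') (abs_vc_le hi θ) hb ha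
  rw [int_vc hi, zero_mul, sub_zero] at h1 h2
  have e : (∫ x : UnitAddCircle, vc G i θ' (b • x) * vc G i θ (a • x)) = cv G i θ θ' a b := by
    unfold cv
    congr 1
    funext x
    ring
  rw [e] at h2
  unfold mx
  rw [mul_one_div]
  rcases le_total (red a b) (red b a) with h | h
  · rw [max_eq_right h]
    exact h2
  · rw [max_eq_left h]
    exact h1

lemma sum_eq {G i : ℕ} (hi : i < G) (b : ℕ → ℕ) (θ : ℕ → ℝ) (D : Finset ℕ) (c : ℕ → ℝ) (α : ℝ) :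
    ∑ p ∈ D, c p * cI G i (α * b p + θ p) - (∑ p ∈ D, c p) / G =
      ∑ p ∈ D, c p * vc G i (θ p) (b p • (α : UnitAddCircle)) := by
  rw [Finset.sum_div, ← Finset.sum_sub_distrib]
  refine Finset.sum_congr rfl fun p _ => ?_
  have h1 : b p • (α : UnitAddCircle) + (θ p : UnitAddCircle) = ((α * b p + θ p : ℝ) : UnitAddCircle) := by
    rw [AddCircle.coe_add, ← AddCircle.coe_nsmul, nsmul_eq_mul, mul_comm]
  have h2 : phR (cs G i) (θ p) (b p • (α : UnitAddCircle)) = phi (cs G i) (α * b p + θ p) := by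
    unfold phR
    rw [h1, phiC_coe]
  rw [cI_eq hi]
  unfold vc
  rw [h2]
  unfold cs
  ring

lemma int_sq {G i : ℕ} (hi : i < G) (b : ℕ → ℕ) (θ : ℕ → ℝ) (D : Finset ℕ) (c : ℕ → ℝ) :
    ∫ x : UnitAddCircle, (∑ p ∈ D, c p * vc G i (θ p) (b p • x)) ^ 2 =
      ∑ p ∈ D, ∑ q ∈ D, c p * c q * cv G i (θ p) (θ q) (b p) (b q) := by
  have h1 : (fun x : UnitAddCircle => (∑ p ∈ D, c p * vc G i (θ p) (b p • x)) ^ 2) = fun x =>
      ∑ p ∈ D, ∑ q ∈ D, c p * c q * (vc G i (θ p) (b p • x) * vc G i (θ q) (b q • x)) := by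
    funext x
    rw [sq, Finset.sum_mul_sum]
    refine Finset.sum_congr rfl fun p _ => Finset.sum_congr rfl fun q _ => ?_
    ring
  have hint : ∀ p q : ℕ, Integrable (fun x : UnitAddCircle =>
      c p * c q * (vc G i (θ p) (b p • x) * vc G i (θ q) (b q • x))) volume := fun p q =>
    (int_mul_bdd ((measurable_vc G i (θ p)).comp (measurable_dil (b p)))
      ((measurable_vc G i (θ q)).comp (measurable_dil (b q)))
      (fun _ => abs_vc_le hi _ _) (fun _ => abs_vc_le hi _ _)).const_mul _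
  rw [h1, integral_finsetSum _ fun p _ => integrable_finsetSum _ fun q _ => hint p q]
  refine Finset.sum_congr rfl fun p _ => ?_
  rw [integral_finsetSum _ fun q _ => hint p q]
  refine Finset.sum_congr rfl fun q _ => ?_
  rw [integral_const_mul]
  rfl

end VarCAux

open VarCAux

theorem var_cell {K κ : ℝ} (hK : 0 < K) (hκ : 0 < κ) (hκ1 : κ ≤ 1) : ∃ C : ℝ, 0 < C ∧
    ∀ b : ℕ → ℕ, CntN K κ b → ∀ (θ : ℕ → ℝ) (y : ℝ), 1 ≤ y → ∀ D : Finset ℕ,
      (∀ p ∈ D, p.Prime ∧ y ≤ p) → ∀ c : ℕ → ℝ, (∀ p ∈ D, 0 ≤ c p ∧ c p ≤ 1 / p) →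
      ∀ G i : ℕ, i < G → ∀ u : ℝ,
        ∫ α in u..(u + 1), (∑ p ∈ D, c p * cI G i (α * b p + θ p) - (∑ p ∈ D, c p) / G) ^ 2 ≤
          C * (1 + ∑ p ∈ D, (1:ℝ) / p) ^ 2 / y ^ (κ / 3) := by
  classical
  obtain ⟨C₁, hC₁, hsum⟩ := sum_cnt hK hκ hκ1
  obtain ⟨C₂, hC₂, hpair⟩ := pair_sum_k hK hκ hκ1
  refine ⟨2 * C₁ + 16 * C₂ + 4, by positivity, fun b hb θ y hy D hD c hc G i hi u => ?_⟩
  have hy0 : 0 < y := by linarith
  have e0 : ∫ α in u..(u + 1), (∑ p ∈ D, c p * cI G i (α * b p + θ p) - (∑ p ∈ D, c p) / G) ^ 2 =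
      ∫ x : UnitAddCircle, (∑ p ∈ D, c p * vc G i (θ p) (b p • x)) ^ 2 := by
    rw [← UnitAddCircle.intervalIntegral_preimage u]
    refine intervalIntegral.integral_congr fun α _ => ?_
    show (∑ p ∈ D, c p * cI G i (α * b p + θ p) - (∑ p ∈ D, c p) / G) ^ 2 =
      (∑ p ∈ D, c p * vc G i (θ p) (b p • (α : UnitAddCircle))) ^ 2
    rw [sum_eq hi]
  rw [e0, int_sq hi]
  set S : ℝ := ∑ p ∈ D, (1:ℝ) / p with hS
  have hS0 : 0 ≤ S := Finset.sum_nonneg fun p _ => by positivity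
  set f : ℕ → ℕ → ℝ := fun p q => (1:ℝ) / p * ((1:ℝ) / q * |cv G i (θ p) (θ q) (b p) (b q)|) with hf
  have hf0 : ∀ p q, 0 ≤ f p q := fun p q => by
    show 0 ≤ (1:ℝ) / p * ((1:ℝ) / q * |cv G i (θ p) (θ q) (b p) (b q)|)
    positivity
  have hterm : ∀ p ∈ D, ∀ q ∈ D, c p * c q * cv G i (θ p) (θ q) (b p) (b q) ≤ f p q := by
    intro p hp q hq
    have h1 := le_abs_self (cv G i (θ p) (θ q) (b p) (b q))
    have h2 := abs_nonneg (cv G i (θ p) (θ q) (b p) (b q))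
    have h3 : c p * c q ≤ 1 / p * (1 / q) :=
      mul_le_mul (hc p hp).2 (hc q hq).2 (hc q hq).1 (by positivity)
    have h4 : 0 ≤ c p * c q := mul_nonneg (hc p hp).1 (hc q hq).1
    calc c p * c q * cv G i (θ p) (θ q) (b p) (b q) ≤
          c p * c q * |cv G i (θ p) (θ q) (b p) (b q)| := mul_le_mul_of_nonneg_left h1 h4
      _ ≤ 1 / p * (1 / q) * |cv G i (θ p) (θ q) (b p) (b q)| := mul_le_mul_of_nonneg_right h3 h2
      _ = f p q := by rw [hf]; ring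
  refine (Finset.sum_le_sum fun p hp => Finset.sum_le_sum fun q hq => hterm p hp q hq).trans ?_
  set D0 := D.filter fun p => b p = 0 with hD0
  set D1 := D.filter fun p => ¬ b p = 0 with hD1
  have hf1 : ∀ p q, f p q ≤ 1 / p * (1 / q) := fun p q => by
    show (1:ℝ) / p * ((1:ℝ) / q * |cv G i (θ p) (θ q) (b p) (b q)|) ≤ 1 / p * (1 / q)
    refine mul_le_mul_of_nonneg_left ?_ (by positivity)
    exact mul_le_of_le_one_right (by positivity) (abs_cv_le_one hi _ _ _ _)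
  -- the frequency zero
  have hz : ∑ p ∈ D0, (1:ℝ) / p ≤ C₁ / y ^ κ := by
    refine hsum b hb 0 y hy D0 fun p hp => ?_
    rw [hD0, Finset.mem_filter] at hp
    exact ⟨(hD p hp.1).1, (hD p hp.1).2, hp.2⟩
  have hS1 : ∑ p ∈ D1, (1:ℝ) / p ≤ S := Finset.sum_le_sum_of_subset_of_nonneg
    (Finset.filter_subset _ _) fun p _ _ => by positivity
  have hS1' : 0 ≤ ∑ p ∈ D1, (1:ℝ) / p := Finset.sum_nonneg fun p _ => by positivity
  have hy1 : (1:ℝ) ≤ y ^ (κ / 3) := Real.one_le_rpow hy (by positivity)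
  have hyk : y ^ (κ / 3) ≤ y ^ κ := Real.rpow_le_rpow_of_exponent_le hy (by linarith)
  have hy3 : 0 < y ^ (κ / 3) := by linarith
  have hz' : ∑ p ∈ D0, (1:ℝ) / p ≤ C₁ / y ^ (κ / 3) :=
    hz.trans (div_le_div_of_nonneg_left hC₁.le hy3 hyk)
  have a1 : ∑ p ∈ D0, ∑ q ∈ D, f p q ≤ C₁ / y ^ (κ / 3) * S := by
    calc ∑ p ∈ D0, ∑ q ∈ D, f p q ≤ ∑ p ∈ D0, ∑ q ∈ D, (1:ℝ) / p * (1 / q) :=
          Finset.sum_le_sum fun p _ => Finset.sum_le_sum fun q _ => hf1 p q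
      _ = (∑ p ∈ D0, (1:ℝ) / p) * S := by
          rw [hS, Finset.sum_mul_sum]
      _ ≤ _ := mul_le_mul_of_nonneg_right hz' hS0
  have a2 : ∑ p ∈ D1, ∑ q ∈ D0, f p q ≤ S * (C₁ / y ^ (κ / 3)) := by
    calc ∑ p ∈ D1, ∑ q ∈ D0, f p q ≤ ∑ p ∈ D1, ∑ q ∈ D0, (1:ℝ) / p * (1 / q) :=
          Finset.sum_le_sum fun p _ => Finset.sum_le_sum fun q _ => hf1 p q
      _ = (∑ p ∈ D1, (1:ℝ) / p) * ∑ q ∈ D0, (1:ℝ) / q := by
          rw [Finset.sum_mul_sum]
      _ ≤ _ := mul_le_mul hS1 hz' (Finset.sum_nonneg fun p _ => by positivity) hS0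
  -- the positive frequencies
  set R : ℕ := ⌈y ^ (κ / 3)⌉₊ with hR
  have hR0 : 0 < R := Nat.ceil_pos.2 hy3
  have hR1 : y ^ (κ / 3) ≤ R := Nat.le_ceil _
  have hR2 : (R:ℝ) ≤ 2 * y ^ (κ / 3) := by
    have := (Nat.ceil_lt_add_one hy3.le).le
    rw [← hR] at this
    linarith
  have hb1 : (R:ℝ) ^ 2 / y ^ κ ≤ 4 / y ^ (κ / 3) := by
    rw [div_le_div_iff₀ (Real.rpow_pos_of_pos hy0 _) hy3]
    have h1 : (R:ℝ) ^ 2 ≤ (2 * y ^ (κ / 3)) ^ 2 := pow_le_pow_left₀ (Nat.cast_nonneg _) hR2 2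
    have h2 : y ^ κ = (y ^ (κ / 3)) ^ 3 := by
      rw [← Real.rpow_natCast, ← Real.rpow_mul hy0.le]
      congr 1
      push_cast
      ring
    rw [h2]
    calc (R:ℝ) ^ 2 * y ^ (κ / 3) ≤ (2 * y ^ (κ / 3)) ^ 2 * y ^ (κ / 3) :=
          mul_le_mul_of_nonneg_right h1 hy3.le
      _ = 4 * (y ^ (κ / 3)) ^ 3 := by ring
  have hpp : ∀ p ∈ D1, ∑ q ∈ D1, (1:ℝ) / q * (1 / mx (b p) (b q)) ≤
      (4 * C₂ + S) / y ^ (κ / 3) := by
    intro p hp
    have h1 := hpair b hb y hy D1 (fun q hq => by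
      rw [hD1, Finset.mem_filter] at hq
      exact ⟨(hD q hq.1).1, (hD q hq.1).2, hq.2⟩) R hR0 p hp
    refine h1.trans ?_
    have h2 : C₂ * (R:ℝ) ^ 2 / y ^ κ ≤ 4 * C₂ / y ^ (κ / 3) := by
      calc C₂ * (R:ℝ) ^ 2 / y ^ κ = C₂ * ((R:ℝ) ^ 2 / y ^ κ) := by ring
        _ ≤ C₂ * (4 / y ^ (κ / 3)) := mul_le_mul_of_nonneg_left hb1 hC₂.le
        _ = 4 * C₂ / y ^ (κ / 3) := by ring
    have h3 : (∑ q ∈ D1, (1:ℝ) / q) / R ≤ S / y ^ (κ / 3) :=
      div_le_div₀ hS0 hS1 hy3 hR1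
    calc _ ≤ 4 * C₂ / y ^ (κ / 3) + S / y ^ (κ / 3) := add_le_add h2 h3
      _ = _ := by ring
  have a3 : ∑ p ∈ D1, ∑ q ∈ D1, f p q ≤ S * (4 * ((4 * C₂ + S) / y ^ (κ / 3))) := by
    have hq0 : 0 ≤ 4 * ((4 * C₂ + S) / y ^ (κ / 3)) := by positivity
    calc ∑ p ∈ D1, ∑ q ∈ D1, f p q ≤
          ∑ p ∈ D1, (1:ℝ) / p * (4 * ((4 * C₂ + S) / y ^ (κ / 3))) := by
          refine Finset.sum_le_sum fun p hp => ?_
          have hp0 : b p ≠ 0 := by
            have := hp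
            rw [hD1, Finset.mem_filter] at this
            exact this.2
          have h1 : ∑ q ∈ D1, f p q ≤ ∑ q ∈ D1, (1:ℝ) / p * (4 * ((1:ℝ) / q * (1 / mx (b p) (b q)))) := by
            refine Finset.sum_le_sum fun q hq => ?_
            have hq0 : b q ≠ 0 := by
              have := hq
              rw [hD1, Finset.mem_filter] at this
              exact this.2
            show (1:ℝ) / p * ((1:ℝ) / q * |cv G i (θ p) (θ q) (b p) (b q)|) ≤ _
            refine mul_le_mul_of_nonneg_left ?_ (by positivity)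
            calc (1:ℝ) / q * |cv G i (θ p) (θ q) (b p) (b q)| ≤
                  1 / q * (4 * (1 / mx (b p) (b q))) :=
                  mul_le_mul_of_nonneg_left (abs_cv_le hi _ _ hp0 hq0) (by positivity)
              _ = _ := by ring
          refine h1.trans ?_
          rw [← Finset.mul_sum, ← Finset.mul_sum]
          exact mul_le_mul_of_nonneg_left (mul_le_mul_of_nonneg_left (hpp p hp) (by norm_num))
            (by positivity)
      _ = (∑ p ∈ D1, (1:ℝ) / p) * (4 * ((4 * C₂ + S) / y ^ (κ / 3))) := by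
          rw [Finset.sum_mul]
      _ ≤ _ := mul_le_mul_of_nonneg_right hS1 hq0
  have hsplit : ∑ p ∈ D, ∑ q ∈ D, f p q = ∑ p ∈ D0, ∑ q ∈ D, f p q +
      (∑ p ∈ D1, ∑ q ∈ D0, f p q + ∑ p ∈ D1, ∑ q ∈ D1, f p q) := by
    rw [← Finset.sum_add_distrib, ← Finset.sum_filter_add_sum_filter_not D (fun p => b p = 0)]
    congr 1
    refine Finset.sum_congr rfl fun p _ => ?_
    rw [← Finset.sum_filter_add_sum_filter_not D (fun q => b q = 0)]
  rw [hsplit]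
  have hfin : C₁ / y ^ (κ / 3) * S + (S * (C₁ / y ^ (κ / 3)) +
      S * (4 * ((4 * C₂ + S) / y ^ (κ / 3)))) =
      (2 * C₁ * S + 16 * C₂ * S + 4 * S ^ 2) / y ^ (κ / 3) := by
    ring
  refine (add_le_add a1 (add_le_add a2 a3)).trans ?_
  rw [hfin]
  refine div_le_div_of_nonneg_right ?_ hy3.le
  have s1 : S ≤ (1 + S) ^ 2 := by nlinarith
  have s2 : S ^ 2 ≤ (1 + S) ^ 2 := by nlinarith
  calc 2 * C₁ * S + 16 * C₂ * S + 4 * S ^ 2 ≤
        2 * C₁ * (1 + S) ^ 2 + 16 * C₂ * (1 + S) ^ 2 + 4 * (1 + S) ^ 2 := by gcongr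
    _ = _ := by ring

end Pool.Agent.Lib.P4a7640V
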