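import Mathlib
import Pool.Agent.Lib.P4a7640V.Par
import Pool.Agent.Lib.P4a7640V.VarC
import Pool.Agent.Lib.P4a7640K.CmpK
import Pool.Agent.Lib.P4a7640K.Rot

/-!
# All arcs at once: second moment of the number of primes in one cell
-/

open Filter Topology MeasureTheory

namespace Pool.Agent.Lib.P4a7640V

open Pool.Agent.Lib.P4a7640 Pool.Agent.Lib.P4a7640M Pool.Agent.Lib.P4a7640Y Pool.Agent.Lib.P4a7640Z
open Pool.Agent.Lib.P4a7640K

namespace TcAux

/-- the weight of the prime `p` -/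
noncomputable def cP (H : Finset ℕ) (N p : ℕ) : ℝ :=
  (∑ n ∈ (Finset.Icc 1 N).filter (fun n => p ∈ oddT (MM H n)), (1:ℝ) / n) / Real.log N

open Classical in
/-- the primes `p > y` that can divide a shift of an integer `n ≤ N` -/
noncomputable def DP (H : Finset ℕ) (N : ℕ) (y : ℝ) : Finset ℕ :=
  (Nat.primesLE (N + H.sup id)).filter (fun p : ℕ => y < (p:ℝ))

lemma mem_DP {H : Finset ℕ} {N : ℕ} {y : ℝ} {p : ℕ} :
    p ∈ DP H N y ↔ (p ≤ N + H.sup id ∧ p.Prime) ∧ y < (p:ℝ) := by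
  unfold DP
  rw [Finset.mem_filter, Nat.mem_primesLE]

lemma cP_nonneg (H : Finset ℕ) (N p : ℕ) : 0 ≤ cP H N p := by
  unfold cP
  refine div_nonneg (Finset.sum_nonneg fun n _ => by positivity) (Real.log_natCast_nonneg N)

lemma cI_nonneg (G i : ℕ) (x : ℝ) : 0 ≤ cI G i x := by
  unfold cI
  split_ifs <;> norm_num

lemma cI_le (G i : ℕ) (x : ℝ) : cI G i x ≤ 1 := by
  unfold cI
  split_ifs <;> norm_num

lemma cell_lt_aux {G : ℕ} (hG : 0 < G) (x : ℝ) : cell G x < G := by
  have hG0 : (0:ℝ) < G := by exact_mod_cast hG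
  unfold cell
  rw [Nat.floor_lt (mul_nonneg hG0.le (Int.fract_nonneg x))]
  have := Int.fract_lt_one x
  nlinarith

lemma measurable_cI (G i : ℕ) : Measurable (cI G i) := by
  unfold cI cell
  refine Measurable.ite ?_ measurable_const measurable_const
  have h : Measurable fun x : ℝ => ⌊(G:ℝ) * Int.fract x⌋₊ :=
    Nat.measurable_floor.comp (measurable_fract.const_mul _)
  exact h (measurableSet_singleton i)

lemma TC_eq (H : Finset ℕ) (N : ℕ) (y : ℝ) (G i : ℕ) (t : ℕ → ℝ) :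
    TC H N y G i t = ∑ p ∈ DP H N y, cP H N p * cI G i (t p) := by
  classical
  unfold TC cP
  have h1 : ∀ n ∈ Finset.Icc 1 N, (1:ℝ) / n *
      ∑ p ∈ (oddT (MM H n)).filter (fun p : ℕ => y < (p:ℝ)), cI G i (t p) =
      ∑ p ∈ DP H N y, if p ∈ oddT (MM H n) then (1:ℝ) / n * cI G i (t p) else 0 := by
    intro n hn
    have hn1 := Finset.mem_Icc.1 hn
    rw [Finset.mul_sum, ← Finset.sum_filter]
    refine Finset.sum_congr ?_ fun _ _ => rfl
    ext p
    rw [Finset.mem_filter, Finset.mem_filter, mem_DP]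
    constructor
    · rintro ⟨h2, h3⟩
      obtain ⟨h, hh, hd⟩ := exists_dvd_of_mem_oddT h2
      have h4 : h ≤ H.sup id := Finset.le_sup (f := id) hh
      have h5 := Nat.le_of_dvd (by omega) hd
      exact ⟨⟨⟨by omega, prime_of_mem_oddT h2⟩, h3⟩, h2⟩
    · rintro ⟨⟨_, h3⟩, h2⟩
      exact ⟨h2, h3⟩
  have h2 : (∑ n ∈ Finset.Icc 1 N, (1:ℝ) / n *
      ∑ p ∈ (oddT (MM H n)).filter (fun p : ℕ => y < (p:ℝ)), cI G i (t p)) =
      ∑ p ∈ DP H N y, (∑ n ∈ (Finset.Icc 1 N).filter (fun n => p ∈ oddT (MM H n)), (1:ℝ) / n) *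
        cI G i (t p) := by
    rw [Finset.sum_congr rfl h1, Finset.sum_comm]
    refine Finset.sum_congr rfl fun p _ => ?_
    rw [Finset.sum_mul, Finset.sum_filter]
  rw [h2, Finset.sum_div]
  refine Finset.sum_congr rfl fun p _ => ?_
  ring

/-- the weights -/
lemma cP_le (H : Finset ℕ) : ∃ C : ℝ, 0 < C ∧ ∀ᶠ N : ℕ in atTop, ∀ p : ℕ, p.Prime →
    cP H N p ≤ C / p := by
  classical
  set m := H.sup id with hm
  have hHm : ∀ h ∈ H, h ≤ m := fun h hh => Finset.le_sup (f := id) hh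
  refine ⟨3 * (∑ h ∈ H, (1 + (h:ℝ))) + 1, by positivity, ?_⟩
  have hlogN : Tendsto (fun N : ℕ => Real.log N) atTop atTop :=
    Real.tendsto_log_atTop.comp tendsto_natCast_atTop_atTop
  filter_upwards [hlogN.eventually_ge_atTop 1, eventually_add_le_sq m, eventually_ge_atTop 3]
    with N h1 h3 h4
  intro p hp
  have hp0 : (0:ℝ) < p := by exact_mod_cast hp.pos
  have hlog0 : 0 < Real.log N := by linarith
  unfold cP
  rw [div_le_iff₀ hlog0]
  have e1 : ∑ n ∈ (Finset.Icc 1 N).filter (fun n => p ∈ oddT (MM H n)), (1:ℝ) / n ≤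
      ∑ h ∈ H, ∑ n ∈ (Finset.Icc 1 N).filter (fun n => p ∣ n + h), (1:ℝ) / n := by
    have e2 : ∀ h ∈ H, ∑ n ∈ (Finset.Icc 1 N).filter (fun n => p ∣ n + h), (1:ℝ) / n =
        ∑ n ∈ Finset.Icc 1 N, if p ∣ n + h then (1:ℝ) / n else 0 := fun h _ => Finset.sum_filter _ _
    rw [Finset.sum_congr rfl e2, Finset.sum_comm, Finset.sum_filter]
    refine Finset.sum_le_sum fun n _ => ?_
    have hnn : ∀ h ∈ H, 0 ≤ if p ∣ n + h then (1:ℝ) / n else 0 := fun h _ => by
      split_ifs
      · positivity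
      · exact le_rfl
    by_cases hq : p ∈ oddT (MM H n)
    · rw [if_pos hq]
      obtain ⟨h, hh, hd⟩ := exists_dvd_of_mem_oddT hq
      have := Finset.single_le_sum hnn hh
      rwa [if_pos hd] at this
    · rw [if_neg hq]
      exact Finset.sum_nonneg hnn
  refine e1.trans ?_
  calc ∑ h ∈ H, ∑ n ∈ (Finset.Icc 1 N).filter (fun n => p ∣ n + h), (1:ℝ) / n
      ≤ ∑ h ∈ H, (1 + (h:ℝ)) * (3 * Real.log N) * (1 / p) := by
        refine Finset.sum_le_sum fun h hh => ?_
        refine (tail_dvd_sum N h p hp.one_lt.le).trans ?_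
        refine mul_le_mul_of_nonneg_right ?_ (by positivity)
        refine mul_le_mul_of_nonneg_left ?_ (by positivity)
        have e3 : Real.log ((N + h : ℕ) : ℝ) ≤ 2 * Real.log N := by
          refine le_trans ?_ h3
          apply Real.log_le_log
          · exact_mod_cast (by omega : 0 < N + h)
          · exact_mod_cast (by have := hHm h hh; omega : N + h ≤ N + m)
        linarith
    _ = (3 * (∑ h ∈ H, (1 + (h:ℝ)))) / p * Real.log N := by
        rw [← Finset.sum_mul, ← Finset.sum_mul]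
        ring
    _ ≤ (3 * (∑ h ∈ H, (1 + (h:ℝ))) + 1) / p * Real.log N := by
        refine mul_le_mul_of_nonneg_right ?_ hlog0.le
        exact div_le_div_of_nonneg_right (by linarith) hp0.le

/-- the mass -/
lemma mass_DP (H : Finset ℕ) : ∀ᶠ N : ℕ in atTop, ∀ y : ℝ,
    ∑ p ∈ DP H N y, (1:ℝ) / p ≤ 3 * lam N := by
  classical
  set m := H.sup id with hm
  have hlogN : Tendsto (fun N : ℕ => Real.log N) atTop atTop :=
    Real.tendsto_log_atTop.comp tendsto_natCast_atTop_atTop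
  filter_upwards [hlogN.eventually_ge_atTop 1, tendsto_lam.eventually_ge_atTop 7,
    eventually_add_le_sq m, eventually_ge_atTop 3] with N h1 h2 h3 h4
  intro y
  have hlog0 : 0 < Real.log N := by linarith
  have hsub : DP H N y ⊆ Nat.primesLE (N + m) := Finset.filter_subset _ _
  refine (Finset.sum_le_sum_of_subset_of_nonneg hsub fun n _ _ => by positivity).trans ?_
  refine (sum_inv_primes_le (N + m) (by omega)).trans ?_
  have e1 : 0 < Real.log ((N + m : ℕ) : ℝ) := Real.log_pos (by exact_mod_cast (by omega : 1 < N + m))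
  have e2 : Real.log (Real.log ((N + m : ℕ) : ℝ)) ≤ Real.log (2 * Real.log N) :=
    Real.log_le_log e1 h3
  rw [Real.log_mul (by norm_num) hlog0.ne'] at e2
  have e3 : Real.log (Real.log N) = lam N := rfl
  rw [e3] at e2
  have e4 := Real.log_two_lt_d9
  linarith

lemma le_cut (u : ℝ) (L i : ℕ) : u ≤ cut u L i := by
  unfold cut
  have : (0:ℝ) ≤ (i:ℝ) / L := by positivity
  linarith

lemma cut_le_last (u : ℝ) {L i : ℕ} (hL : 0 < L) (hi : i ≤ L) : cut u L i ≤ u + 1 := by
  have hL0 : (0:ℝ) < L := by exact_mod_cast hL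
  have hi' : (i:ℝ) ≤ L := by exact_mod_cast hi
  unfold cut
  have : (i:ℝ) / L ≤ 1 := by rwa [div_le_one hL0]
  linarith

lemma intI {g : ℝ → ℝ} {M : ℝ} (hg : Measurable g) (hb : ∀ α, |g α| ≤ M) (a b : ℝ) :
    IntervalIntegrable g volume a b := by
  refine (intervalIntegrable_const (c := M)).mono_fun' hg.aestronglyMeasurable
    (Eventually.of_forall fun α => ?_)
  simp only [Real.norm_eq_abs]
  exact hb α

/-- the comparison with functions that depend on the arc -/
lemma glueM {F : ℝ → ℝ} {G : ℕ → ℝ → ℝ} (hF : Measurable F) (hG : ∀ i, Measurable (G i)) {M : ℝ}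
    (hFb : ∀ α, |F α| ≤ M) (hGb : ∀ i α, |G i α| ≤ M) {u E D : ℝ} {L : ℕ} (hL : 0 < L)
    (hE : ∀ i, ∫ α in u..(u + 1), G i α ^ 2 ≤ E)
    (hD : ∑ i ∈ Finset.range L, ∫ α in (cut u L i)..(cut u L (i + 1)), |F α - G i α| ≤ D) :
    ∫ α in u..(u + 1), F α ^ 2 ≤ L * E + 2 * M * D := by
  have hM : 0 ≤ M := (abs_nonneg _).trans (hFb 0)
  have hsq : ∀ (g : ℝ → ℝ), (∀ α, |g α| ≤ M) → ∀ α, |g α ^ 2| ≤ M ^ 2 := by
    intro g hg α
    rw [abs_pow]
    exact pow_le_pow_left₀ (abs_nonneg _) (hg α) 2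
  have hF2 : ∀ a b, IntervalIntegrable (fun α => F α ^ 2) volume a b := fun a b =>
    intI (hF.pow_const 2) (hsq F hFb) a b
  have hG2 : ∀ i a b, IntervalIntegrable (fun α => G i α ^ 2) volume a b := fun i a b =>
    intI ((hG i).pow_const 2) (hsq (G i) (hGb i)) a b
  have hFG : ∀ i a b, IntervalIntegrable (fun α => |F α - G i α|) volume a b := by
    intro i a b
    refine intI (M := 2 * M) (hF.sub (hG i)).norm (fun α => ?_) a b
    simp only [Real.norm_eq_abs, abs_abs]
    have h1 := abs_sub (F α) (G i α)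
    have h2 := hFb α
    have h3 := hGb i α
    simp only [Pi.sub_apply]
    linarith
  have h1 : ∫ α in u..(u + 1), F α ^ 2 =
      ∑ i ∈ Finset.range L, ∫ α in (cut u L i)..(cut u L (i + 1)), F α ^ 2 := by
    rw [intervalIntegral.sum_integral_adjacent_intervals (fun i _ => hF2 _ _), cut_zero,
      cut_last u hL]
  have h2 : ∀ i ∈ Finset.range L, ∫ α in (cut u L i)..(cut u L (i + 1)), F α ^ 2 ≤
      E + 2 * M * ∫ α in (cut u L i)..(cut u L (i + 1)), |F α - G i α| := by
    intro i hi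
    have hi' : i + 1 ≤ L := Finset.mem_range.1 hi
    have h3 : ∫ α in (cut u L i)..(cut u L (i + 1)), F α ^ 2 ≤
        ∫ α in (cut u L i)..(cut u L (i + 1)), (G i α ^ 2 + 2 * M * |F α - G i α|) := by
      refine intervalIntegral.integral_mono_on (cut_le u hL i) (hF2 _ _)
        ((hG2 i _ _).add ((hFG i _ _).const_mul (2 * M))) fun α _ => ?_
      have h4 : F α ^ 2 - G i α ^ 2 = (F α - G i α) * (F α + G i α) := by ring
      have h5 : (F α - G i α) * (F α + G i α) ≤ |F α - G i α| * (2 * M) := by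
        refine (le_abs_self _).trans ?_
        rw [abs_mul]
        refine mul_le_mul_of_nonneg_left ?_ (abs_nonneg _)
        have h6 := abs_add_le (F α) (G i α)
        have h7 := hFb α
        have h8 := hGb i α
        linarith
      linarith
    rw [intervalIntegral.integral_add (hG2 i _ _) ((hFG i _ _).const_mul (2 * M)),
      intervalIntegral.integral_const_mul] at h3
    have h9 : ∫ α in (cut u L i)..(cut u L (i + 1)), G i α ^ 2 ≤ ∫ α in u..(u + 1), G i α ^ 2 :=
      intervalIntegral.integral_mono_interval (le_cut u L i) (cut_le u hL i)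
        (cut_le_last u hL hi') (Eventually.of_forall fun α => sq_nonneg _) (hG2 i _ _)
    linarith [hE i]
  rw [h1]
  refine (Finset.sum_le_sum h2).trans ?_
  rw [Finset.sum_add_distrib, ← Finset.mul_sum, Finset.sum_const, Finset.card_range, nsmul_eq_mul]
  have : 2 * M * ∑ i ∈ Finset.range L, ∫ α in (cut u L i)..(cut u L (i + 1)), |F α - G i α| ≤
      2 * M * D := mul_le_mul_of_nonneg_left hD (by positivity)
  linarith

/-- one prime, one cell -/
lemma cmp_cell {G i : ℕ} (hi : i < G) {a : ℝ} (ha : 0 ≤ a) (u : ℝ) {L : ℕ} (hL : 0 < L) :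
    ∑ l ∈ Finset.range L, ∫ α in (cut u L l)..(cut u L (l + 1)),
      |cI G i (α * a) - cI G i (α * (⌊a⌋₊ : ℝ) + cut u L l * Int.fract a)| ≤ 16 / L := by
  have hA : KInt 1 (Set.Ico ((i:ℝ) / G) ((i + 1 : ℝ) / G)) := by
    refine ⟨{Set.Ico ((i:ℝ) / G) ((i + 1 : ℝ) / G)}, by simp, ?_, by simp⟩
    intro J hJ
    rw [Finset.mem_singleton] at hJ
    rw [hJ]
    exact Set.ordConnected_Ico
  have h := cmp_one hA ha u hL
  have e : ∀ l ∈ Finset.range L, ∫ α in (cut u L l)..(cut u L (l + 1)),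
      |cI G i (α * a) - cI G i (α * (⌊a⌋₊ : ℝ) + cut u L l * Int.fract a)| =
      (1 / 2) * ∫ α in (cut u L l)..(cut u L (l + 1)),
      |phi (Set.Ico ((i:ℝ) / G) ((i + 1 : ℝ) / G)) (α * a) -
        phi (Set.Ico ((i:ℝ) / G) ((i + 1 : ℝ) / G)) (α * (⌊a⌋₊ : ℝ) + cut u L l * Int.fract a)| := by
    intro l _
    rw [← intervalIntegral.integral_const_mul]
    congr 1
    funext α
    rw [cI_eq hi, cI_eq hi]
    have e1 : ∀ x y : ℝ, (1 - x) / 2 - (1 - y) / 2 = -((1 / 2) * (x - y)) := by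
      intro x y
      ring
    rw [e1, abs_neg, abs_mul]
    norm_num
  rw [Finset.sum_congr rfl e, ← Finset.mul_sum]
  have h2 := mul_le_mul_of_nonneg_left h (show (0:ℝ) ≤ 1 / 2 by norm_num)
  refine h2.trans (le_of_eq ?_)
  push_cast
  ring

end TcAux

open TcAux

lemma measurable_TC (H : Finset ℕ) (N : ℕ) (y : ℝ) (G i : ℕ) (a : ℕ → ℝ) :
    Measurable fun α : ℝ => TC H N y G i (fun p => α * a p) := by
  have : (fun α : ℝ => TC H N y G i (fun p => α * a p)) =
      fun α : ℝ => ∑ p ∈ DP H N y, cP H N p * cI G i (α * a p) := by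
    funext α
    rw [TC_eq]
  rw [this]
  refine Finset.measurable_sum _ fun p _ => ?_
  exact ((measurable_cI G i).comp (measurable_id.mul_const _)).const_mul _

lemma TC_nonneg (H : Finset ℕ) (N : ℕ) (y : ℝ) (G i : ℕ) (t : ℕ → ℝ) : 0 ≤ TC H N y G i t := by
  rw [TC_eq]
  exact Finset.sum_nonneg fun p _ => mul_nonneg (cP_nonneg H N p) (cI_nonneg G i _)

/-- a bound that does not depend on the points -/
lemma TC_le (H : Finset ℕ) (N : ℕ) : ∃ C : ℝ, ∀ (y : ℝ) (G i : ℕ) (t : ℕ → ℝ), TC H N y G i t ≤ C := by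
  refine ⟨∑ p ∈ Nat.primesLE (N + H.sup id), cP H N p, fun y G i t => ?_⟩
  rw [TC_eq]
  calc ∑ p ∈ DP H N y, cP H N p * cI G i (t p) ≤ ∑ p ∈ DP H N y, cP H N p := by
        refine Finset.sum_le_sum fun p _ => ?_
        exact mul_le_of_le_one_right (cP_nonneg H N p) (cI_le G i _)
    _ ≤ _ := Finset.sum_le_sum_of_subset_of_nonneg (Finset.filter_subset _ _)
        fun p _ _ => cP_nonneg H N p

lemma TC_zero {H : Finset ℕ} {N : ℕ} {y : ℝ} {G i : ℕ} (hG : 0 < G) (hi : G ≤ i) (t : ℕ → ℝ) :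
    TC H N y G i t = 0 := by
  rw [TC_eq]
  refine Finset.sum_eq_zero fun p _ => ?_
  have : cI G i (t p) = 0 := by
    unfold cI
    rw [if_neg]
    have := cell_lt_aux hG (t p)
    omega
  rw [this, mul_zero]

theorem tc_mom {K κ : ℝ} (hK : 0 < K) (hκ : 0 < κ) (hκ1 : κ ≤ 1) {a : ℕ → ℝ} (ha0 : ∀ p, 0 ≤ a p)
    (ha : Cnt K κ a) (H : Finset ℕ) : ∃ C : ℝ, 0 < C ∧ ∀ᶠ N : ℕ in atTop, ∀ y : ℝ, 1 ≤ y →
      (∀ h ∈ H, 2 * (h:ℝ) ≤ y) → ∀ G L : ℕ, 0 < G → 0 < L → ∀ u : ℝ,
        ∫ α in u..(u + 1), ∑ i ∈ Finset.range G, TC H N y G i (fun p => α * a p) ^ 2 ≤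
          C * lam N ^ 2 * (1 / G + G * L / y ^ (κ / 3) + G / L) := by
  obtain ⟨C0, hC0, hev0⟩ := cP_le H
  obtain ⟨V, hV, hvar⟩ := var_cell hK hκ hκ1
  refine ⟨18 * C0 ^ 2 + 32 * C0 ^ 2 * V + 576 * C0 ^ 2, by positivity, ?_⟩
  filter_upwards [hev0, mass_DP H, tendsto_lam.eventually_ge_atTop 7] with N h1 h2 h3
  intro y hy _ G L hG hL u
  have hG0 : (0:ℝ) < G := by exact_mod_cast hG
  have hL0 : (0:ℝ) < L := by exact_mod_cast hL
  have hlam : 0 < lam N := by linarith
  have hy0 : (0:ℝ) < y := by linarith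
  have hyk : 0 < y ^ (κ / 3) := Real.rpow_pos_of_pos hy0 _
  set D := DP H N y with hDdef
  set c := cP H N with hc
  have hDp : ∀ p ∈ D, p.Prime ∧ y ≤ p := fun p hp => ⟨(mem_DP.1 hp).1.2, (mem_DP.1 hp).2.le⟩
  have hc0 : ∀ p, 0 ≤ c p := cP_nonneg H N
  set S := ∑ p ∈ D, c p with hS
  have hS0 : 0 ≤ S := Finset.sum_nonneg fun p _ => hc0 p
  have hS1 : S ≤ 3 * C0 * lam N := by
    calc S ≤ ∑ p ∈ D, C0 * ((1:ℝ) / p) := by
          refine Finset.sum_le_sum fun p hp => ?_
          rw [mul_one_div]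
          exact h1 p (hDp p hp).1
      _ = C0 * ∑ p ∈ D, (1:ℝ) / p := by rw [Finset.mul_sum]
      _ ≤ C0 * (3 * lam N) := mul_le_mul_of_nonneg_left (h2 y) hC0.le
      _ = 3 * C0 * lam N := by ring
  have hb : CntN K κ (fun p => ⌊a p⌋₊) := ha.floor ha0
  have hone : ∀ i ∈ Finset.range G, ∫ α in u..(u + 1), TC H N y G i (fun p => α * a p) ^ 2 ≤
      2 * (S / G) ^ 2 + 2 * (L * (16 * C0 ^ 2 * V * lam N ^ 2 / y ^ (κ / 3)) +
        2 * (3 * C0 * lam N) * (48 * C0 * lam N / L)) := by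
    intro i hi
    have hiG := Finset.mem_range.1 hi
    set F : ℝ → ℝ := fun α => ∑ p ∈ D, c p * cI G i (α * a p) - S / G with hF
    set W : ℕ → ℝ → ℝ := fun l α =>
      ∑ p ∈ D, c p * cI G i (α * (⌊a p⌋₊ : ℝ) + cut u L l * Int.fract (a p)) - S / G with hW
    have hSG0 : 0 ≤ S / G := by positivity
    have hSG1 : S / G ≤ S := by
      rw [div_le_iff₀ hG0]
      have : (1:ℝ) ≤ G := by exact_mod_cast hG
      nlinarith
    have hbd : ∀ f : ℕ → ℝ, (∀ p, 0 ≤ f p ∧ f p ≤ 1) → |∑ p ∈ D, c p * f p - S / G| ≤ 3 * C0 * lam N := by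
      intro f hf
      have e1 : 0 ≤ ∑ p ∈ D, c p * f p := Finset.sum_nonneg fun p _ => mul_nonneg (hc0 p) (hf p).1
      have e2 : ∑ p ∈ D, c p * f p ≤ S :=
        Finset.sum_le_sum fun p _ => mul_le_of_le_one_right (hc0 p) (hf p).2
      rw [abs_le]
      constructor <;> linarith
    have hFm : Measurable F := by
      refine Measurable.sub_const ?_ _
      refine Finset.measurable_sum _ fun p _ => ?_
      exact ((measurable_cI G i).comp (measurable_id.mul_const _)).const_mul _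
    have hWm : ∀ l, Measurable (W l) := by
      intro l
      refine Measurable.sub_const ?_ _
      refine Finset.measurable_sum _ fun p _ => ?_
      exact ((measurable_cI G i).comp ((measurable_id.mul_const _).add_const _)).const_mul _
    have hFb : ∀ α, |F α| ≤ 3 * C0 * lam N := fun α =>
      hbd (fun p => cI G i (α * a p)) fun p => ⟨cI_nonneg _ _ _, cI_le _ _ _⟩
    have hWb : ∀ l α, |W l α| ≤ 3 * C0 * lam N := fun l α =>
      hbd (fun p => cI G i (α * (⌊a p⌋₊ : ℝ) + cut u L l * Int.fract (a p)))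
        fun p => ⟨cI_nonneg _ _ _, cI_le _ _ _⟩
    have hE : ∀ l, ∫ α in u..(u + 1), W l α ^ 2 ≤ 16 * C0 ^ 2 * V * lam N ^ 2 / y ^ (κ / 3) := by
      intro l
      have e1 := hvar (fun p => ⌊a p⌋₊) hb (fun p => cut u L l * Int.fract (a p)) y hy D hDp
        (fun p => c p / C0) (fun p hp => ⟨div_nonneg (hc0 p) hC0.le, by
          rw [div_le_iff₀ hC0]
          have := h1 p (hDp p hp).1
          have e : 1 / (p:ℝ) * C0 = C0 / p := by ring
          rw [e]
          exact this⟩) G i hiG u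
      have e2 : ∀ α, W l α ^ 2 = C0 ^ 2 * (∑ p ∈ D, c p / C0 *
          cI G i (α * (⌊a p⌋₊ : ℝ) + cut u L l * Int.fract (a p)) - (∑ p ∈ D, c p / C0) / G) ^ 2 := by
        intro α
        have e3 : ∑ p ∈ D, c p / C0 * cI G i (α * (⌊a p⌋₊ : ℝ) + cut u L l * Int.fract (a p)) =
            (∑ p ∈ D, c p * cI G i (α * (⌊a p⌋₊ : ℝ) + cut u L l * Int.fract (a p))) / C0 := by
          rw [Finset.sum_div]
          refine Finset.sum_congr rfl fun p _ => ?_
          ring
        have e4 : ∑ p ∈ D, c p / C0 = S / C0 := by rw [hS, Finset.sum_div]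
        rw [e3, e4, hW]
        field_simp
      have e5 : ∫ α in u..(u + 1), W l α ^ 2 = C0 ^ 2 * ∫ α in u..(u + 1), (∑ p ∈ D, c p / C0 *
          cI G i (α * (⌊a p⌋₊ : ℝ) + cut u L l * Int.fract (a p)) - (∑ p ∈ D, c p / C0) / G) ^ 2 := by
        rw [← intervalIntegral.integral_const_mul]
        congr 1
        funext α
        exact e2 α
      rw [e5]
      have e6 : (1 + ∑ p ∈ D, (1:ℝ) / p) ^ 2 ≤ 16 * lam N ^ 2 := by
        have e7 := h2 y
        have e8 : 0 ≤ ∑ p ∈ D, (1:ℝ) / p := Finset.sum_nonneg fun p _ => by positivity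
        have e9 : 1 + ∑ p ∈ D, (1:ℝ) / p ≤ 4 * lam N := by linarith
        calc (1 + ∑ p ∈ D, (1:ℝ) / p) ^ 2 ≤ (4 * lam N) ^ 2 := pow_le_pow_left₀ (by linarith) e9 2
          _ = 16 * lam N ^ 2 := by ring
      calc _ ≤ C0 ^ 2 * (V * (1 + ∑ p ∈ D, (1:ℝ) / p) ^ 2 / y ^ (κ / 3)) :=
            mul_le_mul_of_nonneg_left e1 (by positivity)
        _ ≤ C0 ^ 2 * (V * (16 * lam N ^ 2) / y ^ (κ / 3)) := by
            refine mul_le_mul_of_nonneg_left ?_ (by positivity)
            refine div_le_div_of_nonneg_right ?_ hyk.le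
            exact mul_le_mul_of_nonneg_left e6 hV.le
        _ = _ := by ring
    have hD : ∑ l ∈ Finset.range L, ∫ α in (cut u L l)..(cut u L (l + 1)), |F α - W l α| ≤
        48 * C0 * lam N / L := by
      have hm1 : ∀ p, Measurable (fun α => cI G i (α * a p)) := fun p =>
        (measurable_cI G i).comp (measurable_id.mul_const _)
      have hm2 : ∀ l p, Measurable
          (fun α => cI G i (α * (⌊a p⌋₊ : ℝ) + cut u L l * Int.fract (a p))) := fun l p =>
        (measurable_cI G i).comp ((measurable_id.mul_const _).add_const _)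
      have hint : ∀ l p x z, IntervalIntegrable (fun α => |cI G i (α * a p) -
          cI G i (α * (⌊a p⌋₊ : ℝ) + cut u L l * Int.fract (a p))|) volume x z := by
        intro l p x z
        refine intI (M := 1) ((hm1 p).sub (hm2 l p)).norm (fun α => ?_) x z
        simp only [Real.norm_eq_abs, abs_abs, Pi.sub_apply]
        have f1 := cI_nonneg G i (α * a p)
        have f2 := cI_le G i (α * a p)
        have f3 := cI_nonneg G i (α * (⌊a p⌋₊ : ℝ) + cut u L l * Int.fract (a p))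
        have f4 := cI_le G i (α * (⌊a p⌋₊ : ℝ) + cut u L l * Int.fract (a p))
        rw [abs_le]
        constructor <;> linarith
      have g1 : ∀ l ∈ Finset.range L, ∫ α in (cut u L l)..(cut u L (l + 1)), |F α - W l α| ≤
          ∑ p ∈ D, c p * ∫ α in (cut u L l)..(cut u L (l + 1)), |cI G i (α * a p) -
          cI G i (α * (⌊a p⌋₊ : ℝ) + cut u L l * Int.fract (a p))| := by
        intro l _
        have e1 : ∑ p ∈ D, c p * ∫ α in (cut u L l)..(cut u L (l + 1)), |cI G i (α * a p) -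
            cI G i (α * (⌊a p⌋₊ : ℝ) + cut u L l * Int.fract (a p))| =
            ∫ α in (cut u L l)..(cut u L (l + 1)), ∑ p ∈ D, c p * |cI G i (α * a p) -
            cI G i (α * (⌊a p⌋₊ : ℝ) + cut u L l * Int.fract (a p))| := by
          rw [intervalIntegral.integral_finsetSum]
          · refine Finset.sum_congr rfl fun p _ => ?_
            rw [intervalIntegral.integral_const_mul]
          · intro p _
            exact (hint l p _ _).const_mul _
        rw [e1]
        refine intervalIntegral.integral_mono_on (cut_le u hL l) ?_ ?_ fun α _ => ?_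
        · refine intI (M := 2 * (3 * C0 * lam N)) (hFm.sub (hWm l)).norm (fun α => ?_) _ _
          simp only [Real.norm_eq_abs, abs_abs, Pi.sub_apply]
          have f1 := abs_sub (F α) (W l α)
          have f2 := hFb α
          have f3 := hWb l α
          linarith
        · have e2 : (fun α => ∑ p ∈ D, c p * |cI G i (α * a p) -
              cI G i (α * (⌊a p⌋₊ : ℝ) + cut u L l * Int.fract (a p))|) =
              ∑ p ∈ D, fun α => c p * |cI G i (α * a p) -
              cI G i (α * (⌊a p⌋₊ : ℝ) + cut u L l * Int.fract (a p))| := by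
            funext α
            rw [Finset.sum_apply]
          rw [e2]
          exact IntervalIntegrable.sum _ fun p _ => (hint l p _ _).const_mul _
        · have e3 : F α - W l α = ∑ p ∈ D, c p * (cI G i (α * a p) -
              cI G i (α * (⌊a p⌋₊ : ℝ) + cut u L l * Int.fract (a p))) := by
            simp only [hF, hW, mul_sub, Finset.sum_sub_distrib]
            ring
          rw [e3]
          refine (Finset.abs_sum_le_sum_abs _ _).trans (le_of_eq ?_)
          refine Finset.sum_congr rfl fun p _ => ?_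
          rw [abs_mul, abs_of_nonneg (hc0 p)]
      calc _ ≤ ∑ l ∈ Finset.range L, ∑ p ∈ D, c p * ∫ α in (cut u L l)..(cut u L (l + 1)),
            |cI G i (α * a p) - cI G i (α * (⌊a p⌋₊ : ℝ) + cut u L l * Int.fract (a p))| :=
            Finset.sum_le_sum g1
        _ = ∑ p ∈ D, c p * ∑ l ∈ Finset.range L, ∫ α in (cut u L l)..(cut u L (l + 1)),
            |cI G i (α * a p) - cI G i (α * (⌊a p⌋₊ : ℝ) + cut u L l * Int.fract (a p))| := by
            rw [Finset.sum_comm]
            refine Finset.sum_congr rfl fun p _ => ?_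
            rw [Finset.mul_sum]
        _ ≤ ∑ p ∈ D, c p * (16 / L) :=
            Finset.sum_le_sum fun p _ => mul_le_mul_of_nonneg_left (cmp_cell hiG (ha0 p) u hL) (hc0 p)
        _ = S * (16 / L) := by rw [← Finset.sum_mul]
        _ ≤ 3 * C0 * lam N * (16 / L) := mul_le_mul_of_nonneg_right hS1 (by positivity)
        _ = 48 * C0 * lam N / L := by ring
    have hgl := glueM hFm hWm hFb hWb hL hE hD
    have hTm := measurable_TC H N y G i a
    have hTF : ∀ α, TC H N y G i (fun p => α * a p) = F α + S / G := by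
      intro α
      rw [TC_eq, hF]
      simp only []
      ring
    have hF2i : IntervalIntegrable (fun α => F α ^ 2) volume u (u + 1) := by
      refine intI (M := (3 * C0 * lam N) ^ 2) (hFm.pow_const 2) (fun α => ?_) _ _
      rw [abs_pow]
      exact pow_le_pow_left₀ (abs_nonneg _) (hFb α) 2
    have hT2 : ∫ α in u..(u + 1), TC H N y G i (fun p => α * a p) ^ 2 ≤
        ∫ α in u..(u + 1), (2 * (S / G) ^ 2 + 2 * F α ^ 2) := by
      refine intervalIntegral.integral_mono_on (by linarith) ?_ ?_ fun α _ => ?_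
      · refine intI (M := S ^ 2) (hTm.pow_const 2) (fun α => ?_) _ _
        rw [abs_pow, abs_of_nonneg (TC_nonneg H N y G i _)]
        refine pow_le_pow_left₀ (TC_nonneg H N y G i _) ?_ 2
        rw [TC_eq]
        exact Finset.sum_le_sum fun p _ => mul_le_of_le_one_right (hc0 p) (cI_le _ _ _)
      · exact intervalIntegrable_const.add (hF2i.const_mul 2)
      · rw [hTF]
        nlinarith [sq_nonneg (F α - S / G)]
    rw [intervalIntegral.integral_add intervalIntegrable_const (hF2i.const_mul 2),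
      intervalIntegral.integral_const, intervalIntegral.integral_const_mul, smul_eq_mul] at hT2
    have e9 : (u + 1 - u) * (2 * (S / G) ^ 2) = 2 * (S / G) ^ 2 := by ring
    rw [e9] at hT2
    linarith
  have hTi : ∀ i ∈ Finset.range G, IntervalIntegrable
      (fun α => TC H N y G i (fun p => α * a p) ^ 2) volume u (u + 1) := by
    intro i _
    refine intI (M := S ^ 2) ((measurable_TC H N y G i a).pow_const 2) (fun α => ?_) _ _
    rw [abs_pow, abs_of_nonneg (TC_nonneg H N y G i _)]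
    refine pow_le_pow_left₀ (TC_nonneg H N y G i _) ?_ 2
    rw [TC_eq]
    exact Finset.sum_le_sum fun p _ => mul_le_of_le_one_right (hc0 p) (cI_le _ _ _)
  rw [intervalIntegral.integral_finsetSum hTi]
  refine (Finset.sum_le_sum hone).trans ?_
  rw [Finset.sum_const, Finset.card_range, nsmul_eq_mul]
  have k1 : (G:ℝ) * (2 * (S / G) ^ 2) ≤ 18 * C0 ^ 2 * lam N ^ 2 * (1 / G) := by
    have e1 : (G:ℝ) * (2 * (S / G) ^ 2) = 2 * S ^ 2 * (1 / G) := by
      field_simp
    rw [e1]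
    refine mul_le_mul_of_nonneg_right ?_ (by positivity)
    have := pow_le_pow_left₀ hS0 hS1 2
    calc 2 * S ^ 2 ≤ 2 * (3 * C0 * lam N) ^ 2 := by linarith
      _ = _ := by ring
  have k2 : (G:ℝ) * (2 * (L * (16 * C0 ^ 2 * V * lam N ^ 2 / y ^ (κ / 3)))) =
      32 * C0 ^ 2 * V * lam N ^ 2 * (G * L / y ^ (κ / 3)) := by ring
  have k3 : (G:ℝ) * (2 * (2 * (3 * C0 * lam N) * (48 * C0 * lam N / L))) =
      576 * C0 ^ 2 * lam N ^ 2 * (G / L) := by ring
  have p1 : 0 ≤ C0 ^ 2 * lam N ^ 2 := by positivity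
  have p2 : (0:ℝ) ≤ 1 / G := by positivity
  have p3 : 0 ≤ (G:ℝ) * L / y ^ (κ / 3) := by positivity
  have p4 : (0:ℝ) ≤ G / L := by positivity
  have q1 : 0 ≤ (C0 ^ 2 * lam N ^ 2) * (1 / G) := mul_nonneg p1 p2
  have q2 : 0 ≤ (C0 ^ 2 * lam N ^ 2) * (G * L / y ^ (κ / 3)) := mul_nonneg p1 p3
  have q3 : 0 ≤ (C0 ^ 2 * lam N ^ 2) * (G / L) := mul_nonneg p1 p4
  have q4 : 0 ≤ V * ((C0 ^ 2 * lam N ^ 2) * (1 / G)) := mul_nonneg hV.le q1
  have q5 : 0 ≤ V * ((C0 ^ 2 * lam N ^ 2) * (G / L)) := mul_nonneg hV.le q3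
  calc (G:ℝ) * (2 * (S / G) ^ 2 + 2 * (L * (16 * C0 ^ 2 * V * lam N ^ 2 / y ^ (κ / 3)) +
        2 * (3 * C0 * lam N) * (48 * C0 * lam N / L)))
      = (G:ℝ) * (2 * (S / G) ^ 2) + (G:ℝ) * (2 * (L * (16 * C0 ^ 2 * V * lam N ^ 2 / y ^ (κ / 3)))) +
        (G:ℝ) * (2 * (2 * (3 * C0 * lam N) * (48 * C0 * lam N / L))) := by ring
    _ ≤ 18 * C0 ^ 2 * lam N ^ 2 * (1 / G) + 32 * C0 ^ 2 * V * lam N ^ 2 * (G * L / y ^ (κ / 3)) +
        576 * C0 ^ 2 * lam N ^ 2 * (G / L) := by
        rw [k2, k3]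
        linarith
    _ ≤ _ := by nlinarith
end Pool.Agent.Lib.P4a7640V
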