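import Mathlib
import Pool.Agent.Lib.P4a7640V.Par
import Pool.Agent.Lib.P4a7640K.CmpK

/-!
# All arcs at once: comparison of two sets

`cmp_ku` is `cmp_k` with the quantifiers in the other order (the constant and the scale do not depend
on the sets).
-/

open Filter Topology MeasureTheory

namespace Pool.Agent.Lib.P4a7640V

open Pool.Agent.Lib.P4a7640 Pool.Agent.Lib.P4a7640M Pool.Agent.Lib.P4a7640Y Pool.Agent.Lib.P4a7640Z
open Pool.Agent.Lib.P4a7640K

theorem cmp_ku (k : ℕ) (H : Finset ℕ) :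
    ∃ C : ℝ, 0 < C ∧ ∀ᶠ N : ℕ in atTop, ∀ A : ℕ → Set ℝ, (∀ p, KInt k (A p)) →
      ∀ a : ℕ → ℝ, (∀ p, 0 ≤ a p) → ∀ w : ℕ → ℝ, (∀ n, |w n| ≤ 1) → ∀ (u : ℝ) (L : ℕ), 0 < L →
        ∑ i ∈ Finset.range L, ∫ α in (cut u L i)..(cut u L (i + 1)),
          |FF w H N (xr A a α) - FF w H N (xi A a (cut u L i) α)| ≤ C * lam N / L := by
  exact cmp_u k H

lemma cell_lt {G : ℕ} (hG : 0 < G) (x : ℝ) : cell G x < G := by
  unfold cell
  have hG' : (0:ℝ) < G := by exact_mod_cast hG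
  rw [Nat.floor_lt (mul_nonneg hG'.le (Int.fract_nonneg x))]
  calc (G:ℝ) * Int.fract x < G * 1 := mul_lt_mul_of_pos_left (Int.fract_lt_one x) hG'
    _ = G := mul_one _

lemma cell_div {G₀ G₁ : ℕ} (h₀ : 0 < G₀) (h₁ : 0 < G₁) (x : ℝ) : cell (G₀ * G₁) x / G₁ = cell G₀ x := by
  unfold cell
  have hG : (G₁:ℝ) ≠ 0 := by exact_mod_cast h₁.ne'
  rw [← Nat.floor_div_natCast]
  congr 1
  push_cast
  field_simp

/-- two sets that differ only in the cells of `E` and not at the primes up to `y` -/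
theorem cmp_sets {H : Finset ℕ} {N : ℕ} (hN : 3 ≤ N) {w : ℕ → ℝ} (hw : ∀ n, |w n| ≤ 1) {A A' : Set ℝ}
    {t : ℕ → ℝ} {y : ℝ} {G : ℕ} {E : Finset ℕ}
    (h1 : ∀ p : ℕ, p.Prime → (p:ℝ) ≤ y → (Int.fract (t p) ∈ A ↔ Int.fract (t p) ∈ A'))
    (h2 : ∀ p : ℕ, p.Prime → cell G (t p) ∉ E → (Int.fract (t p) ∈ A ↔ Int.fract (t p) ∈ A')) :
    |FF w H N (xt A t) - FF w H N (xt A' t)| ≤ 2 * ∑ i ∈ E, TC H N y G i t := by
  classical
  have hlog0 : 0 < Real.log N := Real.log_pos (by exact_mod_cast (by omega : 1 < N))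
  have hcI : ∀ i x, 0 ≤ cI G i x := by
    intro i x
    unfold cI
    split_ifs <;> norm_num
  -- one prime
  have hone : ∀ p : ℕ, p.Prime → |sg (xt A t p) - sg (xt A' t p)| ≤
      if y < (p:ℝ) then 2 * ∑ i ∈ E, cI G i (t p) else 0 := by
    intro p hp
    have hS : 0 ≤ 2 * ∑ i ∈ E, cI G i (t p) :=
      mul_nonneg (by norm_num) (Finset.sum_nonneg fun i _ => hcI i _)
    have hR : 0 ≤ if y < (p:ℝ) then 2 * ∑ i ∈ E, cI G i (t p) else 0 := by
      split_ifs
      · exact hS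
      · exact le_rfl
    by_cases he : (Int.fract (t p) ∈ A ↔ Int.fract (t p) ∈ A')
    · have e : xt A t p = xt A' t p := by
        unfold xt
        by_cases h3 : Int.fract (t p) ∈ A
        · rw [if_pos h3, if_pos (he.1 h3)]
        · rw [if_neg h3, if_neg (fun h4 => h3 (he.2 h4))]
      rw [e, sub_self, abs_zero]
      exact hR
    · have hy : y < (p:ℝ) := by
        by_contra h3
        exact he (h1 p hp (not_lt.1 h3))
      have hc : cell G (t p) ∈ E := by
        by_contra h3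
        exact he (h2 p hp h3)
      rw [if_pos hy]
      have e1 : (1:ℝ) ≤ ∑ i ∈ E, cI G i (t p) := by
        have e2 := Finset.single_le_sum (f := fun i => cI G i (t p)) (fun i _ => hcI i _) hc
        have e3 : cI G (cell G (t p)) (t p) = 1 := by
          unfold cI
          rw [if_pos rfl]
        calc (1:ℝ) = cI G (cell G (t p)) (t p) := e3.symm
          _ ≤ _ := e2
      calc |sg (xt A t p) - sg (xt A' t p)| ≤ |sg (xt A t p)| + |sg (xt A' t p)| := abs_sub _ _
        _ = 2 := by rw [abs_sg, abs_sg]; norm_num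
        _ ≤ _ := by linarith
  have hpt : |FF w H N (xt A t) - FF w H N (xt A' t)| ≤
      ∑ n ∈ Finset.Icc 1 N, 1 / n / Real.log N * ∑ p ∈ oddT (MM H n),
        if y < (p:ℝ) then 2 * ∑ i ∈ E, cI G i (t p) else 0 := by
    rw [FF_eq, FF_eq, ← Finset.sum_sub_distrib]
    refine (Finset.abs_sum_le_sum_abs _ _).trans ?_
    refine Finset.sum_le_sum fun n hn => ?_
    rw [← mul_sub, abs_mul]
    have hwn : |w n / n / Real.log N| ≤ 1 / n / Real.log N := by
      rw [abs_div, abs_div, abs_of_pos hlog0, abs_of_nonneg (Nat.cast_nonneg (α := ℝ) n)]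
      exact div_le_div_of_nonneg_right (div_le_div_of_nonneg_right (hw n) (Nat.cast_nonneg n)) hlog0.le
    refine mul_le_mul hwn ?_ (abs_nonneg _) (by positivity)
    unfold chiT
    refine (abs_prod_sub_le _ (fun p _ => (abs_sg _).le) (fun p _ => (abs_sg _).le)).trans ?_
    exact Finset.sum_le_sum fun p hp => hone p (prime_of_mem_oddT hp)
  refine hpt.trans (le_of_eq ?_)
  unfold TC
  rw [← Finset.sum_div, Finset.sum_comm, ← mul_div_assoc, Finset.mul_sum, Finset.sum_div]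
  refine Finset.sum_congr rfl fun n _ => ?_
  rw [← Finset.sum_filter, ← Finset.mul_sum, Finset.sum_comm, ← Finset.mul_sum]
  ring

end Pool.Agent.Lib.P4a7640V
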