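import Mathlib
import Pool.Agent.Lib.P4a7640V.Par

/-!
# Approximation of a union of intervals by a union of grid intervals
-/

open Filter Topology MeasureTheory

namespace Pool.Agent.Lib.P4a7640V

open Pool.Agent.Lib.P4a7640 Pool.Agent.Lib.P4a7640M Pool.Agent.Lib.P4a7640Y Pool.Agent.Lib.P4a7640Z
open Pool.Agent.Lib.P4a7640K

/-- a union of at most `k` intervals as a family -/
lemma kint_family {k : ℕ} {A : Set ℝ} (hA : KInt k A) :
    ∃ J : Fin k → Set ℝ, (∀ j, (J j).OrdConnected) ∧ A = ⋃ j, J j := by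
  classical
  obtain ⟨s, hs, hJ, rfl⟩ := hA
  refine ⟨fun j => if h : (j : ℕ) < s.card then (s.equivFin.symm ⟨j, h⟩).1 else ∅, ?_, ?_⟩
  · intro j
    by_cases h : (j : ℕ) < s.card
    · simp only [h, dif_pos]
      exact hJ _ (s.equivFin.symm ⟨j, h⟩).2
    · simp only [h, dif_neg, not_false_eq_true]
      exact Set.ordConnected_empty
  · ext x
    simp only [Set.mem_iUnion]
    constructor
    · rintro ⟨T, hT, hx⟩
      refine ⟨⟨s.equivFin ⟨T, hT⟩, lt_of_lt_of_le (Fin.is_lt _) hs⟩, ?_⟩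
      simp only [Fin.is_lt, dite_true, Fin.eta, Equiv.symm_apply_apply]
      exact hx
    · rintro ⟨j, hx⟩
      by_cases h : (j : ℕ) < s.card
      · rw [dif_pos h] at hx
        exact ⟨_, (s.equivFin.symm ⟨j, h⟩).2, hx⟩
      · rw [dif_neg h] at hx
        exact absurd hx (Set.notMem_empty _)

lemma kint_of_family {k : ℕ} {J : Fin k → Set ℝ} (hJ : ∀ j, (J j).OrdConnected) :
    KInt k (⋃ j, J j) := by
  classical
  refine ⟨Finset.univ.image J, ?_, ?_, ?_⟩
  · exact Finset.card_image_le.trans (by simp)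
  · intro T hT
    obtain ⟨j, -, rfl⟩ := Finset.mem_image.1 hT
    exact hJ j
  · ext x
    simp

lemma kint_GS (G m : ℕ) (i : Fin m → Fin (G + 1) × Fin (G + 1)) : KInt m (GS G m i) :=
  kint_of_family fun _ => Set.ordConnected_Ico

/-- the number of the cell of `x` in terms of inequalities -/
lemma cell_eq_iff {G : ℕ} (hG : 0 < G) (x : ℝ) (c : ℕ) :
    cell G x = c ↔ (c : ℝ) / G ≤ Int.fract x ∧ Int.fract x < ((c + 1 : ℕ) : ℝ) / G := by
  have hG' : (0 : ℝ) < G := by exact_mod_cast hG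
  unfold cell
  rw [Nat.floor_eq_iff (mul_nonneg hG'.le (Int.fract_nonneg x)), div_le_iff₀ hG', lt_div_iff₀ hG',
    mul_comm (G : ℝ)]
  push_cast
  rfl

lemma cell_lt' {G : ℕ} (hG : 0 < G) (x : ℝ) : cell G x < G := by
  have hG' : (0 : ℝ) < G := by exact_mod_cast hG
  unfold cell
  rw [Nat.floor_lt (mul_nonneg hG'.le (Int.fract_nonneg x))]
  have := Int.fract_lt_one x
  nlinarith

/-- the fractional part is monotone in the cell -/
lemma lt_of_cell_lt {G : ℕ} (hG : 0 < G) {x y : ℝ} (h : cell G x < cell G y) :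
    Int.fract x < Int.fract y := by
  have hG' : (0 : ℝ) < G := by exact_mod_cast hG
  have h1 := ((cell_eq_iff hG x _).1 rfl).2
  have h2 := ((cell_eq_iff hG y _).1 rfl).1
  refine lt_of_lt_of_le h1 (le_trans ?_ h2)
  exact div_le_div_of_nonneg_right (by exact_mod_cast h) hG'.le

/-- an interval contains all cells between the first and the last cell that it meets -/
lemma ord_cells {J : Set ℝ} (hJ : J.OrdConnected) {G : ℕ} (hG : 0 < G) :
    ∃ m M : ℕ, m < G ∧ M < G ∧
      (∀ x : ℝ, Int.fract x ∈ J → m ≤ cell G x ∧ cell G x ≤ M) ∧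
      ∀ x : ℝ, m < cell G x → cell G x < M → Int.fract x ∈ J := by
  classical
  by_cases h : ∃ x : ℝ, Int.fract x ∈ J
  · set T : Finset ℕ := (Finset.range G).filter fun c => ∃ x : ℝ, Int.fract x ∈ J ∧ cell G x = c
      with hT
    have hne : T.Nonempty := by
      obtain ⟨x, hx⟩ := h
      exact ⟨cell G x, Finset.mem_filter.2 ⟨Finset.mem_range.2 (cell_lt' hG x), x, hx, rfl⟩⟩
    obtain ⟨hm1, xm, hxm, hm2⟩ := Finset.mem_filter.1 (T.min'_mem hne)
    obtain ⟨hM1, xM, hxM, hM2⟩ := Finset.mem_filter.1 (T.max'_mem hne)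
    refine ⟨T.min' hne, T.max' hne, Finset.mem_range.1 hm1, Finset.mem_range.1 hM1, ?_, ?_⟩
    · intro x hx
      have h1 : cell G x ∈ T :=
        Finset.mem_filter.2 ⟨Finset.mem_range.2 (cell_lt' hG x), x, hx, rfl⟩
      exact ⟨T.min'_le _ h1, T.le_max' _ h1⟩
    · intro x h1 h2
      rw [← hm2] at h1
      rw [← hM2] at h2
      exact hJ.out hxm hxM ⟨(lt_of_cell_lt hG h1).le, (lt_of_cell_lt hG h2).le⟩
  · refine ⟨0, 0, hG, hG, ?_, ?_⟩
    · intro x hx
      exact absurd ⟨x, hx⟩ h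
    · intro x h1 h2
      omega

/-- the fractional part is in a grid interval if and only if the cell is in the range -/
lemma mem_grid {G : ℕ} (hG : 0 < G) (a b : ℕ) (x : ℝ) :
    Int.fract x ∈ Set.Ico ((a : ℝ) / G) ((b : ℝ) / G) ↔ a ≤ cell G x ∧ cell G x < b := by
  have hG' : (0 : ℝ) < G := by exact_mod_cast hG
  obtain ⟨h1, h2⟩ := (cell_eq_iff hG x _).1 rfl
  rw [div_le_iff₀ hG'] at h1
  rw [lt_div_iff₀ hG'] at h2
  rw [Set.mem_Ico, div_le_iff₀ hG', lt_div_iff₀ hG']
  constructor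
  · rintro ⟨h3, h4⟩
    constructor
    · have h5 : (a : ℝ) < ((cell G x + 1 : ℕ) : ℝ) := lt_of_le_of_lt h3 h2
      have h6 : a < cell G x + 1 := by exact_mod_cast h5
      omega
    · have h5 : ((cell G x : ℕ) : ℝ) < (b : ℝ) := lt_of_le_of_lt h1 h4
      exact_mod_cast h5
  · rintro ⟨h3, h4⟩
    constructor
    · exact le_trans (by exact_mod_cast h3) h1
    · exact lt_of_lt_of_le h2 (by exact_mod_cast h4)

/-- the approximation of `A` by a grid set `⋃ (cells inside the intervals of A) ∪ (some of the at most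
`2 k` cells that contain an endpoint)`, with the right choice at the points `t p`, `p ∈ P` -/
theorem grid {k : ℕ} {A : Set ℝ} (hA : KInt k A) {G : ℕ} (hG : 0 < G) (P : Finset ℕ) (t : ℕ → ℝ)
    (hinj : ∀ p ∈ P, ∀ q ∈ P, cell G (t p) = cell G (t q) → p = q) :
    ∃ i : Fin (3 * k) → Fin (G + 1) × Fin (G + 1),
      (∀ p ∈ P, (Int.fract (t p) ∈ A ↔ Int.fract (t p) ∈ GS G (3 * k) i)) ∧
      ∃ E : Finset ℕ, E.card ≤ 2 * k ∧
        ∀ x : ℝ, cell G x ∉ E → (Int.fract x ∈ A ↔ Int.fract x ∈ GS G (3 * k) i) := by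
  classical
  obtain ⟨J, hJ, rfl⟩ := kint_family hA
  choose m M hm hM h1 h2 using fun j => ord_cells (hJ j) hG
  set Ch : ℕ → Prop := fun c => ∃ p ∈ P, cell G (t p) = c ∧ Int.fract (t p) ∈ ⋃ j, J j with hCh
  -- the three intervals
  set F : Fin 3 × Fin k → Fin (G + 1) × Fin (G + 1) := fun q =>
    if q.1 = 0 then (⟨m q.2 + 1, by have := hm q.2; omega⟩, ⟨M q.2, by have := hM q.2; omega⟩)
    else if q.1 = 1 then (⟨m q.2, by have := hm q.2; omega⟩,
      if Ch (m q.2) then ⟨m q.2 + 1, by have := hm q.2; omega⟩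
      else ⟨m q.2, by have := hm q.2; omega⟩)
    else (⟨M q.2, by have := hM q.2; omega⟩,
      if Ch (M q.2) then ⟨M q.2 + 1, by have := hM q.2; omega⟩
      else ⟨M q.2, by have := hM q.2; omega⟩) with hF
  have key : ∀ x : ℝ, Int.fract x ∈ GS G (3 * k) (fun l => F (finProdFinEquiv.symm l)) ↔
      ∃ j, (m j < cell G x ∧ cell G x < M j) ∨ (cell G x = m j ∧ Ch (m j)) ∨
        (cell G x = M j ∧ Ch (M j)) := by
    intro x
    have e1 : Int.fract x ∈ GS G (3 * k) (fun l => F (finProdFinEquiv.symm l)) ↔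
        ∃ q : Fin 3 × Fin k, ((F q).1 : ℕ) ≤ cell G x ∧ cell G x < ((F q).2 : ℕ) := by
      unfold GS
      rw [Set.mem_iUnion]
      constructor
      · rintro ⟨l, hl⟩
        exact ⟨finProdFinEquiv.symm l, (mem_grid hG _ _ x).1 hl⟩
      · rintro ⟨q, hq⟩
        refine ⟨finProdFinEquiv q, (mem_grid hG _ _ x).2 ?_⟩
        simpa using hq
    rw [e1]
    constructor
    · rintro ⟨⟨r, j⟩, hq1, hq2⟩
      refine ⟨j, ?_⟩
      simp only [hF] at hq1 hq2
      by_cases hr0 : r = 0
      · simp only [hr0, if_true] at hq1 hq2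
        left
        exact ⟨hq1, hq2⟩
      · by_cases hr1 : r = 1
        · simp only [hr1, one_ne_zero, if_false, if_true] at hq1 hq2
          by_cases hc : Ch (m j)
          · simp only [hc, if_true] at hq2
            right; left
            exact ⟨by omega, hc⟩
          · simp only [hc, if_false] at hq2
            omega
        · simp only [hr0, hr1, if_false] at hq1 hq2
          by_cases hc : Ch (M j)
          · simp only [hc, if_true] at hq2
            right; right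
            exact ⟨by omega, hc⟩
          · simp only [hc, if_false] at hq2
            omega
    · rintro ⟨j, hj⟩
      rcases hj with ⟨h3, h4⟩ | ⟨h3, h4⟩ | ⟨h3, h4⟩
      · refine ⟨(0, j), ?_⟩
        simp only [hF, if_true]
        exact ⟨h3, h4⟩
      · refine ⟨(1, j), ?_⟩
        simp only [hF, one_ne_zero, if_false, if_true, h4]
        omega
      · refine ⟨(2, j), ?_⟩
        have h20 : (2 : Fin 3) ≠ 0 := by decide
        have h21 : (2 : Fin 3) ≠ 1 := by decide
        simp only [hF, h20, h21, if_false, if_true, h4]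
        omega
  refine ⟨fun l => F (finProdFinEquiv.symm l), ?_, Finset.univ.image m ∪ Finset.univ.image M,
    ?_, ?_⟩
  · intro p hp
    rw [key]
    have hch : Ch (cell G (t p)) ↔ Int.fract (t p) ∈ ⋃ j, J j := by
      constructor
      · rintro ⟨q, hq, e, h3⟩
        rw [hinj p hp q hq e.symm]
        exact h3
      · intro h3
        exact ⟨p, hp, rfl, h3⟩
    constructor
    · intro h3
      obtain ⟨j, hj⟩ := Set.mem_iUnion.1 h3
      obtain ⟨h4, h5⟩ := h1 j _ hj
      refine ⟨j, ?_⟩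
      by_cases h6 : cell G (t p) = m j
      · right; left
        exact ⟨h6, h6 ▸ hch.2 h3⟩
      · by_cases h7 : cell G (t p) = M j
        · right; right
          exact ⟨h7, h7 ▸ hch.2 h3⟩
        · left
          omega
    · rintro ⟨j, ⟨h3, h4⟩ | ⟨h3, h4⟩ | ⟨h3, h4⟩⟩
      · exact Set.mem_iUnion.2 ⟨j, h2 j _ h3 h4⟩
      · exact hch.1 (h3 ▸ h4)
      · exact hch.1 (h3 ▸ h4)
  · refine (Finset.card_union_le _ _).trans ?_
    have h3 : (Finset.univ.image m).card ≤ k := Finset.card_image_le.trans (by simp)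
    have h4 : (Finset.univ.image M).card ≤ k := Finset.card_image_le.trans (by simp)
    omega
  · intro x hx
    rw [key, Set.mem_iUnion]
    have h3 : ∀ j, cell G x ≠ m j := fun j h => hx (by
      rw [h]
      exact Finset.mem_union_left _ (Finset.mem_image_of_mem m (Finset.mem_univ j)))
    have h4 : ∀ j, cell G x ≠ M j := fun j h => hx (by
      rw [h]
      exact Finset.mem_union_right _ (Finset.mem_image_of_mem M (Finset.mem_univ j)))
    constructor
    · rintro ⟨j, hj⟩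
      obtain ⟨h5, h6⟩ := h1 j _ hj
      refine ⟨j, Or.inl ?_⟩
      have := h3 j
      have := h4 j
      omega
    · rintro ⟨j, ⟨h5, h6⟩ | ⟨h5, -⟩ | ⟨h5, -⟩⟩
      · exact ⟨j, h2 j _ h5 h6⟩
      · exact absurd h5 (h3 j)
      · exact absurd h5 (h4 j)

/-- the measures of two sets that differ only in the cells of `E` -/
lemma vol_grid {A A' : Set ℝ} {G : ℕ} (hG : 0 < G) {E : Finset ℕ}
    (h : ∀ x : ℝ, cell G x ∉ E → Int.fract x ∈ A → Int.fract x ∈ A') :
    (volume (A ∩ Set.Ico (0:ℝ) 1)).toReal ≤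
      (volume (A' ∩ Set.Ico (0:ℝ) 1)).toReal + (E.card : ℝ) / G := by
  classical
  have hG' : (0 : ℝ) < G := by exact_mod_cast hG
  have hfin : ∀ B : Set ℝ, volume (B ∩ Set.Ico (0:ℝ) 1) ≠ ⊤ := by
    intro B
    refine ne_top_of_le_ne_top ?_ (measure_mono Set.inter_subset_right)
    rw [Real.volume_Ico]
    exact ENNReal.ofReal_ne_top
  have hsub : A ∩ Set.Ico (0:ℝ) 1 ⊆
      (A' ∩ Set.Ico (0:ℝ) 1) ∪ ⋃ c ∈ E, Set.Ico ((c : ℝ) / G) (((c + 1 : ℕ) : ℝ) / G) := by
    rintro x ⟨hx, hx0⟩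
    have hf : Int.fract x = x := Int.fract_eq_self.2 ⟨hx0.1, hx0.2⟩
    by_cases hc : cell G x ∈ E
    · right
      rw [Set.mem_iUnion₂]
      refine ⟨cell G x, hc, ?_⟩
      have h1 := (cell_eq_iff hG x _).1 rfl
      rw [hf] at h1
      exact h1
    · left
      have h1 := h x hc (by rw [hf]; exact hx)
      rw [hf] at h1
      exact ⟨h1, hx0⟩
  have hcell : ∀ c : ℕ, volume (Set.Ico ((c : ℝ) / G) (((c + 1 : ℕ) : ℝ) / G)) =
      ENNReal.ofReal (1 / G) := by
    intro c
    rw [Real.volume_Ico]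
    congr 1
    push_cast
    rw [add_div]
    ring
  have h1 : volume (A ∩ Set.Ico (0:ℝ) 1) ≤
      volume (A' ∩ Set.Ico (0:ℝ) 1) + (E.card : ENNReal) * ENNReal.ofReal (1 / G) := by
    refine (measure_mono hsub).trans ((measure_union_le _ _).trans ?_)
    refine add_le_add le_rfl ?_
    refine (measure_biUnion_finset_le E _).trans ?_
    rw [Finset.sum_congr rfl fun c _ => hcell c, Finset.sum_const, nsmul_eq_mul]
  have h2 : (E.card : ENNReal) * ENNReal.ofReal (1 / G) ≠ ⊤ :=
    ENNReal.mul_ne_top (ENNReal.natCast_ne_top _) ENNReal.ofReal_ne_top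
  have h3 := ENNReal.toReal_mono (ENNReal.add_ne_top.2 ⟨hfin A', h2⟩) h1
  rw [ENNReal.toReal_add (hfin A') h2, ENNReal.toReal_mul, ENNReal.toReal_natCast,
    ENNReal.toReal_ofReal (by positivity)] at h3
  refine h3.trans (le_of_eq ?_)
  ring

theorem dl_grid {A A' : Set ℝ} (_hA : MeasurableSet A) (_hA' : MeasurableSet A') {G : ℕ} (hG : 0 < G)
    {E : Finset ℕ} (h : ∀ x : ℝ, cell G x ∉ E → (Int.fract x ∈ A ↔ Int.fract x ∈ A')) :
    dl A - (E.card : ℝ) / G ≤ dl A' := by
  have h1 := vol_grid hG (fun x hx => (h x hx).1)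
  have h2 := vol_grid hG (fun x hx => (h x hx).2)
  unfold dl
  refine le_min ?_ ?_
  · have := min_le_left (volume (A ∩ Set.Ico (0:ℝ) 1)).toReal
      (1 - (volume (A ∩ Set.Ico (0:ℝ) 1)).toReal)
    linarith
  · have := min_le_right (volume (A ∩ Set.Ico (0:ℝ) 1)).toReal
      (1 - (volume (A ∩ Set.Ico (0:ℝ) 1)).toReal)
    linarith

end Pool.Agent.Lib.P4a7640V
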