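import Pool.Agent.Lib.P4a7640V.MomCU
import Pool.Agent.Lib.P4a7640V.CmpS
import Pool.Agent.Lib.P4a7640K.FinK

/-!
# Real frequencies: the moment bound, uniform in the sets
-/

open Filter Topology MeasureTheory

namespace Pool.Agent.Lib.P4a7640V

open Pool.Agent.Lib.P4a7640 Pool.Agent.Lib.P4a7640M Pool.Agent.Lib.P4a7640Y Pool.Agent.Lib.P4a7640Z
open Pool.Agent.Lib.P4a7640K Pool.Agent.Lib.P4a7640K.FinKAux

/-- `moment_r`, uniform in the sets (from `moment_cu` and `cmp_ku`) -/
theorem moment_ru {k : ℕ} {K κ : ℝ} (hK : 0 < K) (hκ : 0 < κ) (hκ1 : κ ≤ 1) {a : ℕ → ℝ}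
    (ha0 : ∀ p, 0 ≤ a p) (ha : Cnt K κ a) {δ : ℕ → ℝ} (hδ0 : ∀ p, 0 ≤ δ p) (hδ1 : ∀ p, δ p ≤ 1)
    (hM : Tendsto (fun N : ℕ => mass δ N / Real.log (lam N) ^ 2) atTop atTop)
    {H : Finset ℕ} (hH : H.Nonempty) :
    ∃ c : ℝ, 0 < c ∧ ∃ B : ℝ, 0 < B ∧ ∀ᶠ N : ℕ in atTop, ∀ A : ℕ → Set ℝ, (∀ p, KInt k (A p)) →
      (∀ p, δ p ≤ dl (A p)) → ∀ w : ℕ → ℝ, (∀ n, |w n| ≤ 1) →
      ∀ u : ℝ, ∫ α in u..(u + 1), FF w H N (xr A a α) ^ 2 ≤
        B * Real.exp (-(4 * c * Real.sqrt (mass δ N))) := by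
  obtain ⟨c, hc, B, hB, h1⟩ := moment_cu hK hκ hκ1 (k := k) (ha.floor ha0) hδ0 hδ1 hM hH
  obtain ⟨C, hC, h2⟩ := cmp_ku k H
  have hlogN : Tendsto (fun N : ℕ => Real.log (N:ℝ)) atTop atTop :=
    Real.tendsto_log_atTop.comp tendsto_natCast_atTop_atTop
  have hlam : Tendsto (fun N : ℕ => lam N) atTop atTop := by
    unfold lam
    exact Real.tendsto_log_atTop.comp hlogN
  refine ⟨c / 4, by positivity, 2 * B + 4 * C, by positivity, ?_⟩
  filter_upwards [h1, h2, hM.eventually_ge_atTop ((1 / c) ^ 2), hlam.eventually_ge_atTop 2,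
    hlogN.eventually_ge_atTop 1, eventually_ge_atTop 2] with N g1 g2 g3 g4 g5 g6
  intro A hA hdA w hw u
  have hAm : ∀ p, MeasurableSet (A p) := fun p => measurableSet_kint (hA p)
  set R : ℝ := Real.sqrt (mass δ N) with hR
  have hR0 : 0 ≤ R := Real.sqrt_nonneg _
  -- `lam N ≤ exp (c R)`
  have hL2 : 0 < Real.log (lam N) := Real.log_pos (by linarith)
  have hlamR : lam N ≤ Real.exp (c * R) := by
    rw [le_div_iff₀ (by positivity), ← mul_pow] at g3
    have e1 : 1 / c * Real.log (lam N) ≤ R := Real.le_sqrt_of_sq_le g3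
    have e2 : Real.log (lam N) ≤ c * R := by
      calc Real.log (lam N) = c * (1 / c * Real.log (lam N)) := by field_simp
        _ ≤ c * R := mul_le_mul_of_nonneg_left e1 hc.le
    rwa [Real.log_le_iff_le_exp (by linarith)] at e2
  -- the number of arcs
  set L : ℕ := ⌈Real.exp (2 * c * R)⌉₊ with hL
  have hL0 : 0 < L := Nat.ceil_pos.2 (Real.exp_pos _)
  have hL0' : (0:ℝ) < L := by exact_mod_cast hL0
  have hLge : Real.exp (2 * c * R) ≤ L := Nat.le_ceil _
  have hLle : (L:ℝ) ≤ 2 * Real.exp (2 * c * R) := by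
    have e1 := (Nat.ceil_lt_add_one (Real.exp_pos (2 * c * R)).le).le
    have e2 : 1 ≤ Real.exp (2 * c * R) := Real.one_le_exp (by positivity)
    rw [← hL] at e1
    linarith
  have hb : ∀ x : SS, |FF w H N x| ≤ 2 := by
    intro x
    have e1 := FF_bound hw H (N := N) g6 x
    have e2 : 1 / Real.log N ≤ 1 := by
      rw [div_le_one (by linarith)]
      exact g5
    linarith
  have hglue := glue (F := fun α => FF w H N (xr A a α))
    (G := fun i α => FF w H N (xi A a (cut u L i) α))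
    ((measurable_FF w H N).comp (measurable_xr hAm a))
    (fun i => (measurable_FF w H N).comp (measurable_xc hAm _ _)) (fun α => hb _) (fun i α => hb _)
    (u := u) (L := L) hL0 (fun i => g1 A hA hdA w hw _ u) (g2 A hA a ha0 w hw u L hL0)
  refine hglue.trans ?_
  have e1 : (L:ℝ) * (B * Real.exp (-(4 * c * R))) ≤ 2 * B * Real.exp (-(c * R)) := by
    calc (L:ℝ) * (B * Real.exp (-(4 * c * R)))
        ≤ 2 * Real.exp (2 * c * R) * (B * Real.exp (-(4 * c * R))) :=
          mul_le_mul_of_nonneg_right hLle (by positivity)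
      _ = 2 * B * Real.exp (-(2 * c * R)) := by
          have : Real.exp (-(2 * c * R)) = Real.exp (2 * c * R) * Real.exp (-(4 * c * R)) := by
            rw [← Real.exp_add]
            congr 1
            ring
          rw [this]
          ring
      _ ≤ 2 * B * Real.exp (-(c * R)) := by
          refine mul_le_mul_of_nonneg_left (Real.exp_le_exp.2 ?_) (by positivity)
          have : 0 ≤ c * R := by positivity
          linarith
  have e2 : 4 * (C * lam N / L) ≤ 4 * C * Real.exp (-(c * R)) := by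
    have e3 : C * lam N / L ≤ C * Real.exp (c * R) / Real.exp (2 * c * R) := by gcongr
    have e4 : C * Real.exp (c * R) / Real.exp (2 * c * R) = C * Real.exp (-(c * R)) := by
      rw [mul_div_assoc, ← Real.exp_sub]
      congr 2
      ring
    rw [e4] at e3
    linarith
  have e5 : Real.exp (-(4 * (c / 4) * R)) = Real.exp (-(c * R)) := by
    congr 1
    ring
  rw [e5]
  calc (L:ℝ) * (B * Real.exp (-(4 * c * R))) + 4 * (C * lam N / L)
      ≤ 2 * B * Real.exp (-(c * R)) + 4 * C * Real.exp (-(c * R)) := add_le_add e1 e2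
    _ = (2 * B + 4 * C) * Real.exp (-(c * R)) := by ring

end Pool.Agent.Lib.P4a7640V
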