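import Mathlib
import Pool.Agent.Lib.P4a7640V.Par
import Pool.Agent.Lib.P4a7640V.MomRU
import Pool.Agent.Lib.P4a7640V.TcMom
import Pool.Agent.Lib.P4a7640K.Refl

/-!
# Negative frequencies, for one set
-/

open Filter Topology MeasureTheory

namespace Pool.Agent.Lib.P4a7640V

open Pool.Agent.Lib.P4a7640 Pool.Agent.Lib.P4a7640M Pool.Agent.Lib.P4a7640Y Pool.Agent.Lib.P4a7640Z
open Pool.Agent.Lib.P4a7640K

open Classical in
/-- the set, reflected at the primes with negative frequency -/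
noncomputable def AN (a : ℕ → ℝ) (A : Set ℝ) (p : ℕ) : Set ℝ := if a p < 0 then reflS A else A

lemma xr_AN (a : ℕ → ℝ) (A : Set ℝ) (α : ℝ) :
    xr (AN a A) (fun p => |a p|) α = xr (fun _ => A) a α := by
  classical
  funext p
  unfold xr AN
  beta_reduce
  by_cases h : a p < 0
  · rw [if_pos h, abs_of_neg h, mul_neg]
    have h1 := mem_reflS A (α * a p)
    by_cases h2 : Int.fract (α * a p) ∈ A
    · rw [if_pos h2, if_pos (h1.mpr h2)]
    · rw [if_neg h2, if_neg fun h3 => h2 (h1.mp h3)]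
  · rw [if_neg h, abs_of_nonneg (not_lt.mp h)]

lemma kint_AN {k : ℕ} (a : ℕ → ℝ) {A : Set ℝ} (hA : KInt k A) (p : ℕ) : KInt (k + 1) (AN a A p) := by
  unfold AN
  split_ifs
  · exact kint_refl hA
  · obtain ⟨s, hs1, hs2, hs3⟩ := hA
    exact ⟨s, by omega, hs2, hs3⟩

lemma dl_AN {k : ℕ} (a : ℕ → ℝ) {A : Set ℝ} (hA : KInt k A) (p : ℕ) : dl (AN a A p) = dl A := by
  unfold AN
  split_ifs
  · exact dl_refl hA.meas
  · rfl

/-- `moment_ru` for one set and frequencies of any sign -/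
theorem moment_neg {k : ℕ} {K κ : ℝ} (hK : 0 < K) (hκ : 0 < κ) (hκ1 : κ ≤ 1) {a : ℕ → ℝ}
    (ha : Cnt K κ (fun p => |a p|)) {δ : ℕ → ℝ} (hδ0 : ∀ p, 0 ≤ δ p) (hδ1 : ∀ p, δ p ≤ 1)
    (hM : Tendsto (fun N : ℕ => mass δ N / Real.log (lam N) ^ 2) atTop atTop)
    {H : Finset ℕ} (hH : H.Nonempty) :
    ∃ c : ℝ, 0 < c ∧ ∃ B : ℝ, 0 < B ∧ ∀ᶠ N : ℕ in atTop, ∀ A : Set ℝ, KInt k A →
      (∀ p, δ p ≤ dl A) → ∀ w : ℕ → ℝ, (∀ n, |w n| ≤ 1) →
      ∀ u : ℝ, ∫ α in u..(u + 1), FF w H N (xr (fun _ => A) a α) ^ 2 ≤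
        B * Real.exp (-(4 * c * Real.sqrt (mass δ N))) := by
  obtain ⟨c, hc, B, hB, hev⟩ := moment_ru (k := k + 1) hK hκ hκ1 (a := fun p => |a p|)
    (fun p => abs_nonneg _) ha hδ0 hδ1 hM hH
  refine ⟨c, hc, B, hB, ?_⟩
  filter_upwards [hev] with N hN A hA hdl w hw u
  have h1 := hN (AN a A) (kint_AN a hA) (fun p => by rw [dl_AN a hA]; exact hdl p) w hw u
  simp only [xr_AN] at h1
  exact h1

/-- the cell of a negative number -/
lemma cI_neg_le {G i : ℕ} (hi : i < G) {x : ℝ} (hx : ∀ m : ℤ, (G:ℝ) * x ≠ m) :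
    cI G i (-x) ≤ cI G (G - 1 - i) x := by
  unfold cI
  by_cases h : cell G (-x) = i
  · have hG : 0 < G := by omega
    have hG0 : (0:ℝ) < G := by exact_mod_cast hG
    have hfr0 : Int.fract x ≠ 0 := by
      intro h0
      apply hx (G * ⌊x⌋)
      have h1 := Int.floor_add_fract x
      rw [h0, add_zero] at h1
      push_cast
      rw [h1]
    have h1 : Int.fract (-x) = 1 - Int.fract x := by
      rw [Int.fract_neg hfr0]
    have hf0 := Int.fract_nonneg x
    have hf1 := Int.fract_lt_one x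
    have h2 : 0 ≤ (G:ℝ) * (1 - Int.fract x) := mul_nonneg hG0.le (by linarith)
    have hc := h
    unfold cell at hc
    rw [h1, Nat.floor_eq_iff h2] at hc
    obtain ⟨h3, h4⟩ := hc
    have h5 : cell G x = G - 1 - i := by
      unfold cell
      rw [Nat.floor_eq_iff (mul_nonneg hG0.le hf0)]
      have h6 : ((G - 1 - i : ℕ) : ℝ) = G - 1 - i := by
        rw [Nat.sub_sub, Nat.cast_sub (by omega)]
        push_cast
        ring
      rw [h6]
      constructor
      · linarith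
      · refine lt_of_le_of_ne (by linarith) ?_
        intro h7
        apply hx (G * ⌊x⌋ + (G - i))
        have h8 : (G:ℝ) * x = G * ⌊x⌋ + G * Int.fract x := by
          have := Int.floor_add_fract x
          rw [← mul_add, this]
        rw [h8, h7]
        push_cast
        ring
    rw [if_pos h, if_pos h5]
  · rw [if_neg h]
    split_ifs
    · exact zero_le_one
    · exact le_rfl

lemma cI_nonneg (G i : ℕ) (x : ℝ) : 0 ≤ cI G i x := by
  unfold cI
  split_ifs
  · exact zero_le_one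
  · exact le_rfl

/-- the points at which a frequency meets the grid are exceptional -/
lemma ae_grid (a : ℕ → ℝ) {G : ℕ} (hG : 0 < G) :
    ∀ᵐ α : ℝ, ∀ p : ℕ, a p ≠ 0 → ∀ m : ℤ, (G:ℝ) * (α * |a p|) ≠ m := by
  rw [ae_all_iff]
  intro p
  by_cases h : a p = 0
  · exact Eventually.of_forall fun α h' => absurd h h'
  · have h1 : ∀ m : ℤ, ∀ᵐ α : ℝ, (G:ℝ) * (α * |a p|) ≠ m := by
      intro m
      have hG0 : (G:ℝ) ≠ 0 := by exact_mod_cast hG.ne'
      have ha0 : |a p| ≠ 0 := abs_ne_zero.mpr h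
      have h2 : ∀ᵐ α : ℝ, α ≠ m / G / |a p| := by
        simp [ae_iff, measure_singleton]
      filter_upwards [h2] with α hα h3
      apply hα
      rw [← h3]
      field_simp
    filter_upwards [ae_all_iff.mpr h1] with α hα _
    exact hα

/-- one point: the sum over a cell for frequencies of any sign -/
lemma TC_neg_le (H : Finset ℕ) {N : ℕ} (hN : 1 ≤ N) (y : ℝ) {G i : ℕ} (hi : i < G) {a : ℕ → ℝ}
    {α : ℝ} (hα : ∀ p : ℕ, a p ≠ 0 → ∀ m : ℤ, (G:ℝ) * (α * |a p|) ≠ m) :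
    TC H N y G i (fun p => α * a p) ≤ TC H N y G i (fun p => α * |a p|) +
      TC H N y G (G - 1 - i) (fun p => α * |a p|) := by
  classical
  unfold TC
  have hlog : 0 ≤ Real.log N := Real.log_nonneg (by exact_mod_cast hN)
  rw [← add_div, ← Finset.sum_add_distrib]
  refine div_le_div_of_nonneg_right (Finset.sum_le_sum fun n _ => ?_) hlog
  rw [← mul_add, ← Finset.sum_add_distrib]
  refine mul_le_mul_of_nonneg_left (Finset.sum_le_sum fun p _ => ?_) (by positivity)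
  beta_reduce
  rcases le_or_gt 0 (a p) with h | h
  · rw [abs_of_nonneg h]
    linarith [cI_nonneg G (G - 1 - i) (α * a p)]
  · have h1 : α * a p = -(α * |a p|) := by
      rw [abs_of_neg h]
      ring
    have h2 := cI_neg_le hi (hα p h.ne)
    rw [← h1] at h2
    linarith [cI_nonneg G i (α * |a p|)]

lemma TC_sum_neg_le (H : Finset ℕ) {N : ℕ} (hN : 1 ≤ N) (y : ℝ) (G : ℕ) {a : ℕ → ℝ}
    {α : ℝ} (hα : ∀ p : ℕ, a p ≠ 0 → ∀ m : ℤ, (G:ℝ) * (α * |a p|) ≠ m) :
    ∑ i ∈ Finset.range G, TC H N y G i (fun p => α * a p) ^ 2 ≤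
      4 * ∑ i ∈ Finset.range G, TC H N y G i (fun p => α * |a p|) ^ 2 := by
  have h1 : ∑ i ∈ Finset.range G, TC H N y G i (fun p => α * a p) ^ 2 ≤
      ∑ i ∈ Finset.range G, (2 * TC H N y G i (fun p => α * |a p|) ^ 2 +
        2 * TC H N y G (G - 1 - i) (fun p => α * |a p|) ^ 2) := by
    refine Finset.sum_le_sum fun i hi => ?_
    have h2 := TC_neg_le H hN y (Finset.mem_range.mp hi) hα
    have h3 := TC_nonneg H N y G i (fun p => α * a p)
    have h4 := pow_le_pow_left₀ h3 h2 2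
    nlinarith [sq_nonneg (TC H N y G i (fun p => α * |a p|) -
      TC H N y G (G - 1 - i) (fun p => α * |a p|))]
  refine h1.trans (le_of_eq ?_)
  rw [Finset.sum_add_distrib, ← Finset.mul_sum, ← Finset.mul_sum,
    Finset.sum_range_reflect (fun i => TC H N y G i (fun p => α * |a p|) ^ 2) G]
  ring

/-- `tc_mom` for frequencies of any sign -/
theorem tc_neg {K κ : ℝ} (hK : 0 < K) (hκ : 0 < κ) (hκ1 : κ ≤ 1) {a : ℕ → ℝ}
    (ha : Cnt K κ (fun p => |a p|)) (H : Finset ℕ) : ∃ C : ℝ, 0 < C ∧ ∀ᶠ N : ℕ in atTop,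
    ∀ y : ℝ, 1 ≤ y → (∀ h ∈ H, 2 * (h:ℝ) ≤ y) → ∀ G L : ℕ, 0 < G → 0 < L → ∀ u : ℝ,
        ∫ α in u..(u + 1), ∑ i ∈ Finset.range G, TC H N y G i (fun p => α * a p) ^ 2 ≤
          C * lam N ^ 2 * (1 / G + G * L / y ^ (κ / 3) + G / L) := by
  obtain ⟨C, hC, hev⟩ := tc_mom hK hκ hκ1 (a := fun p => |a p|) (fun p => abs_nonneg _) ha H
  refine ⟨4 * C, by positivity, ?_⟩
  filter_upwards [hev, eventually_ge_atTop 1] with N hN hN1 y hy hHy G L hG hL u
  have h1 := hN y hy hHy G L hG hL u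
  obtain ⟨C', hC'⟩ := TC_le H N
  have hii : ∀ b : ℕ → ℝ, IntervalIntegrable (fun α : ℝ => ∑ i ∈ Finset.range G,
      TC H N y G i (fun p => α * b p) ^ 2) volume u (u + 1) := by
    intro b
    rw [intervalIntegrable_iff_integrableOn_Ioc_of_le (by linarith)]
    refine Integrable.of_bound (Finset.measurable_sum _ fun i _ =>
      (measurable_TC H N y G i b).pow_const 2).aestronglyMeasurable (∑ i ∈ Finset.range G, C' ^ 2)
        (Eventually.of_forall fun α => ?_)
    rw [Real.norm_eq_abs, abs_of_nonneg (Finset.sum_nonneg fun i _ => sq_nonneg _)]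
    refine Finset.sum_le_sum fun i _ => ?_
    exact pow_le_pow_left₀ (TC_nonneg _ _ _ _ _ _) (hC' _ _ _ _) 2
  calc ∫ α in u..(u + 1), ∑ i ∈ Finset.range G, TC H N y G i (fun p => α * a p) ^ 2
      ≤ ∫ α in u..(u + 1), 4 * ∑ i ∈ Finset.range G, TC H N y G i (fun p => α * |a p|) ^ 2 := by
        refine intervalIntegral.integral_mono_ae (by linarith) (hii a)
          ((hii fun p => |a p|).const_mul 4) ?_
        filter_upwards [ae_grid a hG] with α hα
        exact TC_sum_neg_le H hN1 y G hα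
    _ = 4 * ∫ α in u..(u + 1), ∑ i ∈ Finset.range G, TC H N y G i (fun p => α * |a p|) ^ 2 := by
        rw [intervalIntegral.integral_const_mul]
    _ ≤ 4 * (C * lam N ^ 2 * (1 / G + G * L / y ^ (κ / 3) + G / L)) := by
        linarith
    _ = _ := by ring

/-- the counting condition for the absolute values of a separated sequence -/
lemma cnt_sep_abs {a : ℕ → ℝ} (hsep : ∀ p q : ℕ, p.Prime → q.Prime → p ≠ q → 1 ≤ |a p - a q|) :
    Cnt 4 1 (fun p => |a p|) := by
  have h := (cnt_abs (K := 1) (κ := 1) (a := a) fun x N => cnt_of_sep hsep x N).2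
  rw [min_self, show (3:ℝ) * 1 + 1 = 4 by norm_num] at h
  exact h

end Pool.Agent.Lib.P4a7640V
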