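import Mathlib
import Pool.Agent.Lib.P4a7640V.Par
import Pool.Agent.Lib.P4a7640Z.AES
import Pool.Agent.Lib.P4a7640Y.WAE
import Pool.Agent.Lib.P4a7640K.SqfB
import Pool.Agent.Lib.P4a7640K.AEU

/-!
# Almost every real number, for a family of sign functions at once

The square root of the common majorant of the second moments takes the place of the correlations.
-/

open Filter Topology MeasureTheory

namespace Pool.Agent.Lib.P4a7640V

open Pool.Agent.Lib.P4a7640 Pool.Agent.Lib.P4a7640M Pool.Agent.Lib.P4a7640Y Pool.Agent.Lib.P4a7640Z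
open Pool.Agent.Lib.P4a7640K

/-- the moment hypothesis for a family -/
def MomFam {ι : Type*} (X : ι → ℝ → SS) (δ : ℕ → ℝ) : Prop :=
  ∀ H : Finset ℕ, H.Nonempty → ∃ c : ℝ, 0 < c ∧ ∃ B : ℝ, 0 < B ∧ ∀ᶠ N : ℕ in atTop,
    ∀ w : ℕ → ℝ, (∀ n, |w n| ≤ 1) → ∃ Q : ℝ → ℝ, Measurable Q ∧ (∀ α, 0 ≤ Q α ∧ Q α ≤ 4) ∧
      (∀ i α, FF w H N (X i α) ^ 2 ≤ Q α) ∧
      ∀ u : ℝ, ∫ α in u..(u + 1), Q α ≤ B * Real.exp (-(4 * c * Real.sqrt (mass δ N)))

namespace AllXAux

/-- what the majorant `Q` of a weight has to satisfy, with `R` the bound of the moment -/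
def IsMaj {ι : Type*} (X : ι → ℝ → SS) (H : Finset ℕ) (N : ℕ) (R : ℝ) (w : ℕ → ℝ) (Q : ℝ → ℝ) :
    Prop :=
  Measurable Q ∧ (∀ α, 0 ≤ Q α ∧ Q α ≤ 4) ∧ (∀ i α, FF w H N (X i α) ^ 2 ≤ Q α) ∧
    ∀ u : ℝ, ∫ α in u..(u + 1), Q α ≤ R

open Classical in
/-- the majorant, and zero if there is none -/
noncomputable def maj {ι : Type*} (X : ι → ℝ → SS) (H : Finset ℕ) (N : ℕ) (R : ℝ) (w : ℕ → ℝ) :
    ℝ → ℝ :=
  if h : ∃ Q : ℝ → ℝ, IsMaj X H N R w Q then h.choose else fun _ => 0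

lemma isMaj_maj {ι : Type*} {X : ι → ℝ → SS} {H : Finset ℕ} {N : ℕ} {R : ℝ} {w : ℕ → ℝ}
    (h : ∃ Q : ℝ → ℝ, IsMaj X H N R w Q) : IsMaj X H N R w (maj X H N R w) := by
  unfold maj
  rw [dif_pos h]
  exact h.choose_spec

lemma measurable_maj {ι : Type*} (X : ι → ℝ → SS) (H : Finset ℕ) (N : ℕ) (R : ℝ) (w : ℕ → ℝ) :
    Measurable (maj X H N R w) := by
  by_cases h : ∃ Q : ℝ → ℝ, IsMaj X H N R w Q
  · exact (isMaj_maj h).1
  · unfold maj
    rw [dif_neg h]
    exact measurable_const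

lemma maj_bd {ι : Type*} (X : ι → ℝ → SS) (H : Finset ℕ) (N : ℕ) (R : ℝ) (w : ℕ → ℝ) (α : ℝ) :
    0 ≤ maj X H N R w α ∧ maj X H N R w α ≤ 4 := by
  by_cases h : ∃ Q : ℝ → ℝ, IsMaj X H N R w Q
  · exact (isMaj_maj h).2.1 α
  · unfold maj
    rw [dif_neg h]
    norm_num

lemma abs_FF_le_maj {ι : Type*} {X : ι → ℝ → SS} {H : Finset ℕ} {N : ℕ} {R : ℝ} {w : ℕ → ℝ}
    (h : ∃ Q : ℝ → ℝ, IsMaj X H N R w Q) (i : ι) (α : ℝ) :
    |FF w H N (X i α)| ≤ Real.sqrt (maj X H N R w α) :=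
  Real.abs_le_sqrt ((isMaj_maj h).2.2.1 i α)

lemma sqrt_maj_le {ι : Type*} (X : ι → ℝ → SS) (H : Finset ℕ) (N : ℕ) (R : ℝ) (w : ℕ → ℝ) (α : ℝ) :
    Real.sqrt (maj X H N R w α) ≤ 2 := by
  rw [Real.sqrt_le_left (by norm_num)]
  have := (maj_bd X H N R w α).2
  linarith

lemma int_maj {ι : Type*} (X : ι → ℝ → SS) (H : Finset ℕ) (N : ℕ) (R : ℝ) (w : ℕ → ℝ) (u : ℝ) :
    IntervalIntegrable (maj X H N R w) volume u (u + 1) := by
  rw [intervalIntegrable_iff_integrableOn_Ioc_of_le (by linarith)]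
  refine Integrable.of_bound (measurable_maj X H N R w).aestronglyMeasurable 4
    (Eventually.of_forall fun α => ?_)
  rw [Real.norm_eq_abs, abs_of_nonneg (maj_bd X H N R w α).1]
  exact (maj_bd X H N R w α).2

lemma tendsto_mass {δ : ℕ → ℝ} (h0 : ∀ p, 0 ≤ δ p)
    (hP : Tendsto (fun N : ℕ => mass δ N / Real.log (lam N) ^ 2) atTop atTop) :
    Tendsto (fun N : ℕ => mass δ N) atTop atTop := by
  have hl : Tendsto (fun N : ℕ => lam N) atTop atTop :=
    Real.tendsto_log_atTop.comp (Real.tendsto_log_atTop.comp tendsto_natCast_atTop_atTop)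
  have hll : Tendsto (fun N : ℕ => Real.log (lam N)) atTop atTop := Real.tendsto_log_atTop.comp hl
  refine tendsto_atTop_mono' atTop ?_ hP
  filter_upwards [hll.eventually_ge_atTop 1] with N hN
  rw [div_le_iff₀ (by positivity)]
  have h1 : 1 ≤ Real.log (lam N) ^ 2 := one_le_pow₀ hN
  have h2 := Pool.Agent.Lib.P4a7640Z.AESAux.mass_nonneg h0 N
  nlinarith

lemma tendsto_rate {δ : ℕ → ℝ} (h0 : ∀ p, 0 ≤ δ p)
    (hP : Tendsto (fun N : ℕ => mass δ N / Real.log (lam N) ^ 2) atTop atTop) {c : ℝ} (hc : 0 < c) :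
    Tendsto (fun N : ℕ => Real.exp (-(c * Real.sqrt (mass δ N)))) atTop (𝓝 0) :=
  Real.tendsto_exp_neg_atTop_nhds_zero.comp
    ((Real.tendsto_sqrt_atTop.comp (tendsto_mass h0 hP)).const_mul_atTop hc)

/-- one weight -/
theorem ae_of_maj {ι : Type*} {X : ι → ℝ → SS} {δ : ℕ → ℝ} (h0 : ∀ p, 0 ≤ δ p)
    (h1 : ∀ p, δ p ≤ 1)
    (hP : Tendsto (fun N : ℕ => mass δ N / Real.log (lam N) ^ 2) atTop atTop) (hm : MomFam X δ)
    {w : ℕ → ℝ} (hw : ∀ n, |w n| ≤ 1) {H : Finset ℕ} (hH : H.Nonempty) :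
    ∀ᵐ α : ℝ, ∀ i, Tendsto (LA (fun n => w n * prodSeq (rnd (X i α)) H n)) atTop (𝓝 0) := by
  obtain ⟨c, hc, B, hB, hev⟩ := hm H hH
  set R : ℕ → ℝ := fun N => B * Real.exp (-(4 * c * Real.sqrt (mass δ N))) with hR
  obtain ⟨c', hc', hae⟩ := ae_u
    (U := fun α => {u : ℕ → ℝ | ∃ i : ι, u = fun n => w n * prodSeq (rnd (X i α)) H n})
    (Φ := fun N α => Real.sqrt (maj X H N (R N) w α))
    (fun N => (measurable_maj X H N (R N) w).sqrt)
    (fun N => ⟨2, fun α => by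
      rw [abs_of_nonneg (Real.sqrt_nonneg _)]
      exact sqrt_maj_le X H N (R N) w α⟩)
    h0 h1 hP hc hB zero_lt_one
    (by
      filter_upwards [hev] with N hN u
      have h2 : ∀ α, Real.sqrt (maj X H N (R N) w α) ^ 2 = maj X H N (R N) w α := fun α =>
        Real.sq_sqrt (maj_bd X H N (R N) w α).1
      simp only [h2]
      exact (isMaj_maj (hN w hw)).2.2.2 u)
    (by
      filter_upwards [hev] with N hN α u hu
      obtain ⟨i, rfl⟩ := hu
      rw [LA_weight_rnd, abs_of_nonneg (Real.sqrt_nonneg _)]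
      have h3 := abs_FF_le_maj (hN w hw) i α
      have h4 : 0 ≤ 1 * Real.exp (-(c * Real.sqrt (mass δ N))) := by positivity
      linarith)
    (by
      intro α u hu n
      obtain ⟨i, rfl⟩ := hu
      rw [abs_mul, abs_prodSeq, mul_one]
      exact hw n)
  filter_upwards [hae] with α hα i
  refine squeeze_zero_norm' ?_ (tendsto_rate h0 hP hc')
  filter_upwards [hα] with N hN
  rw [Real.norm_eq_abs]
  exact hN _ ⟨i, rfl⟩

end AllXAux

open AllXAux

/-- as `ae_vanishW`, for all `i` at once -/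
theorem vanish_all {ι : Type*} {X : ι → ℝ → SS} {δ : ℕ → ℝ} (h0 : ∀ p, 0 ≤ δ p) (h1 : ∀ p, δ p ≤ 1)
    (hP : Tendsto (fun N : ℕ => mass δ N / Real.log (lam N) ^ 2) atTop atTop) (hm : MomFam X δ)
    {w : ℕ → ℝ} (hw : ∀ n, |w n| ≤ 1) (g : ℕ → ℤˣ) :
    ∀ᵐ α : ℝ, ∀ i, VanishW w (fun n => g n * rnd (X i α) n) := by
  have hall : ∀ᵐ α : ℝ, ∀ H : Finset ℕ, H.Nonempty → ∀ K R b : ℕ, ∀ i,
      Tendsto (LA (fun n => w (n + K) * (if n % R = b then 1 else 0) *
        prodSeq (fun n => g n * rnd (X i α) n) H n)) atTop (𝓝 0) := by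
    rw [ae_all_iff]
    intro H
    by_cases hne : H.Nonempty
    · simp only [hne, true_imp_iff]
      rw [ae_all_iff]
      intro K
      rw [ae_all_iff]
      intro R
      rw [ae_all_iff]
      intro b
      set w' : ℕ → ℝ := fun n => w (n + K) * (if n % R = b then 1 else 0) * prodSeq g H n with hw'
      have hb : ∀ n, |w' n| ≤ 1 := by
        intro n
        rw [hw']
        show |w (n + K) * (if n % R = b then 1 else 0) * prodSeq g H n| ≤ 1
        rw [abs_mul, abs_prodSeq, mul_one, abs_mul]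
        split_ifs
        · rw [abs_one, mul_one]; exact hw _
        · rw [abs_zero, mul_zero]; exact zero_le_one
      filter_upwards [ae_of_maj h0 h1 hP hm hb hne] with α hα i
      refine (hα i).congr fun N => ?_
      congr 1
      funext n
      rw [hw']
      show w (n + K) * (if n % R = b then 1 else 0) * prodSeq g H n * prodSeq (rnd (X i α)) H n = _
      rw [mul_assoc, ← prodSeq_mul_fun]
    · exact Eventually.of_forall fun α h => absurd h hne
  filter_upwards [hall] with α hα i H hH K R b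
  exact hα H hH K R b i

namespace AllXAux

/-- the number of the squareful parts that are taken into account -/
noncomputable def DN (η : ℝ) (δ : ℕ → ℝ) (N : ℕ) : ℕ := ⌈Real.exp (η * Real.sqrt (mass δ N))⌉₊

lemma DN_pos (η : ℝ) (δ : ℕ → ℝ) (N : ℕ) : 0 < DN η δ N := Nat.ceil_pos.2 (Real.exp_pos _)

lemma le_DN (η : ℝ) (δ : ℕ → ℝ) (N : ℕ) : Real.exp (η * Real.sqrt (mass δ N)) ≤ DN η δ N :=
  Nat.le_ceil _

lemma DN_le {η : ℝ} (hη : 0 ≤ η) (δ : ℕ → ℝ) (N : ℕ) :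
    (DN η δ N : ℝ) ≤ 2 * Real.exp (η * Real.sqrt (mass δ N)) := by
  have h1 : (DN η δ N : ℝ) < Real.exp (η * Real.sqrt (mass δ N)) + 1 :=
    Nat.ceil_lt_add_one (Real.exp_pos _).le
  have h2 : 1 ≤ Real.exp (η * Real.sqrt (mass δ N)) :=
    Real.one_le_exp (mul_nonneg hη (Real.sqrt_nonneg _))
  linarith

/-- the tuples -/
def TT (H : Finset ℕ) (D : ℕ) : Finset (H → ℕ) := Fintype.piFinset (fun _ : H => Finset.Icc 1 (D ^ 3))

lemma card_TT (H : Finset ℕ) (D : ℕ) : (TT H D).card = D ^ (3 * H.card) := by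
  unfold TT
  rw [Fintype.card_piFinset, Finset.prod_const, Nat.card_Icc, Finset.card_univ, Fintype.card_coe,
    Nat.add_sub_cancel, ← pow_mul]

/-- the majorant of the sum over the tuples -/
noncomputable def Phi {ι : Type*} (w : ℕ → ℝ) (g : ℕ → ℤˣ) (H : Finset ℕ) (X : ι → ℝ → SS)
    (D : ℕ → ℕ) (R : ℕ → ℝ) (N : ℕ) (α : ℝ) : ℝ :=
  ∑ t ∈ TT H (D N), Real.sqrt (maj X H N (R N) (wt w g H t) α)

lemma measurable_Phi {ι : Type*} (w : ℕ → ℝ) (g : ℕ → ℤˣ) (H : Finset ℕ) (X : ι → ℝ → SS)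
    (D : ℕ → ℕ) (R : ℕ → ℝ) (N : ℕ) : Measurable (Phi w g H X D R N) := by
  unfold Phi
  exact Finset.measurable_sum _ fun t _ => (measurable_maj X H N (R N) (wt w g H t)).sqrt

lemma Phi_nonneg {ι : Type*} (w : ℕ → ℝ) (g : ℕ → ℤˣ) (H : Finset ℕ) (X : ι → ℝ → SS)
    (D : ℕ → ℕ) (R : ℕ → ℝ) (N : ℕ) (α : ℝ) : 0 ≤ Phi w g H X D R N α :=
  Finset.sum_nonneg fun _ _ => Real.sqrt_nonneg _

lemma Phi_le {ι : Type*} (w : ℕ → ℝ) (g : ℕ → ℤˣ) (H : Finset ℕ) (X : ι → ℝ → SS)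
    (D : ℕ → ℕ) (R : ℕ → ℝ) (N : ℕ) (α : ℝ) : Phi w g H X D R N α ≤ ∑ _t ∈ TT H (D N), (2:ℝ) :=
  Finset.sum_le_sum fun t _ => sqrt_maj_le X H N (R N) (wt w g H t) α

lemma Phi_sq_le {ι : Type*} {w : ℕ → ℝ} (hw : ∀ n, |w n| ≤ 1) (g : ℕ → ℤˣ) (H : Finset ℕ)
    (X : ι → ℝ → SS) (D : ℕ → ℕ) (R : ℕ → ℝ) {N : ℕ}
    (hN : ∀ w : ℕ → ℝ, (∀ n, |w n| ≤ 1) → ∃ Q : ℝ → ℝ, IsMaj X H N (R N) w Q) (u : ℝ) :
    ∫ α in u..(u + 1), Phi w g H X D R N α ^ 2 ≤ ((D N : ℝ) ^ (3 * H.card)) ^ 2 * R N := by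
  have h1 : ∀ α, Phi w g H X D R N α ^ 2 ≤
      ((D N : ℝ) ^ (3 * H.card)) * ∑ t ∈ TT H (D N), maj X H N (R N) (wt w g H t) α := by
    intro α
    have h2 := sq_sum_le_card_mul_sum_sq (s := TT H (D N))
      (f := fun t => Real.sqrt (maj X H N (R N) (wt w g H t) α))
    rw [Finset.sum_congr rfl fun t _ => Real.sq_sqrt (maj_bd X H N (R N) (wt w g H t) α).1] at h2
    rw [card_TT] at h2
    push_cast at h2
    exact h2
  have hi : ∀ t : H → ℕ, IntervalIntegrable (fun α => maj X H N (R N) (wt w g H t) α) volume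
      u (u + 1) := fun t => int_maj X H N (R N) (wt w g H t) u
  have hs : IntervalIntegrable (fun α => ∑ t ∈ TT H (D N), maj X H N (R N) (wt w g H t) α) volume
      u (u + 1) := by
    rw [intervalIntegrable_iff_integrableOn_Ioc_of_le (by linarith)]
    exact integrable_finsetSum _ fun t _ =>
      (intervalIntegrable_iff_integrableOn_Ioc_of_le (by linarith)).1 (hi t)
  have hPi : IntervalIntegrable (fun α => Phi w g H X D R N α ^ 2) volume u (u + 1) := by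
    refine (hs.const_mul ((D N : ℝ) ^ (3 * H.card))).mono_fun
      ((measurable_Phi w g H X D R N).pow_const 2).aestronglyMeasurable
      (Eventually.of_forall fun α => ?_)
    show ‖Phi w g H X D R N α ^ 2‖ ≤ ‖((D N : ℝ) ^ (3 * H.card)) *
      ∑ t ∈ TT H (D N), maj X H N (R N) (wt w g H t) α‖
    rw [Real.norm_eq_abs, Real.norm_eq_abs, abs_of_nonneg (sq_nonneg _)]
    exact (h1 α).trans (le_abs_self _)
  calc ∫ α in u..(u + 1), Phi w g H X D R N α ^ 2
      ≤ ∫ α in u..(u + 1), ((D N : ℝ) ^ (3 * H.card)) *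
          ∑ t ∈ TT H (D N), maj X H N (R N) (wt w g H t) α :=
        intervalIntegral.integral_mono (by linarith) hPi (hs.const_mul _) h1
    _ = ((D N : ℝ) ^ (3 * H.card)) *
          ∑ t ∈ TT H (D N), ∫ α in u..(u + 1), maj X H N (R N) (wt w g H t) α := by
        rw [intervalIntegral.integral_const_mul, intervalIntegral.integral_finsetSum
          fun t _ => hi t]
    _ ≤ ((D N : ℝ) ^ (3 * H.card)) * ∑ _t ∈ TT H (D N), R N := by
        refine mul_le_mul_of_nonneg_left (Finset.sum_le_sum fun t _ => ?_) (by positivity)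
        exact (isMaj_maj (hN _ (abs_wt_le hw g H t))).2.2.2 u
    _ = ((D N : ℝ) ^ (3 * H.card)) ^ 2 * R N := by
        rw [Finset.sum_const, card_TT, nsmul_eq_mul]
        push_cast
        ring

end AllXAux

/-- as `rate_u`, for all `i` at once -/
theorem rate_all {ι : Type*} {X : ι → ℝ → SS} {δ : ℕ → ℝ} (h0 : ∀ p, 0 ≤ δ p) (h1 : ∀ p, δ p ≤ 1)
    (hP : Tendsto (fun N : ℕ => mass δ N / Real.log (lam N) ^ 2) atTop atTop) (hm : MomFam X δ)
    {g : ℕ → ℤˣ} (hg : MultS g) {w : ℕ → ℝ} (hw : ∀ n, |w n| ≤ 1) {H : Finset ℕ}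
    (hH : H.Nonempty) :
    ∃ c : ℝ, 0 < c ∧ ∀ᵐ α : ℝ, ∀ᶠ N : ℕ in atTop, ∀ i, ∀ f : ℕ → ℤˣ, MultS f →
      (∀ p : ℕ, p.Prime → f p = g p * X i α p) →
      |LA (fun n => w n * prodSeq f H n) N| ≤ Real.exp (-(c * Real.sqrt (mass δ N))) := by
  classical
  obtain ⟨c, hc, B, hB, hev⟩ := hm H hH
  obtain ⟨C, hC, htail⟩ := sqf_tail H
  have hk : 1 ≤ H.card := hH.card_pos
  have hk1 : (1:ℝ) ≤ H.card := by exact_mod_cast hk
  have hk0 : (0:ℝ) < H.card := by linarith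
  set R : ℕ → ℝ := fun N => B * Real.exp (-(4 * c * Real.sqrt (mass δ N))) with hR
  set η : ℝ := c / (3 * H.card) with hη
  have hη0 : 0 < η := by positivity
  have hηk : 6 * H.card * η = 2 * c := by
    rw [hη]
    field_simp
    ring
  have hηc : 2 * η ≤ c := by
    nlinarith
  have hmom : ∀ᶠ N : ℕ in atTop, ∀ u : ℝ, ∫ α in u..(u + 1), Phi w g H X (DN η δ) R N α ^ 2 ≤
      (4 ^ (3 * H.card) * B) * Real.exp (-(4 * η * Real.sqrt (mass δ N))) := by
    filter_upwards [hev] with N hN u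
    refine (Phi_sq_le hw g H X (DN η δ) R hN u).trans ?_
    have h2 : 0 ≤ Real.sqrt (mass δ N) := Real.sqrt_nonneg _
    have h3 : ((DN η δ N : ℝ) ^ (3 * H.card)) ^ 2 ≤
        4 ^ (3 * H.card) * Real.exp (2 * c * Real.sqrt (mass δ N)) := by
      calc ((DN η δ N : ℝ) ^ (3 * H.card)) ^ 2
          ≤ ((2 * Real.exp (η * Real.sqrt (mass δ N))) ^ (3 * H.card)) ^ 2 := by
            have := DN_le hη0.le δ N
            gcongr
        _ = 4 ^ (3 * H.card) * Real.exp (η * Real.sqrt (mass δ N)) ^ (6 * H.card) := by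
            rw [← pow_mul, mul_pow]
            congr 1
            · rw [show (3 * H.card * 2) = 2 * (3 * H.card) by ring, pow_mul]
              norm_num
            · congr 1
              ring
        _ = 4 ^ (3 * H.card) * Real.exp (2 * c * Real.sqrt (mass δ N)) := by
            rw [← Real.exp_nat_mul]
            congr 2
            push_cast
            rw [← hηk]
            ring
    calc ((DN η δ N : ℝ) ^ (3 * H.card)) ^ 2 * R N
        ≤ (4 ^ (3 * H.card) * Real.exp (2 * c * Real.sqrt (mass δ N))) * R N :=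
          mul_le_mul_of_nonneg_right h3 (by rw [hR]; positivity)
      _ = (4 ^ (3 * H.card) * B) * Real.exp (-(2 * c * Real.sqrt (mass δ N))) := by
          have : Real.exp (2 * c * Real.sqrt (mass δ N)) *
              Real.exp (-(4 * c * Real.sqrt (mass δ N))) =
              Real.exp (-(2 * c * Real.sqrt (mass δ N))) := by
            rw [← Real.exp_add]
            congr 1
            ring
          rw [← this, hR]
          ring
      _ ≤ (4 ^ (3 * H.card) * B) * Real.exp (-(4 * η * Real.sqrt (mass δ N))) := by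
          refine mul_le_mul_of_nonneg_left (Real.exp_le_exp.2 (neg_le_neg ?_)) (by positivity)
          exact mul_le_mul_of_nonneg_right (by linarith) h2
  obtain ⟨c', hc', hae⟩ := ae_u
    (U := fun α => {u : ℕ → ℝ | ∃ i : ι, ∃ f : ℕ → ℤˣ, MultS f ∧
      (∀ p : ℕ, p.Prime → f p = g p * X i α p) ∧ u = fun n => w n * prodSeq f H n})
    (Φ := Phi w g H X (DN η δ) R) (measurable_Phi w g H X (DN η δ) R)
    (fun N => ⟨∑ _t ∈ TT H (DN η δ N), (2:ℝ), fun α => by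
      rw [abs_of_nonneg (Phi_nonneg w g H X (DN η δ) R N α)]
      exact Phi_le w g H X (DN η δ) R N α⟩)
    h0 h1 hP hη0 (B := 4 ^ (3 * H.card) * B) (by positivity) hC hmom
    (by
      filter_upwards [hev, htail, eventually_ge_atTop 2] with N hQ hN hN2 α u hu
      obtain ⟨i, f, hf, hfp, rfl⟩ := hu
      refine (LA_le_tuples hw hf hg hfp H (DN η δ N) hN2).trans ?_
      refine add_le_add ?_ ((hN (DN η δ N) (DN_pos η δ N)).trans ?_)
      · rw [abs_of_nonneg (Phi_nonneg w g H X (DN η δ) R N α)]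
        exact Finset.sum_le_sum fun t _ => abs_FF_le_maj (hQ _ (abs_wt_le hw g H t)) i α
      · rw [Real.exp_neg, ← div_eq_mul_inv]
        exact div_le_div_of_nonneg_left hC.le (Real.exp_pos _) (le_DN η δ N))
    (by
      intro α u hu n
      obtain ⟨i, f, hf, hfp, rfl⟩ := hu
      rw [abs_mul, abs_prodSeq, mul_one]
      exact hw n)
  refine ⟨c', hc', ?_⟩
  filter_upwards [hae] with α hα
  filter_upwards [hα] with N hN i f hf hfp
  exact hN _ ⟨i, f, hf, hfp, rfl⟩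

end Pool.Agent.Lib.P4a7640V
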