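import Mathlib
import Pool.Agent.Lib.P4a7640V.Par
import Pool.Agent.Lib.P4a7640K.CmpK

/-!
# Two points in one cell
-/

open Filter Topology MeasureTheory

namespace Pool.Agent.Lib.P4a7640V

open Pool.Agent.Lib.P4a7640 Pool.Agent.Lib.P4a7640M Pool.Agent.Lib.P4a7640Y Pool.Agent.Lib.P4a7640Z
open Pool.Agent.Lib.P4a7640K

namespace SepAux

lemma measurable_cell (G : ℕ) : Measurable (cell G) :=
  Nat.measurable_floor.comp (measurable_fract.const_mul _)

lemma measurableSet_eq (G : ℕ) (x y : ℝ) : MeasurableSet {α : ℝ | cell G (α * x) = cell G (α * y)} :=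
  measurableSet_eq_fun ((measurable_cell G).comp (measurable_id.mul_const _))
    ((measurable_cell G).comp (measurable_id.mul_const _))

/-- equal cells: the difference is close to an integer -/
lemma floor_jump {G : ℕ} (hG : 0 < G) {x y : ℝ} (h : cell G x = cell G y) :
    (1:ℝ) ≤ (⌊x - y + 1 / G⌋ : ℝ) - ⌊x - y - 1 / G⌋ := by
  have hG0 : (0:ℝ) < G := by exact_mod_cast hG
  have hx0 : 0 ≤ (G:ℝ) * Int.fract x := mul_nonneg hG0.le (Int.fract_nonneg x)
  have hy0 : 0 ≤ (G:ℝ) * Int.fract y := mul_nonneg hG0.le (Int.fract_nonneg y)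
  have hx1 : (cell G x : ℝ) ≤ (G:ℝ) * Int.fract x := Nat.floor_le hx0
  have hx2 : (G:ℝ) * Int.fract x < cell G x + 1 := Nat.lt_floor_add_one _
  have hy1 : (cell G y : ℝ) ≤ (G:ℝ) * Int.fract y := Nat.floor_le hy0
  have hy2 : (G:ℝ) * Int.fract y < cell G y + 1 := Nat.lt_floor_add_one _
  rw [h] at hx1 hx2
  have h1 : Int.fract x - Int.fract y < 1 / G := by
    rw [lt_div_iff₀ hG0]
    nlinarith
  have h2 : -(1 / (G:ℝ)) < Int.fract x - Int.fract y := by
    have h3 : Int.fract y - Int.fract x < 1 / G := by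
      rw [lt_div_iff₀ hG0]
      nlinarith
    linarith
  have e1 : x - y = ((⌊x⌋ - ⌊y⌋ : ℤ) : ℝ) + (Int.fract x - Int.fract y) := by
    push_cast
    unfold Int.fract
    ring
  have h4 : (⌊x⌋ - ⌊y⌋ : ℤ) ≤ ⌊x - y + 1 / G⌋ := by
    rw [Int.le_floor]
    linarith
  have h5 : ⌊x - y - 1 / G⌋ ≤ (⌊x⌋ - ⌊y⌋ : ℤ) - 1 := by
    have h6 : ⌊x - y - 1 / G⌋ < (⌊x⌋ - ⌊y⌋ : ℤ) := by
      rw [Int.floor_lt]
      linarith
    omega
  have h7 : (1:ℤ) ≤ ⌊x - y + 1 / G⌋ - ⌊x - y - 1 / G⌋ := by omega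
  exact_mod_cast h7

/-- one pair, positive difference -/
lemma pair_pos {G : ℕ} (hG : 0 < G) {x y : ℝ} (hd : 1 ≤ x - y) (u : ℝ) :
    ∫ α in u..(u + 1), {α : ℝ | cell G (α * x) = cell G (α * y)}.indicator (fun _ => (1:ℝ)) α ≤
      8 / G := by
  have hG0 : (0:ℝ) < G := by exact_mod_cast hG
  have hG1 : 1 / (G:ℝ) ≤ 1 := by
    rw [div_le_one hG0]
    exact_mod_cast hG
  set d := x - y with hddef
  have hd0 : 0 < d := by linarith
  have hu : u ≤ u + 1 := by linarith
  set F : ℝ → ℝ := fun α => (⌊α * d + 1 / G⌋ : ℝ) with hF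
  have hFm : Monotone F := by
    intro s t hst
    have h1 : s * d + 1 / G ≤ t * d + 1 / G := by nlinarith
    show ((⌊s * d + 1 / G⌋ : ℤ) : ℝ) ≤ ((⌊t * d + 1 / G⌋ : ℤ) : ℝ)
    exact_mod_cast Int.floor_mono h1
  set δ : ℝ := 2 / (G * d) with hδ
  have hδ0 : 0 ≤ δ := by positivity
  have hshift : ∀ α, F (α - δ) = (⌊α * d - 1 / G⌋ : ℝ) := by
    intro α
    show ((⌊(α - δ) * d + 1 / G⌋ : ℤ) : ℝ) = _
    have e1 : (α - δ) * d + 1 / G = α * d - 1 / G := by
      rw [hδ]
      field_simp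
      ring
    rw [e1]
  have hsh := shift_mono hFm hδ0 u
  have hFi : IntervalIntegrable F volume u (u + 1) := hFm.intervalIntegrable
  have hFi2 : IntervalIntegrable (fun α => F (α - δ)) volume u (u + 1) :=
    Monotone.intervalIntegrable fun s t hst => hFm (by linarith)
  have hind : IntervalIntegrable ({α : ℝ | cell G (α * x) = cell G (α * y)}.indicator
      (fun _ => (1:ℝ))) volume u (u + 1) := by
    rw [intervalIntegrable_iff_integrableOn_Ioc_of_le hu]
    exact (integrable_const (1:ℝ)).indicator (measurableSet_eq G x y)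
  have h1 : ∫ α in u..(u + 1), {α : ℝ | cell G (α * x) = cell G (α * y)}.indicator
      (fun _ => (1:ℝ)) α ≤ ∫ α in u..(u + 1), (F α - F (α - δ)) := by
    refine intervalIntegral.integral_mono_on hu hind (hFi.sub hFi2) fun α _ => ?_
    by_cases hα : α ∈ {α : ℝ | cell G (α * x) = cell G (α * y)}
    · rw [Set.indicator_of_mem hα, hshift]
      have h2 := floor_jump hG hα
      have e2 : α * x - α * y = α * d := by
        rw [hddef]
        ring
      rw [e2] at h2
      exact h2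
    · rw [Set.indicator_of_notMem hα]
      have h3 := hFm (show α - δ ≤ α by linarith)
      linarith
  refine h1.trans (hsh.trans ?_)
  have h2 : F (u + 1) ≤ (u + 1) * d + 1 / G := Int.floor_le _
  have h3 : (u * d - 1 / G) - 1 ≤ F (u - δ) := by
    rw [hshift]
    exact (Int.sub_one_lt_floor _).le
  have h4 : F (u + 1) - F (u - δ) ≤ 4 * d := by
    have h5 : (u + 1) * d + 1 / G - ((u * d - 1 / G) - 1) = d + 2 * (1 / G) + 1 := by ring
    linarith
  calc δ * (F (u + 1) - F (u - δ)) ≤ δ * (4 * d) := mul_le_mul_of_nonneg_left h4 hδ0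
    _ = 8 / G := by
        rw [hδ]
        field_simp
        ring

/-- one pair -/
lemma pair {G : ℕ} (hG : 0 < G) {x y : ℝ} (hd : 1 ≤ |x - y|) (u : ℝ) :
    ∫ α in u..(u + 1), {α : ℝ | cell G (α * x) = cell G (α * y)}.indicator (fun _ => (1:ℝ)) α ≤
      8 / G := by
  rcases le_total 0 (x - y) with h | h
  · rw [abs_of_nonneg h] at hd
    exact pair_pos hG hd u
  · rw [abs_of_nonpos h] at hd
    have h1 := pair_pos hG (x := y) (y := x) (by linarith) u
    have e1 : {α : ℝ | cell G (α * x) = cell G (α * y)} = {α : ℝ | cell G (α * y) = cell G (α * x)} := by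
      ext α
      exact eq_comm
    rw [e1]
    exact h1

end SepAux

open SepAux

lemma measurableSet_BadE (a : ℕ → ℝ) (G Y : ℕ) : MeasurableSet (BadE a G Y) := by
  have h1 : BadE a G Y = ⋃ p : ℕ, ⋃ q : ℕ, ⋃ _ : (p.Prime ∧ q.Prime ∧ p ≤ Y ∧ q ≤ Y ∧ p ≠ q),
      {α : ℝ | cell G (α * a p) = cell G (α * a q)} := by
    ext α
    unfold BadE
    simp only [Set.mem_setOf_eq, Set.mem_iUnion, exists_prop]
    constructor
    · rintro ⟨p, q, h1, h2, h3, h4, h5, h6⟩
      exact ⟨p, q, ⟨h1, h2, h3, h4, h5⟩, h6⟩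
    · rintro ⟨p, q, ⟨h1, h2, h3, h4, h5⟩, h6⟩
      exact ⟨p, q, h1, h2, h3, h4, h5, h6⟩
  rw [h1]
  exact MeasurableSet.iUnion fun p => MeasurableSet.iUnion fun q => MeasurableSet.iUnion fun _ =>
    measurableSet_eq G (a p) (a q)

theorem sep_meas {a : ℕ → ℝ}
    (hsep : ∀ p q : ℕ, p.Prime → q.Prime → p ≠ q → 1 ≤ |a p - a q|) {G : ℕ} (hG : 0 < G) (Y : ℕ)
    (u : ℝ) : ∫ α in u..(u + 1), (BadE a G Y).indicator (fun _ => (1:ℝ)) α ≤ 16 * (Y:ℝ) ^ 2 / G := by
  classical
  have hG0 : (0:ℝ) < G := by exact_mod_cast hG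
  have hu : u ≤ u + 1 := by linarith
  set P : Finset (ℕ × ℕ) := ((Finset.Icc 1 Y) ×ˢ (Finset.Icc 1 Y)).filter
    (fun z => z.1.Prime ∧ z.2.Prime ∧ z.1 ≠ z.2) with hP
  have hi : ∀ z : ℕ × ℕ, IntervalIntegrable ({α : ℝ | cell G (α * a z.1) =
      cell G (α * a z.2)}.indicator (fun _ => (1:ℝ))) volume u (u + 1) := by
    intro z
    rw [intervalIntegrable_iff_integrableOn_Ioc_of_le hu]
    exact (integrable_const (1:ℝ)).indicator (measurableSet_eq G _ _)
  have hbi : IntervalIntegrable ((BadE a G Y).indicator (fun _ => (1:ℝ))) volume u (u + 1) := by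
    rw [intervalIntegrable_iff_integrableOn_Ioc_of_le hu]
    exact (integrable_const (1:ℝ)).indicator (measurableSet_BadE a G Y)
  have hsum : IntervalIntegrable (fun α => ∑ z ∈ P, {α : ℝ | cell G (α * a z.1) =
      cell G (α * a z.2)}.indicator (fun _ => (1:ℝ)) α) volume u (u + 1) := by
    have e : (fun α => ∑ z ∈ P, {α : ℝ | cell G (α * a z.1) =
        cell G (α * a z.2)}.indicator (fun _ => (1:ℝ)) α) = ∑ z ∈ P, {α : ℝ | cell G (α * a z.1) =
        cell G (α * a z.2)}.indicator (fun _ => (1:ℝ)) := by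
      funext α
      rw [Finset.sum_apply]
    rw [e]
    exact IntervalIntegrable.sum _ fun z _ => hi z
  calc ∫ α in u..(u + 1), (BadE a G Y).indicator (fun _ => (1:ℝ)) α
      ≤ ∫ α in u..(u + 1), ∑ z ∈ P, {α : ℝ | cell G (α * a z.1) =
          cell G (α * a z.2)}.indicator (fun _ => (1:ℝ)) α := by
        refine intervalIntegral.integral_mono_on hu hbi hsum fun α _ => ?_
        have hnn : ∀ z ∈ P, 0 ≤ {α : ℝ | cell G (α * a z.1) =
            cell G (α * a z.2)}.indicator (fun _ => (1:ℝ)) α := fun z _ =>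
          Set.indicator_nonneg (fun _ _ => zero_le_one) α
        by_cases hα : α ∈ BadE a G Y
        · rw [Set.indicator_of_mem hα]
          obtain ⟨p, q, h1, h2, h3, h4, h5, h6⟩ := hα
          have hz : (p, q) ∈ P := by
            rw [hP, Finset.mem_filter, Finset.mem_product, Finset.mem_Icc, Finset.mem_Icc]
            exact ⟨⟨⟨h1.one_lt.le, h3⟩, ⟨h2.one_lt.le, h4⟩⟩, h1, h2, h5⟩
          have h7 := Finset.single_le_sum hnn hz
          refine le_trans (le_of_eq ?_) h7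
          have h8 : α ∈ {α : ℝ | cell G (α * a p) = cell G (α * a q)} := h6
          exact (Set.indicator_of_mem h8 (fun _ => (1:ℝ))).symm
        · rw [Set.indicator_of_notMem hα]
          exact Finset.sum_nonneg hnn
    _ = ∑ z ∈ P, ∫ α in u..(u + 1), {α : ℝ | cell G (α * a z.1) =
          cell G (α * a z.2)}.indicator (fun _ => (1:ℝ)) α :=
        intervalIntegral.integral_finset_sum fun z _ => hi z
    _ ≤ ∑ _z ∈ P, 8 / (G:ℝ) := by
        refine Finset.sum_le_sum fun z hz => ?_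
        rw [hP, Finset.mem_filter] at hz
        exact pair hG (hsep _ _ hz.2.1 hz.2.2.1 hz.2.2.2) u
    _ = P.card * (8 / (G:ℝ)) := by rw [Finset.sum_const, nsmul_eq_mul]
    _ ≤ (Y:ℝ) ^ 2 * (8 / (G:ℝ)) := by
        refine mul_le_mul_of_nonneg_right ?_ (by positivity)
        have h1 : P.card ≤ Y ^ 2 := by
          refine (Finset.card_filter_le _ _).trans ?_
          rw [Finset.card_product, Nat.card_Icc, Nat.add_sub_cancel, pow_two]
        exact_mod_cast h1
    _ ≤ 16 * (Y:ℝ) ^ 2 / G := by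
        have h1 : (0:ℝ) ≤ (Y:ℝ) ^ 2 / G := by positivity
        have h2 : (Y:ℝ) ^ 2 * (8 / (G:ℝ)) = 8 * ((Y:ℝ) ^ 2 / G) := by ring
        have h3 : 16 * (Y:ℝ) ^ 2 / G = 16 * ((Y:ℝ) ^ 2 / G) := by ring
        rw [h2, h3]
        linarith

lemma cnt_sep {a : ℕ → ℝ} (hsep : ∀ p q : ℕ, p.Prime → q.Prime → p ≠ q → 1 ≤ |a p - a q|) :
    Cnt 1 1 a := by
  classical
  intro x y _ _
  rw [sub_self, Real.rpow_zero, mul_one]
  have h1 : ((Finset.Icc 1 ⌊y⌋₊).filter (fun p => p.Prime ∧ x ≤ a p ∧ a p < x + 1)).card ≤ 1 := by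
    rw [Finset.card_le_one]
    intro p hp q hq
    rw [Finset.mem_filter] at hp hq
    by_contra hne
    have h2 := hsep p q hp.2.1 hq.2.1 hne
    have h3 : |a p - a q| < 1 := by
      rw [abs_lt]
      constructor
      · linarith [hp.2.2.1, hq.2.2.2]
      · linarith [hp.2.2.2, hq.2.2.1]
    linarith
  exact_mod_cast h1

end Pool.Agent.Lib.P4a7640V
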