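import Mathlib
import Pool.Agent.Lib.P4a7640V.Par
import Pool.Agent.Lib.P4a7640Y.Fin
import Pool.Agent.Lib.P4a7640K.FinK
import Pool.Agent.Lib.P4a7640V.Grid
import Pool.Agent.Lib.P4a7640V.CmpS
import Pool.Agent.Lib.P4a7640V.Sep
import Pool.Agent.Lib.P4a7640V.Neg

/-!
# A majorant for all sets at once
-/

open MeasureTheory Filter Finset Topology

namespace Pool.Agent.Lib.P4a7640V

open Pool.Agent.Lib.P4a7640 Pool.Agent.Lib.P4a7640M Pool.Agent.Lib.P4a7640Y Pool.Agent.Lib.P4a7640Z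
open Pool.Agent.Lib.P4a7640K

/-- the approximation of one set, outside the bad event -/
lemma near_grid {k : ℕ} {a : ℕ → ℝ} {H : Finset ℕ} {N : ℕ} (hN : 3 ≤ N) {w : ℕ → ℝ}
    (hw : ∀ n, |w n| ≤ 1) {y : ℝ} {G₀ G₁ Y : ℕ} (h₀ : 0 < G₀) (h₁ : 0 < G₁) (hY : y < Y + 1)
    {A : Set ℝ} (hA : KInt k A) {α : ℝ} (hα : α ∉ BadE a (G₀ * G₁) Y) :
    ∃ i : Fin (3 * k) → Fin (G₀ * G₁ + 1) × Fin (G₀ * G₁ + 1),
      dl A - 2 * k / (G₀ * G₁ : ℕ) ≤ dl (GS (G₀ * G₁) (3 * k) i) ∧
      FF w H N (xr (fun _ => A) a α) ^ 2 ≤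
        2 * FF w H N (xr (fun _ => GS (G₀ * G₁) (3 * k) i) a α) ^ 2 +
          16 * k * ∑ j ∈ Finset.range G₀, TC H N y G₀ j (fun p => α * a p) ^ 2 := by
  classical
  have hG : 0 < G₀ * G₁ := Nat.mul_pos h₀ h₁
  set P : Finset ℕ := (Finset.range (Y + 1)).filter Nat.Prime with hP
  obtain ⟨i, hi, E, hE, hiE⟩ := grid hA hG P (fun p => α * a p) (by
    intro p hp q hq hpq
    by_contra hne
    rw [hP, Finset.mem_filter, Finset.mem_range] at hp hq
    exact hα ⟨p, q, hp.2, hq.2, by omega, by omega, hne, hpq⟩)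
  refine ⟨i, ?_, ?_⟩
  · have h1 := dl_grid hA.measurableSet (kint_GS _ _ i).measurableSet hG hiE
    refine le_trans ?_ h1
    have h2 : (E.card : ℝ) ≤ 2 * k := by exact_mod_cast hE
    have h3 := div_le_div_of_nonneg_right h2 (Nat.cast_nonneg (α := ℝ) (G₀ * G₁))
    linarith
  · set A' := GS (G₀ * G₁) (3 * k) i with hA'
    set t : ℕ → ℝ := fun p => α * a p with ht
    set E₀ : Finset ℕ := E.image (fun e => e / G₁) with hE₀
    have hcard : E₀.card ≤ 2 * k := Finset.card_image_le.trans hE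
    have hcmp := cmp_sets (H := H) hN hw (A := A) (A' := A') (t := t) (y := y) (G := G₀) (E := E₀)
      (by
        intro p hp hpy
        apply hi p
        rw [hP, Finset.mem_filter, Finset.mem_range]
        refine ⟨?_, hp⟩
        have : (p:ℝ) < ((Y + 1 : ℕ) : ℝ) := by
          push_cast
          linarith
        exact_mod_cast this)
      (by
        intro p _ hpE
        apply hiE (t p)
        intro hcon
        apply hpE
        rw [hE₀, Finset.mem_image]
        exact ⟨_, hcon, cell_div h₀ h₁ _⟩)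
    have hxA : xr (fun _ => A) a α = xt A t := rfl
    have hxA' : xr (fun _ => A') a α = xt A' t := rfl
    rw [hxA, hxA']
    set T : ℝ := ∑ j ∈ E₀, TC H N y G₀ j t with hT
    have hT0 : 0 ≤ T := Finset.sum_nonneg fun j _ => TC_nonneg _ _ _ _ _ _
    have hT2 : T ^ 2 ≤ 2 * k * ∑ j ∈ Finset.range G₀, TC H N y G₀ j t ^ 2 := by
      have e1 : T ^ 2 ≤ E₀.card * ∑ j ∈ E₀, TC H N y G₀ j t ^ 2 := sq_sum_le_card_mul_sum_sq
      have e2 : ∑ j ∈ E₀, TC H N y G₀ j t ^ 2 ≤ ∑ j ∈ Finset.range G₀, TC H N y G₀ j t ^ 2 := by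
        have e3 : ∑ j ∈ E₀, TC H N y G₀ j t ^ 2 =
            ∑ j ∈ E₀.filter (fun j => j < G₀), TC H N y G₀ j t ^ 2 := by
          rw [Finset.sum_filter]
          refine Finset.sum_congr rfl fun j _ => ?_
          split_ifs with h
          · rfl
          · rw [TC_zero h₀ (not_lt.mp h)]
            norm_num
        rw [e3]
        refine Finset.sum_le_sum_of_subset_of_nonneg ?_ fun j _ _ => sq_nonneg _
        intro j hj
        rw [Finset.mem_range]
        exact (Finset.mem_filter.mp hj).2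
      have e4 : (E₀.card : ℝ) ≤ 2 * k := by exact_mod_cast hcard
      have e5 : 0 ≤ ∑ j ∈ E₀, TC H N y G₀ j t ^ 2 := Finset.sum_nonneg fun j _ => sq_nonneg _
      calc T ^ 2 ≤ _ := e1
        _ ≤ (2 * k) * ∑ j ∈ E₀, TC H N y G₀ j t ^ 2 := mul_le_mul_of_nonneg_right e4 e5
        _ ≤ _ := mul_le_mul_of_nonneg_left e2 (by positivity)
    set f := FF w H N (xt A t) with hf
    set f' := FF w H N (xt A' t) with hf'
    have h6 : (f - f') ^ 2 ≤ (2 * T) ^ 2 := by
      rw [← sq_abs]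
      exact pow_le_pow_left₀ (abs_nonneg _) hcmp 2
    nlinarith [sq_nonneg (f - 2 * f')]

/-- the moment bound for all sets at once: a measurable majorant -/
theorem moment_all (k : ℕ) {a : ℕ → ℝ}
    (hsep : ∀ p q : ℕ, p.Prime → q.Prime → p ≠ q → 1 ≤ |a p - a q|) {δ₀ : ℝ} (h0 : 0 < δ₀)
    (h1 : δ₀ ≤ 1) {H : Finset ℕ} (hH : H.Nonempty) :
    ∃ c : ℝ, 0 < c ∧ ∃ B : ℝ, 0 < B ∧ ∀ᶠ N : ℕ in atTop, ∀ w : ℕ → ℝ, (∀ n, |w n| ≤ 1) →
      ∃ Q : ℝ → ℝ, Measurable Q ∧ (∀ α, 0 ≤ Q α ∧ Q α ≤ 4) ∧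
        (∀ A : Set ℝ, KInt k A → δ₀ ≤ dl A → ∀ α, FF w H N (xr (fun _ => A) a α) ^ 2 ≤ Q α) ∧
        ∀ u : ℝ, ∫ α in u..(u + 1), Q α ≤
          B * Real.exp (-(4 * c * Real.sqrt (mass (fun _ => δ₀ / 2) N))) := by
  classical
  have hcnt := cnt_sep_abs hsep
  set δ : ℕ → ℝ := fun _ => δ₀ / 2 with hδ
  have hM : Tendsto (fun N : ℕ => mass δ N / Real.log (lam N) ^ 2) atTop atTop :=
    mass_primes (c := δ₀ / 2) (by positivity)
  obtain ⟨c₁, hc₁, B₁, hB₁, hev1⟩ := moment_neg (k := 3 * k) (K := 4) (κ := 1) (by norm_num)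
    one_pos le_rfl hcnt (δ := δ) (fun _ => by positivity) (fun _ => by
      show δ₀ / 2 ≤ 1
      linarith) hM hH
  obtain ⟨C₂, hC₂, hev2⟩ := tc_neg (K := 4) (κ := 1) (by norm_num) one_pos le_rfl hcnt H
  set c : ℝ := 4 * c₁ / (750 * k + 4) with hcdef
  have hk0 : (0:ℝ) ≤ k := Nat.cast_nonneg k
  have hc : 0 < c := by positivity
  have hck : (750 * k + 4) * c = 4 * c₁ := by
    rw [hcdef]
    field_simp
  set s : ℕ → ℝ := fun N => c * Real.sqrt (mass δ N) with hs_def
  have hlamT : Tendsto lam atTop atTop := Real.tendsto_log_atTop.comp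
    (Real.tendsto_log_atTop.comp tendsto_natCast_atTop_atTop)
  have hs1 : ∀ᶠ N : ℕ in atTop, 2 * Real.log (lam N) ≤ s N := by
    filter_upwards [hM.eventually_ge_atTop ((2 / c) ^ 2), hlamT.eventually_ge_atTop 3] with N hN hN3
    have hll : 0 < Real.log (lam N) := Real.log_pos (by linarith)
    rw [le_div_iff₀ (by positivity)] at hN
    have h1 : 2 / c * Real.log (lam N) ≤ Real.sqrt (mass δ N) := by
      apply Real.le_sqrt_of_sq_le
      rw [mul_pow]
      exact hN
    have h2 := mul_le_mul_of_nonneg_left h1 hc.le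
    calc 2 * Real.log (lam N) = c * (2 / c * Real.log (lam N)) := by field_simp
      _ ≤ _ := h2
  have hloglamT : Tendsto (fun N : ℕ => Real.log (lam N)) atTop atTop :=
    Real.tendsto_log_atTop.comp hlamT
  have hsT : Tendsto s atTop atTop := by
    refine tendsto_atTop_mono' _ hs1 ?_
    exact hloglamT.const_mul_atTop (by norm_num)
  obtain ⟨hmax, hmaxH⟩ : ∃ m : ℝ, ∀ h ∈ H, 2 * (h:ℝ) ≤ m :=
    ⟨2 * (H.sup id : ℕ), fun h hh => by
      have : (h:ℝ) ≤ ((H.sup id : ℕ) : ℝ) := by exact_mod_cast Finset.le_sup (f := id) hh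
      linarith⟩
  refine ⟨c, hc, 2 * (8 ^ (6 * k) * B₁) + 16 * k * (C₂ * 7) + 64, by positivity, ?_⟩
  filter_upwards [hev1, hev2, hs1, hsT.eventually_ge_atTop 1, hsT.eventually_ge_atTop hmax,
    hsT.eventually_ge_atTop (4 * k / δ₀), hlamT.eventually_ge_atTop 3, eventually_ge_atTop 3]
    with N hN1 hN2 hsN hs1N hsm hsk hl3 hN w hw
  -- the parameters
  have hsN0 : 0 < s N := by linarith
  have hexp : s N ≤ Real.exp (s N) := by
    have := Real.add_one_le_exp (s N)
    linarith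
  set y : ℝ := Real.exp (60 * s N) with hy
  set Y : ℕ := ⌊y⌋₊ with hY
  set G₀ : ℕ := ⌈Real.exp (5 * s N)⌉₊ with hG₀
  set G₁ : ℕ := ⌈Real.exp (120 * s N)⌉₊ with hG₁
  set L : ℕ := ⌈Real.exp (10 * s N)⌉₊ with hL
  have hceil : ∀ x : ℝ, 0 ≤ x → ((⌈Real.exp x⌉₊ : ℕ) : ℝ) ≤ 2 * Real.exp x := by
    intro x hx
    have e1 := (Nat.ceil_lt_add_one (Real.exp_pos x).le).le
    have e2 := Real.one_le_exp hx
    linarith
  have h₀ : 0 < G₀ := Nat.ceil_pos.mpr (Real.exp_pos _)
  have h₁ : 0 < G₁ := Nat.ceil_pos.mpr (Real.exp_pos _)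
  have hL0 : 0 < L := Nat.ceil_pos.mpr (Real.exp_pos _)
  have hG : 0 < G₀ * G₁ := Nat.mul_pos h₀ h₁
  have hG₀l : Real.exp (5 * s N) ≤ G₀ := Nat.le_ceil _
  have hG₁l : Real.exp (120 * s N) ≤ G₁ := Nat.le_ceil _
  have hLl : Real.exp (10 * s N) ≤ L := Nat.le_ceil _
  have hG₀u : (G₀ : ℝ) ≤ 2 * Real.exp (5 * s N) := hceil _ (by positivity)
  have hG₁u : (G₁ : ℝ) ≤ 2 * Real.exp (120 * s N) := hceil _ (by positivity)
  have hLu : (L : ℝ) ≤ 2 * Real.exp (10 * s N) := hceil _ (by positivity)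
  have hG₀p : (0:ℝ) < G₀ := by exact_mod_cast h₀
  have hG₁p : (0:ℝ) < G₁ := by exact_mod_cast h₁
  have hLp : (0:ℝ) < L := by exact_mod_cast hL0
  have hGl : Real.exp (125 * s N) ≤ ((G₀ * G₁ : ℕ) : ℝ) := by
    push_cast
    calc Real.exp (125 * s N) = Real.exp (5 * s N) * Real.exp (120 * s N) := by
          rw [← Real.exp_add]
          congr 1
          ring
      _ ≤ _ := mul_le_mul hG₀l hG₁l (Real.exp_pos _).le hG₀p.le
  have hGu : ((G₀ * G₁ : ℕ) : ℝ) + 1 ≤ 8 * Real.exp (125 * s N) := by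
    push_cast
    have e1 : (G₀ : ℝ) * G₁ ≤ (2 * Real.exp (5 * s N)) * (2 * Real.exp (120 * s N)) :=
      mul_le_mul hG₀u hG₁u hG₁p.le (by positivity)
    have e2 : (2 * Real.exp (5 * s N)) * (2 * Real.exp (120 * s N)) = 4 * Real.exp (125 * s N) := by
      rw [show (125 * s N) = 5 * s N + 120 * s N by ring, Real.exp_add]
      ring
    have e3 : 1 ≤ Real.exp (125 * s N) := Real.one_le_exp (by positivity)
    linarith
  have hy1 : 1 ≤ y := Real.one_le_exp (by positivity)
  have hyH : ∀ h ∈ H, 2 * (h:ℝ) ≤ y := by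
    intro h hh
    refine (hmaxH h hh).trans (hsm.trans (hexp.trans ?_))
    apply Real.exp_le_exp.mpr
    linarith
  have hYy : y < Y + 1 := Nat.lt_floor_add_one y
  have hYle : (Y:ℝ) ≤ y := Nat.floor_le (Real.exp_pos _).le
  have hkG : 2 * (k:ℝ) / (G₀ * G₁ : ℕ) ≤ δ₀ / 2 := by
    rw [div_le_iff₀ (by exact_mod_cast hG)]
    have e1 : 4 * (k:ℝ) / δ₀ ≤ ((G₀ * G₁ : ℕ) : ℝ) := by
      refine hsk.trans (hexp.trans (le_trans ?_ hGl))
      apply Real.exp_le_exp.mpr
      linarith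
    rw [div_le_iff₀ h0] at e1
    linarith
  -- the index set of the grid sets
  set I : Finset (Fin (3 * k) → Fin (G₀ * G₁ + 1) × Fin (G₀ * G₁ + 1)) :=
    Finset.univ.filter (fun i => δ₀ / 2 ≤ dl (GS (G₀ * G₁) (3 * k) i)) with hI
  have hIcard : (I.card : ℝ) ≤ 8 ^ (6 * k) * Real.exp (750 * k * s N) := by
    have e1 : (I.card : ℝ) ≤ (((G₀ * G₁ : ℕ) : ℝ) + 1) ^ (6 * k) := by
      have e2 : I.card ≤ (G₀ * G₁ + 1) ^ (6 * k) := by
        refine (Finset.card_le_univ _).trans (le_of_eq ?_)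
        rw [Fintype.card_fun, Fintype.card_prod, Fintype.card_fin, Fintype.card_fin, ← pow_two,
          ← pow_mul]
        congr 1
        ring
      exact_mod_cast e2
    refine e1.trans ((pow_le_pow_left₀ (by positivity) hGu _).trans (le_of_eq ?_))
    rw [mul_pow, ← Real.exp_nat_mul]
    congr 2
    push_cast
    ring
  -- the majorant
  set bad : Set ℝ := BadE a (G₀ * G₁) Y with hbad
  have hbadm : MeasurableSet bad := measurableSet_BadE _ _ _
  set Q₁ : ℝ → ℝ := fun α => ∑ i ∈ I, FF w H N (xr (fun _ => GS (G₀ * G₁) (3 * k) i) a α) ^ 2 with hQ₁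
  set Q₂ : ℝ → ℝ := fun α => ∑ j ∈ Finset.range G₀, TC H N y G₀ j (fun p => α * a p) ^ 2 with hQ₂
  set Q₃ : ℝ → ℝ := bad.indicator (fun _ => (1:ℝ)) with hQ₃
  have hFFm : ∀ i : Fin (3 * k) → Fin (G₀ * G₁ + 1) × Fin (G₀ * G₁ + 1),
      Measurable fun α => FF w H N (xr (fun _ => GS (G₀ * G₁) (3 * k) i) a α) := fun i =>
    (measurable_FF w H N).comp (measurable_xr (fun _ => (kint_GS _ _ i).measurableSet) a)
  have hQ₁m : Measurable Q₁ := Finset.measurable_fun_sum _ fun i _ => (hFFm i).pow_const 2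
  have hQ₂m : Measurable Q₂ := Finset.measurable_fun_sum _ fun j _ =>
    (measurable_TC H N y G₀ j a).pow_const 2
  have hQ₃m : Measurable Q₃ := measurable_const.indicator hbadm
  have hQ₁0 : ∀ α, 0 ≤ Q₁ α := fun α => Finset.sum_nonneg fun i _ => sq_nonneg _
  have hQ₂0 : ∀ α, 0 ≤ Q₂ α := fun α => Finset.sum_nonneg fun i _ => sq_nonneg _
  have hQ₃0 : ∀ α, 0 ≤ Q₃ α := fun α => Set.indicator_nonneg (fun _ _ => zero_le_one) α
  have hFF2 : ∀ x : SS, |FF w H N x| ≤ 2 := by
    intro x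
    have e1 := FF_bound hw H (N := N) (by omega) x
    have hlog : 1 ≤ Real.log N := P4a7640L.Brun.log_ge_one hN
    have e2 : 1 / Real.log N ≤ 1 := by
      rw [div_le_one (by linarith)]
      exact hlog
    linarith
  have hFF4 : ∀ x : SS, FF w H N x ^ 2 ≤ 4 := by
    intro x
    rw [← sq_abs]
    have := pow_le_pow_left₀ (abs_nonneg _) (hFF2 x) 2
    linarith
  refine ⟨fun α => min 4 (2 * Q₁ α + 16 * k * Q₂ α + 4 * Q₃ α), ?_, ?_, ?_, ?_⟩
  · exact measurable_const.min (((hQ₁m.const_mul 2).add (hQ₂m.const_mul _)).add (hQ₃m.const_mul 4))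
  · intro α
    refine ⟨le_min (by norm_num) ?_, min_le_left _ _⟩
    have e1 := hQ₁0 α
    have e2 := hQ₂0 α
    have e3 := hQ₃0 α
    positivity
  · intro A hA hdA α
    refine le_min (hFF4 _) ?_
    have e1 := hQ₁0 α
    have e2 := hQ₂0 α
    have e3 := hQ₃0 α
    by_cases hα : α ∈ bad
    · have e4 : Q₃ α = 1 := Set.indicator_of_mem hα _
      rw [e4]
      have e5 := hFF4 (xr (fun _ => A) a α)
      have e6 : 0 ≤ 16 * k * Q₂ α := by positivity
      linarith
    · obtain ⟨i, hi1, hi2⟩ := near_grid (H := H) hN hw (y := y) h₀ h₁ hYy hA hα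
      refine hi2.trans ?_
      have e4 : FF w H N (xr (fun _ => GS (G₀ * G₁) (3 * k) i) a α) ^ 2 ≤ Q₁ α := by
        have hiI : i ∈ I := by
          rw [hI, Finset.mem_filter]
          refine ⟨Finset.mem_univ _, ?_⟩
          linarith
        exact Finset.single_le_sum (f := fun i => FF w H N (xr (fun _ => GS (G₀ * G₁) (3 * k) i) a α) ^ 2)
          (fun i _ => sq_nonneg _) hiI
      have e5 : 0 ≤ 4 * Q₃ α := by positivity
      linarith
  · intro u
    have hu : u ≤ u + 1 := by linarith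
    -- integrability
    have hQ₁i : IntervalIntegrable Q₁ volume u (u + 1) := by
      rw [intervalIntegrable_iff_integrableOn_Ioc_of_le hu]
      refine int_bdd hQ₁m (C := ∑ _i ∈ I, (4:ℝ)) fun α => ?_
      rw [abs_of_nonneg (hQ₁0 α)]
      exact Finset.sum_le_sum fun i _ => hFF4 _
    have hQ₂i : IntervalIntegrable Q₂ volume u (u + 1) := by
      obtain ⟨CT, hCT⟩ := TC_le H N
      rw [intervalIntegrable_iff_integrableOn_Ioc_of_le hu]
      refine int_bdd hQ₂m (C := ∑ _j ∈ Finset.range G₀, CT ^ 2) fun α => ?_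
      rw [abs_of_nonneg (hQ₂0 α)]
      exact Finset.sum_le_sum fun j _ => pow_le_pow_left₀ (TC_nonneg _ _ _ _ _ _) (hCT _ _ _ _) 2
    have hQ₃i : IntervalIntegrable Q₃ volume u (u + 1) := by
      rw [intervalIntegrable_iff_integrableOn_Ioc_of_le hu]
      refine int_bdd hQ₃m (C := 1) fun α => ?_
      rw [abs_of_nonneg (hQ₃0 α)]
      exact Set.indicator_le' (fun _ _ => le_rfl) (fun _ _ => zero_le_one) α
    have hsum_i : IntervalIntegrable (fun α => 2 * Q₁ α + 16 * k * Q₂ α + 4 * Q₃ α) volume u (u + 1) :=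
      ((hQ₁i.const_mul 2).add (hQ₂i.const_mul _)).add (hQ₃i.const_mul 4)
    have hmin_i : IntervalIntegrable (fun α => min 4 (2 * Q₁ α + 16 * k * Q₂ α + 4 * Q₃ α)) volume u
        (u + 1) := by
      rw [intervalIntegrable_iff_integrableOn_Ioc_of_le hu]
      refine int_bdd (measurable_const.min (((hQ₁m.const_mul 2).add (hQ₂m.const_mul _)).add
        (hQ₃m.const_mul 4))) (C := 4) fun α => ?_
      have e1 := hQ₁0 α
      have e2 := hQ₂0 α
      have e3 := hQ₃0 α
      rw [abs_of_nonneg (le_min (by norm_num) (by positivity))]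
      exact min_le_left _ _
    -- the three integrals
    have hI₁ : ∫ α in u..(u + 1), Q₁ α ≤ 8 ^ (6 * k) * B₁ * Real.exp (-(4 * s N)) := by
      have e1 : ∫ α in u..(u + 1), Q₁ α =
          ∑ i ∈ I, ∫ α in u..(u + 1), FF w H N (xr (fun _ => GS (G₀ * G₁) (3 * k) i) a α) ^ 2 := by
        rw [hQ₁]
        refine intervalIntegral.integral_finset_sum fun i _ => ?_
        rw [intervalIntegrable_iff_integrableOn_Ioc_of_le hu]
        refine int_bdd ((hFFm i).pow_const 2) (C := 4) fun α => ?_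
        rw [abs_of_nonneg (sq_nonneg _)]
        exact hFF4 _
      rw [e1]
      have e2 : ∀ i ∈ I, ∫ α in u..(u + 1), FF w H N (xr (fun _ => GS (G₀ * G₁) (3 * k) i) a α) ^ 2 ≤
          B₁ * Real.exp (-(4 * c₁ * Real.sqrt (mass δ N))) := by
        intro i hi
        rw [hI, Finset.mem_filter] at hi
        exact hN1 _ (kint_GS _ _ i) (fun _ => hi.2) w hw u
      refine (Finset.sum_le_card_nsmul _ _ _ e2).trans ?_
      rw [nsmul_eq_mul]
      have e3 : 0 ≤ B₁ * Real.exp (-(4 * c₁ * Real.sqrt (mass δ N))) := by positivity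
      refine (mul_le_mul_of_nonneg_right hIcard e3).trans (le_of_eq ?_)
      have e4 : Real.exp (750 * k * s N) * Real.exp (-(4 * c₁ * Real.sqrt (mass δ N))) =
          Real.exp (-(4 * s N)) := by
        rw [← Real.exp_add]
        congr 1
        show 750 * k * (c * Real.sqrt (mass δ N)) + -(4 * c₁ * Real.sqrt (mass δ N)) =
          -(4 * (c * Real.sqrt (mass δ N)))
        rw [← hck]
        ring
      calc 8 ^ (6 * k) * Real.exp (750 * k * s N) * (B₁ * Real.exp (-(4 * c₁ * Real.sqrt (mass δ N))))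
          = 8 ^ (6 * k) * B₁ * (Real.exp (750 * k * s N) *
              Real.exp (-(4 * c₁ * Real.sqrt (mass δ N)))) := by ring
        _ = _ := by rw [e4]
    have hlam2 : lam N ^ 2 ≤ Real.exp (s N) := by
      have e1 : lam N = Real.exp (Real.log (lam N)) := (Real.exp_log (by linarith)).symm
      rw [e1, ← Real.exp_nat_mul]
      apply Real.exp_le_exp.mpr
      push_cast
      exact hsN
    have hI₂ : ∫ α in u..(u + 1), Q₂ α ≤ C₂ * 7 * Real.exp (-(4 * s N)) := by
      refine (hN2 y hy1 hyH G₀ L h₀ hL0 u).trans ?_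
      have e1 : (1:ℝ) / G₀ ≤ Real.exp (-(5 * s N)) := by
        rw [Real.exp_neg, ← one_div]
        exact one_div_le_one_div_of_le (Real.exp_pos _) hG₀l
      have e2 : (G₀:ℝ) * L / y ^ ((1:ℝ) / 3) ≤ 4 * Real.exp (-(5 * s N)) := by
        have e3 : y ^ ((1:ℝ) / 3) = Real.exp (20 * s N) := by
          rw [hy, ← Real.exp_mul]
          congr 1
          ring
        rw [e3, div_le_iff₀ (Real.exp_pos _)]
        calc (G₀:ℝ) * L ≤ (2 * Real.exp (5 * s N)) * (2 * Real.exp (10 * s N)) :=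
              mul_le_mul hG₀u hLu hLp.le (by positivity)
          _ = 4 * Real.exp (-(5 * s N)) * Real.exp (20 * s N) := by
              rw [show 4 * Real.exp (-(5 * s N)) * Real.exp (20 * s N) =
                4 * (Real.exp (-(5 * s N)) * Real.exp (20 * s N)) by ring, ← Real.exp_add,
                show 2 * Real.exp (5 * s N) * (2 * Real.exp (10 * s N)) =
                4 * (Real.exp (5 * s N) * Real.exp (10 * s N)) by ring, ← Real.exp_add]
              congr 2
              ring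
      have e4 : (G₀:ℝ) / L ≤ 2 * Real.exp (-(5 * s N)) := by
        rw [div_le_iff₀ hLp]
        calc (G₀:ℝ) ≤ 2 * Real.exp (5 * s N) := hG₀u
          _ = 2 * Real.exp (-(5 * s N)) * Real.exp (10 * s N) := by
              rw [mul_assoc, ← Real.exp_add]
              congr 2
              ring
          _ ≤ _ := mul_le_mul_of_nonneg_left hLl (by positivity)
      have e5 : (1:ℝ) / G₀ + G₀ * L / y ^ ((1:ℝ) / 3) + G₀ / L ≤ 7 * Real.exp (-(5 * s N)) := by
        linarith
      have e6 : 0 ≤ (1:ℝ) / G₀ + G₀ * L / y ^ ((1:ℝ) / 3) + G₀ / L := by positivity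
      calc C₂ * lam N ^ 2 * ((1:ℝ) / G₀ + G₀ * L / y ^ ((1:ℝ) / 3) + G₀ / L)
          ≤ C₂ * Real.exp (s N) * (7 * Real.exp (-(5 * s N))) :=
            mul_le_mul (mul_le_mul_of_nonneg_left hlam2 hC₂.le) e5 e6 (by positivity)
        _ = C₂ * 7 * (Real.exp (s N) * Real.exp (-(5 * s N))) := by ring
        _ = _ := by
            rw [← Real.exp_add]
            congr 2
            ring
    have hI₃ : ∫ α in u..(u + 1), Q₃ α ≤ 16 * Real.exp (-(4 * s N)) := by
      refine (sep_meas hsep hG Y u).trans ?_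
      rw [div_le_iff₀ (by exact_mod_cast hG)]
      have e1 : (Y:ℝ) ^ 2 ≤ Real.exp (120 * s N) := by
        calc (Y:ℝ) ^ 2 ≤ y ^ 2 := pow_le_pow_left₀ (Nat.cast_nonneg _) hYle 2
          _ = Real.exp (120 * s N) := by
              rw [hy, ← Real.exp_nat_mul]
              congr 1
              push_cast
              ring
      have e2 : Real.exp (120 * s N) ≤ Real.exp (-(4 * s N)) * ((G₀ * G₁ : ℕ) : ℝ) := by
        calc Real.exp (120 * s N) ≤ Real.exp (-(4 * s N)) * Real.exp (125 * s N) := by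
              rw [← Real.exp_add]
              apply Real.exp_le_exp.mpr
              linarith
          _ ≤ _ := mul_le_mul_of_nonneg_left hGl (Real.exp_pos _).le
      nlinarith
    calc ∫ α in u..(u + 1), min 4 (2 * Q₁ α + 16 * k * Q₂ α + 4 * Q₃ α)
        ≤ ∫ α in u..(u + 1), (2 * Q₁ α + 16 * k * Q₂ α + 4 * Q₃ α) :=
          intervalIntegral.integral_mono_on hu hmin_i hsum_i fun α _ => min_le_right _ _
      _ = 2 * (∫ α in u..(u + 1), Q₁ α) + 16 * k * (∫ α in u..(u + 1), Q₂ α) +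
          4 * ∫ α in u..(u + 1), Q₃ α := by
          rw [intervalIntegral.integral_add ((hQ₁i.const_mul 2).add (hQ₂i.const_mul _))
            (hQ₃i.const_mul 4), intervalIntegral.integral_add (hQ₁i.const_mul 2) (hQ₂i.const_mul _),
            intervalIntegral.integral_const_mul, intervalIntegral.integral_const_mul,
            intervalIntegral.integral_const_mul]
      _ ≤ 2 * (8 ^ (6 * k) * B₁ * Real.exp (-(4 * s N))) + 16 * k * (C₂ * 7 * Real.exp (-(4 * s N))) +
          4 * (16 * Real.exp (-(4 * s N))) := by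
          refine add_le_add (add_le_add ?_ ?_) ?_
          · exact mul_le_mul_of_nonneg_left hI₁ zero_le_two
          · exact mul_le_mul_of_nonneg_left hI₂ (by positivity)
          · exact mul_le_mul_of_nonneg_left hI₃ (by norm_num)
      _ = (2 * (8 ^ (6 * k) * B₁) + 16 * k * (C₂ * 7) + 64) *
          Real.exp (-(4 * c * Real.sqrt (mass δ N))) := by
          have e7 : 4 * c * Real.sqrt (mass δ N) = 4 * s N := by
            show _ = 4 * (c * Real.sqrt (mass δ N))
            ring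
          rw [e7]
          ring

end Pool.Agent.Lib.P4a7640V
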