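import Mathlib
import Pool.Agent.Lib.P4a7640.Defs

/-!
# The conclusion of the metric theorems
-/

open Filter Topology

namespace Pool.Agent.Lib.P4a7640V

open Pool.Agent.Lib.P4a7640

/-- The conclusion for the multiplicative function `g`, the signs `x`, the weight `w` and the rates
`exp (-c(H) √(R(N)))`.

(a) Every multiplicative `f` at finite distance from `g x χ`, for some Dirichlet character `χ`, is
aperiodic, has the `(1/2, 1/2)` Bernoulli shift as unique Furstenberg system, and is independent of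
`w`: for every continuous `F` the logarithmic average of `w(n) F(T^n x_f)` minus the product of the
integral of `F` and the logarithmic average of `w` tends to zero.

(b) If `f` is multiplicative and `f(p) = g(p) x(p)` for all primes `p`, then for every nonempty finite
`H` the logarithmic average of `w(n) ∏_{h ∈ H} f(n+h)` is at most `exp (-c(H) √(R(N)))` for large
`N`. -/
def Con (g x : ℕ → ℤˣ) (w R : ℕ → ℝ) (c : Finset ℕ → ℝ) : Prop :=
  (∀ f : ℕ → ℤˣ, MultS f →
    (∃ q : ℕ, 0 < q ∧ ∃ χ : DirichletCharacter ℂ q,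
      ¬ Tendsto (fun N => DD (fun p => f p * (g p * x p)) χ 0 N) atTop atTop) →
    Aperiodic f ∧ FairSystem f ∧
      ∀ F : (ℤ → SignType) → ℝ, Continuous F → Tendsto (fun N : ℕ =>
        (∑ n ∈ Finset.Icc 1 N, w n * F (fun i => xf f (i + n)) / n) / Real.log N -
          (∑ n ∈ Finset.Icc 1 N, w n / n) / Real.log N * EE F) atTop (𝓝 0)) ∧
  ∀ H : Finset ℕ, H.Nonempty → ∀ᶠ N : ℕ in atTop, ∀ f : ℕ → ℤˣ, MultS f →
    (∀ p : ℕ, p.Prime → f p = g p * x p) →
    |(∑ n ∈ Finset.Icc 1 N, w n * (∏ h ∈ H, ((f (n + h) : ℤ) : ℝ)) / n) / Real.log N| ≤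
      Real.exp (-(c H * Real.sqrt (R N)))

end Pool.Agent.Lib.P4a7640V
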