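import Mathlib
import Pool.Agent.Lib.P4a7640Y.Gen

/-!
# Rotated sets
-/

open Filter Topology MeasureTheory

namespace Pool.Agent.Lib.P4a7640V

open Pool.Agent.Lib.P4a7640 Pool.Agent.Lib.P4a7640M Pool.Agent.Lib.P4a7640Y

/-- the set, rotated by `-b` -/
def rotS (b : ℝ) (A : Set ℝ) : Set ℝ := {t | t ∈ Set.Ico (0:ℝ) 1 ∧ Int.fract (t + b) ∈ A}

lemma mem_rotS (b : ℝ) (A : Set ℝ) (x : ℝ) : Int.fract x ∈ rotS b A ↔ Int.fract (x + b) ∈ A := by
  have h1 : Int.fract (Int.fract x + b) = Int.fract (x + b) := by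
    have h2 : Int.fract x + b = (x + b) - (⌊x⌋ : ℤ) := by
      unfold Int.fract
      ring
    rw [h2, Int.fract_sub_intCast]
  unfold rotS
  rw [Set.mem_setOf_eq, h1]
  constructor
  · exact fun h => h.2
  · exact fun h => ⟨⟨Int.fract_nonneg _, Int.fract_lt_one _⟩, h⟩

/-- the two parts of a rotated set -/
lemma rotS_eq (b : ℝ) (A : Set ℝ) : rotS b A =
    {t | (0 ≤ t ∧ t < 1 - Int.fract b) ∧ t + Int.fract b ∈ A} ∪
      {t | (1 - Int.fract b ≤ t ∧ t < 1) ∧ t + (Int.fract b - 1) ∈ A} := by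
  have hb0 := Int.fract_nonneg b
  have hb1 := Int.fract_lt_one b
  have hfr : ∀ t : ℝ, Int.fract (t + b) = Int.fract (t + Int.fract b) := by
    intro t
    have h2 : t + b = (t + Int.fract b) + (⌊b⌋ : ℤ) := by
      unfold Int.fract
      ring
    rw [h2, Int.fract_add_intCast]
  have h1 : ∀ t : ℝ, 0 ≤ t → t < 1 - Int.fract b → Int.fract (t + b) = t + Int.fract b := by
    intro t ht0 ht1
    rw [hfr, Int.fract_eq_self]
    constructor <;> linarith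
  have h2 : ∀ t : ℝ, 1 - Int.fract b ≤ t → t < 1 → Int.fract (t + b) = t + (Int.fract b - 1) := by
    intro t ht0 ht1
    rw [hfr]
    have h3 : t + Int.fract b = (t + (Int.fract b - 1)) + ((1 : ℤ) : ℝ) := by
      push_cast
      ring
    rw [h3, Int.fract_add_intCast, Int.fract_eq_self]
    constructor <;> linarith
  ext t
  simp only [rotS, Set.mem_union, Set.mem_setOf_eq, Set.mem_Ico]
  constructor
  · rintro ⟨⟨h3, h4⟩, h5⟩
    rcases lt_or_ge t (1 - Int.fract b) with h6 | h6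
    · rw [h1 t h3 h6] at h5
      exact Or.inl ⟨⟨h3, h6⟩, h5⟩
    · rw [h2 t h6 h4] at h5
      exact Or.inr ⟨⟨h6, h4⟩, h5⟩
  · rintro (⟨⟨h3, h4⟩, h5⟩ | ⟨⟨h3, h4⟩, h5⟩)
    · refine ⟨⟨h3, by linarith⟩, ?_⟩
      rw [h1 t h3 h4]
      exact h5
    · refine ⟨⟨by linarith, h4⟩, ?_⟩
      rw [h2 t h3 h4]
      exact h5

lemma kint_rot (b : ℝ) {k : ℕ} {A : Set ℝ} (hA : KInt k A) : KInt (2 * k) (rotS b A) := by
  classical
  obtain ⟨s, hs1, hs2, hs3⟩ := hA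
  set c := Int.fract b with hc
  refine ⟨(s.image fun J : Set ℝ => {t : ℝ | (0 ≤ t ∧ t < 1 - c) ∧ t + c ∈ J}) ∪
    (s.image fun J : Set ℝ => {t : ℝ | (1 - c ≤ t ∧ t < 1) ∧ t + (c - 1) ∈ J}), ?_, ?_, ?_⟩
  · refine (Finset.card_union_le _ _).trans ?_
    have h1 := Finset.card_image_le (s := s)
      (f := fun J : Set ℝ => {t : ℝ | (0 ≤ t ∧ t < 1 - c) ∧ t + c ∈ J})
    have h2 := Finset.card_image_le (s := s)
      (f := fun J : Set ℝ => {t : ℝ | (1 - c ≤ t ∧ t < 1) ∧ t + (c - 1) ∈ J})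
    omega
  · intro J hJ
    rw [Finset.mem_union, Finset.mem_image, Finset.mem_image] at hJ
    rcases hJ with ⟨I, hI, rfl⟩ | ⟨I, hI, rfl⟩
    · refine ⟨fun x hx y hy z hz => ?_⟩
      obtain ⟨⟨hx0, hx1⟩, hxI⟩ := hx
      obtain ⟨⟨hy0, hy1⟩, hyI⟩ := hy
      exact ⟨⟨hx0.trans hz.1, lt_of_le_of_lt hz.2 hy1⟩,
        (hs2 I hI).out hxI hyI ⟨by linarith [hz.1], by linarith [hz.2]⟩⟩
    · refine ⟨fun x hx y hy z hz => ?_⟩
      obtain ⟨⟨hx0, hx1⟩, hxI⟩ := hx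
      obtain ⟨⟨hy0, hy1⟩, hyI⟩ := hy
      exact ⟨⟨hx0.trans hz.1, lt_of_le_of_lt hz.2 hy1⟩,
        (hs2 I hI).out hxI hyI ⟨by linarith [hz.1], by linarith [hz.2]⟩⟩
  · rw [rotS_eq]
    ext t
    simp only [Set.mem_union, Set.mem_setOf_eq, Set.mem_iUnion, exists_prop, Finset.mem_union,
      Finset.mem_image]
    rw [hs3]
    simp only [Set.mem_iUnion, exists_prop]
    constructor
    · rintro (⟨h1, I, hI, h2⟩ | ⟨h1, I, hI, h2⟩)
      · exact ⟨_, Or.inl ⟨I, hI, rfl⟩, h1, h2⟩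
      · exact ⟨_, Or.inr ⟨I, hI, rfl⟩, h1, h2⟩
    · rintro ⟨J, ⟨I, hI, rfl⟩ | ⟨I, hI, rfl⟩, ht⟩
      · exact Or.inl ⟨ht.1, I, hI, ht.2⟩
      · exact Or.inr ⟨ht.1, I, hI, ht.2⟩

lemma vol_rot (b : ℝ) {A : Set ℝ} (hA : MeasurableSet A) :
    volume (rotS b A ∩ Set.Ico (0:ℝ) 1) = volume (A ∩ Set.Ico (0:ℝ) 1) := by
  set c := Int.fract b with hc
  have hc0 : 0 ≤ c := Int.fract_nonneg b
  have hc1 : c < 1 := Int.fract_lt_one b
  have h1 : rotS b A ∩ Set.Ico (0:ℝ) 1 = rotS b A := by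
    apply Set.inter_eq_left.mpr
    exact fun t ht => ht.1
  rw [h1, rotS_eq]
  have e1 : {t : ℝ | (0 ≤ t ∧ t < 1 - c) ∧ t + c ∈ A} =
      (fun t => t + c) ⁻¹' (A ∩ Set.Ico c 1) := by
    ext t
    simp only [Set.mem_setOf_eq, Set.mem_preimage, Set.mem_inter_iff, Set.mem_Ico]
    constructor
    · rintro ⟨⟨h2, h3⟩, h4⟩
      exact ⟨h4, by linarith, by linarith⟩
    · rintro ⟨h2, h3, h4⟩
      exact ⟨⟨by linarith, by linarith⟩, h2⟩
  have e2 : {t : ℝ | (1 - c ≤ t ∧ t < 1) ∧ t + (c - 1) ∈ A} =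
      (fun t => t + (c - 1)) ⁻¹' (A ∩ Set.Ico 0 c) := by
    ext t
    simp only [Set.mem_setOf_eq, Set.mem_preimage, Set.mem_inter_iff, Set.mem_Ico]
    constructor
    · rintro ⟨⟨h2, h3⟩, h4⟩
      exact ⟨h4, by linarith, by linarith⟩
    · rintro ⟨h2, h3, h4⟩
      exact ⟨⟨by linarith, by linarith⟩, h2⟩
  have hm2 : MeasurableSet ((fun t : ℝ => t + (c - 1)) ⁻¹' (A ∩ Set.Ico 0 c)) :=
    (measurable_id.add_const _) (hA.inter measurableSet_Ico)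
  rw [e1, e2, measure_union _ hm2, measure_preimage_add_right, measure_preimage_add_right,
    ← measure_union _ (hA.inter measurableSet_Ico)]
  · congr 1
    rw [Set.union_comm, ← Set.inter_union_distrib_left, Set.Ico_union_Ico_eq_Ico hc0 hc1.le]
  · rw [Set.disjoint_left]
    rintro t ⟨_, h2⟩ ⟨_, h3⟩
    exact absurd h3.2 (not_lt.mpr h2.1)
  · rw [Set.disjoint_left]
    rintro t ⟨_, h2⟩ ⟨_, h3⟩
    have h4 := h2.1
    have h5 := h3.2
    have h6 := h3.1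
    have h7 := h2.2
    linarith

lemma dl_rot (b : ℝ) {A : Set ℝ} (hA : MeasurableSet A) : dl (rotS b A) = dl A := by
  unfold dl
  rw [vol_rot b hA]

end Pool.Agent.Lib.P4a7640V
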