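import Mathlib
import Pool.Agent.Lib.P4a7640V.Asm
import Pool.Agent.Lib.P4a7640V.AllX
import Pool.Agent.Lib.P4a7640V.RotS
import Pool.Agent.Lib.P4a7640V.ConD
import Pool.Agent.Lib.P4a7640K.GenK

/-!
# All arcs at once: the conclusion
-/

open MeasureTheory Filter Topology

namespace Pool.Agent.Lib.P4a7640V

open Pool.Agent.Lib.P4a7640 Pool.Agent.Lib.P4a7640M Pool.Agent.Lib.P4a7640Y Pool.Agent.Lib.P4a7640Z
open Pool.Agent.Lib.P4a7640K

/-- the conclusion for the sequence of signs `x`, the base `g`, the weight `w` and the rates `c` -/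
def Concl (g : ℕ → ℤˣ) (w : ℕ → ℝ) (c : Finset ℕ → ℝ) (x : ℕ → ℤˣ) : Prop :=
  Con g x w (fun N => Real.log (Real.log N)) c

lemma mass_const_ge {c : ℝ} (hc : 0 < c) : ∀ᶠ N : ℕ in atTop,
    c / 2 * Real.log (Real.log N) ≤ mass (fun _ => c) N := by
  filter_upwards [mass_ge] with N hN
  unfold mass
  have h1 : ∑ p ∈ (Finset.Icc 1 N).filter Nat.Prime, c / (p:ℝ) =
      2 * c * ∑ p ∈ (Finset.Icc 1 N).filter Nat.Prime, (1 / 2 : ℝ) / p := by
    rw [Finset.mul_sum]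
    refine Finset.sum_congr rfl fun p _ => ?_
    ring
  rw [h1]
  have h2 := mul_le_mul_of_nonneg_left hN (show 0 ≤ 2 * c by positivity)
  linarith

/-- All sets that are unions of at most `k` intervals and have `dl ≥ δ₀`, simultaneously. -/
theorem all_k (g : ℕ → ℤˣ) (hg : MultS g) {a : ℕ → ℝ}
    (hsep : ∀ p q : ℕ, p.Prime → q.Prime → p ≠ q → 1 ≤ |a p - a q|) {w : ℕ → ℝ} {C : ℝ}
    (hw : ∀ n, |w n| ≤ C) (k : ℕ) {δ₀ : ℝ} (h0 : 0 < δ₀) (h1 : δ₀ ≤ 1) :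
    ∃ c : Finset ℕ → ℝ, (∀ H, 0 < c H) ∧ ∀ᵐ α : ℝ, ∀ A : Set ℝ, KInt k A → δ₀ ≤ dl A →
      ∀ x : ℕ → ℤˣ, (∀ p : ℕ, p.Prime → (x p = -1 ↔ Int.fract (α * a p) ∈ A)) →
        Concl g w c x := by
  classical
  set ι := {A : Set ℝ // KInt k A ∧ δ₀ ≤ dl A} with hι
  set X : ι → ℝ → SS := fun i α => xr (fun _ => i.1) a α with hX
  set δ : ℕ → ℝ := fun _ => δ₀ / 2 with hδ
  have hδ0 : ∀ p, 0 ≤ δ p := fun _ => by positivity
  have hδ1 : ∀ p, δ p ≤ 1 := fun _ => by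
    show δ₀ / 2 ≤ 1
    linarith
  have hP : Tendsto (fun N : ℕ => mass δ N / Real.log (lam N) ^ 2) atTop atTop :=
    mass_primes (c := δ₀ / 2) (by positivity)
  have hfam : MomFam X δ := by
    intro H hH
    obtain ⟨c, hc, B, hB, hev⟩ := moment_all k hsep h0 h1 hH
    refine ⟨c, hc, B, hB, ?_⟩
    filter_upwards [hev] with N hN w hw
    obtain ⟨Q, hQ1, hQ2, hQ3, hQ4⟩ := hN w hw
    exact ⟨Q, hQ1, hQ2, fun i α => hQ3 i.1 i.2.1 i.2.2 α, hQ4⟩
  set C' : ℝ := |C| + 1 with hC'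
  have hC'0 : 0 < C' := by positivity
  have hw' : ∀ n, |w n / C'| ≤ 1 := by
    intro n
    rw [abs_div, abs_of_pos hC'0, div_le_one hC'0]
    have := hw n
    linarith [le_abs_self C]
  have h1w : ∀ n : ℕ, |(fun _ : ℕ => (1:ℝ)) n| ≤ 1 := fun n => by simp
  have hv1 := vanish_all hδ0 hδ1 hP hfam h1w g
  have hv2 := vanish_all hδ0 hδ1 hP hfam hw' g
  have hrate : ∀ H : Finset ℕ, ∃ c : ℝ, 0 < c ∧ (H.Nonempty → ∀ᵐ α : ℝ, ∀ᶠ N : ℕ in atTop,
      ∀ i : ι, ∀ f : ℕ → ℤˣ, MultS f → (∀ p : ℕ, p.Prime → f p = g p * X i α p) →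
      |LA (fun n => w n / C' * prodSeq f H n) N| ≤ Real.exp (-(c * Real.sqrt (mass δ N)))) := by
    intro H
    by_cases hH : H.Nonempty
    · obtain ⟨c, hc, h⟩ := rate_all hδ0 hδ1 hP hfam hg hw' hH
      exact ⟨c, hc, fun _ => h⟩
    · exact ⟨1, one_pos, fun h => absurd h hH⟩
  choose c hc hcr using hrate
  have hcr' : ∀ᵐ α : ℝ, ∀ H : Finset ℕ, H.Nonempty → ∀ᶠ N : ℕ in atTop,
      ∀ i : ι, ∀ f : ℕ → ℤˣ, MultS f → (∀ p : ℕ, p.Prime → f p = g p * X i α p) →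
      |LA (fun n => w n / C' * prodSeq f H n) N| ≤
        Real.exp (-(c H * Real.sqrt (mass δ N))) := by
    rw [ae_all_iff]
    intro H
    by_cases hH : H.Nonempty
    · filter_upwards [hcr H hH] with α hα _
      exact hα
    · exact Eventually.of_forall fun α h => absurd h hH
  refine ⟨fun H => c H * Real.sqrt (δ₀ / 4) / 2, fun H => by
    have := hc H
    positivity, ?_⟩
  filter_upwards [hv1, hv2, hcr'] with α e1 e2 e3 A hkA hdl x hx
  set i : ι := ⟨A, hkA, hdl⟩ with hi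
  have hxX : ∀ p : ℕ, p.Prime → x p = X i α p := by
    intro p hp
    show x p = if Int.fract (α * a p) ∈ A then -1 else 1
    by_cases h3 : Int.fract (α * a p) ∈ A
    · rw [if_pos h3]
      exact (hx p hp).mpr h3
    · rw [if_neg h3]
      rcases Int.units_eq_one_or (x p) with h4 | h4
      · exact h4
      · exact absurd ((hx p hp).mp h4) h3
  constructor
  · intro f hf hfp
    obtain ⟨q, hq, χ, hnot⟩ := hfp
    refine concl_of_vanish hg hw (e1 i) (e2 i) hf ⟨q, hq, χ, fun hcon =>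
      hnot (hcon.congr fun N => ?_)⟩
    unfold DD
    refine Finset.sum_congr rfl fun p hp => ?_
    simp only [hxX p (Finset.mem_filter.mp hp).2]
  · intro H hH
    have h6 : ∀ᶠ N : ℕ in atTop, Real.log C' ≤ c H / 2 * Real.sqrt (mass δ N) :=
      ((Real.tendsto_sqrt_atTop.comp (tendsto_mass hP)).const_mul_atTop
        (half_pos (hc H))).eventually_ge_atTop _
    filter_upwards [e3 H hH, h6, mass_const_ge (c := δ₀ / 2) (by positivity)] with N h7 h8 h9 f hf hfp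
    have h4 : LA (fun n => w n * prodSeq f H n) N =
        C' * LA (fun n => w n / C' * prodSeq f H n) N := by
      rw [← LA_const_mul]
      congr 1
      funext n
      field_simp
    have h10 := h7 i f hf fun p hp => by rw [hfp p hp, hxX p hp]
    show |LA (fun n => w n * prodSeq f H n) N| ≤ _
    rw [h4, abs_mul, abs_of_pos hC'0]
    calc C' * |LA (fun n => w n / C' * prodSeq f H n) N|
        ≤ Real.exp (c H / 2 * Real.sqrt (mass δ N)) *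
          Real.exp (-(c H * Real.sqrt (mass δ N))) := by
          apply mul_le_mul _ h10 (abs_nonneg _) (Real.exp_pos _).le
          rw [← Real.log_le_iff_le_exp hC'0]
          exact h8
      _ = Real.exp (-(c H / 2 * Real.sqrt (mass δ N))) := by
          rw [← Real.exp_add]
          congr 1
          ring
      _ ≤ Real.exp (-(c H * Real.sqrt (δ₀ / 4) / 2 * Real.sqrt (Real.log (Real.log N)))) := by
          apply Real.exp_le_exp.mpr
          have h11 : Real.sqrt (δ₀ / 4) * Real.sqrt (Real.log (Real.log N)) ≤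
              Real.sqrt (mass δ N) := by
            rw [← Real.sqrt_mul (by positivity)]
            apply Real.sqrt_le_sqrt
            refine le_trans (le_of_eq ?_) h9
            ring
          have h12 := mul_le_mul_of_nonneg_left h11 (half_pos (hc H)).le
          have h13 : c H * Real.sqrt (δ₀ / 4) / 2 * Real.sqrt (Real.log (Real.log N)) =
              c H / 2 * (Real.sqrt (δ₀ / 4) * Real.sqrt (Real.log (Real.log N))) := by ring
          linarith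

/-- the same after scaling -/
theorem all_d (g : ℕ → ℤˣ) (hg : MultS g) {a : ℕ → ℝ} {d : ℝ} (hd : 0 < d)
    (hsep : ∀ p q : ℕ, p.Prime → q.Prime → p ≠ q → d ≤ |a p - a q|) {w : ℕ → ℝ} {C : ℝ}
    (hw : ∀ n, |w n| ≤ C) (k : ℕ) {δ₀ : ℝ} (h0 : 0 < δ₀) (h1 : δ₀ ≤ 1) :
    ∃ c : Finset ℕ → ℝ, (∀ H, 0 < c H) ∧ ∀ᵐ α : ℝ, ∀ A : Set ℝ, KInt k A → δ₀ ≤ dl A →
      ∀ x : ℕ → ℤˣ, (∀ p : ℕ, p.Prime → (x p = -1 ↔ Int.fract (α * a p) ∈ A)) →
        Concl g w c x := by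
  have hsep' : ∀ p q : ℕ, p.Prime → q.Prime → p ≠ q → 1 ≤ |a p / d - a q / d| := by
    intro p q hp hq hne
    rw [← sub_div, abs_div, abs_of_pos hd, le_div_iff₀ hd, one_mul]
    exact hsep p q hp hq hne
  obtain ⟨c, hc, h⟩ := all_k g hg hsep' hw k h0 h1
  refine ⟨c, hc, ?_⟩
  filter_upwards [ae_scale hd.ne' h] with α hα A hkA hdl x hx
  refine hα A hkA hdl x fun p hp => ?_
  have h3 : d * α * (a p / d) = α * a p := by
    field_simp
  rw [h3]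
  exact hx p hp

lemma dl_pos_of {A : Set ℝ} (h0 : 0 < volume (A ∩ Set.Ico (0:ℝ) 1))
    (h1 : volume (A ∩ Set.Ico (0:ℝ) 1) < 1) : 0 < dl A := by
  have h2 : (volume (A ∩ Set.Ico (0:ℝ) 1)).toReal < 1 := by
    rw [← ENNReal.toReal_one]
    exact (ENNReal.toReal_lt_toReal (h1.trans ENNReal.one_lt_top).ne ENNReal.one_ne_top).mpr h1
  exact lt_min (ENNReal.toReal_pos h0.ne' (h1.trans ENNReal.one_lt_top).ne) (by linarith)

/-- **All finite unions of intervals simultaneously.** -/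
theorem all_arcs (g : ℕ → ℤˣ) (hg : MultS g) {a : ℕ → ℝ} {d : ℝ} (hd : 0 < d)
    (hsep : ∀ p q : ℕ, p.Prime → q.Prime → p ≠ q → d ≤ |a p - a q|) {w : ℕ → ℝ} {C : ℝ}
    (hw : ∀ n, |w n| ≤ C) :
    ∃ c : Set ℝ → Finset ℕ → ℝ, (∀ A H, 0 < c A H) ∧ ∀ᵐ α : ℝ, ∀ A : Set ℝ,
      (∃ s : Finset (Set ℝ), (∀ J ∈ s, J.OrdConnected) ∧ A = ⋃ J ∈ s, J) → 0 < dl A →
      ∀ x : ℕ → ℤˣ, (∀ p : ℕ, p.Prime → (x p = -1 ↔ Int.fract (α * a p) ∈ A)) →
        Concl g w (c A) x := by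
  classical
  have h1 : ∀ k m : ℕ, ∃ c : Finset ℕ → ℝ, (∀ H, 0 < c H) ∧ ∀ᵐ α : ℝ, ∀ A : Set ℝ, KInt k A →
      1 / ((m:ℝ) + 1) ≤ dl A →
      ∀ x : ℕ → ℤˣ, (∀ p : ℕ, p.Prime → (x p = -1 ↔ Int.fract (α * a p) ∈ A)) →
        Concl g w c x := by
    intro k m
    refine all_d g hg hd hsep hw k (by positivity) ?_
    rw [div_le_one (by positivity)]
    linarith [Nat.cast_nonneg (α := ℝ) m]
  choose c hc hae using h1
  have h2 : ∀ᵐ α : ℝ, ∀ k m : ℕ, ∀ A : Set ℝ, KInt k A → 1 / ((m:ℝ) + 1) ≤ dl A →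
      ∀ x : ℕ → ℤˣ, (∀ p : ℕ, p.Prime → (x p = -1 ↔ Int.fract (α * a p) ∈ A)) →
        Concl g w (c k m) x := by
    rw [ae_all_iff]
    intro k
    rw [ae_all_iff]
    intro m
    exact hae k m
  have h3 : ∀ A : Set ℝ, ∃ k m : ℕ, ((∃ s : Finset (Set ℝ), (∀ J ∈ s, J.OrdConnected) ∧
      A = ⋃ J ∈ s, J) → 0 < dl A → KInt k A ∧ 1 / ((m:ℝ) + 1) ≤ dl A) := by
    intro A
    by_cases hA : ∃ s : Finset (Set ℝ), (∀ J ∈ s, J.OrdConnected) ∧ A = ⋃ J ∈ s, J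
    · by_cases hdl : 0 < dl A
      · obtain ⟨s, hs1, hs2⟩ := hA
        obtain ⟨m, hm⟩ := exists_nat_one_div_lt hdl
        exact ⟨s.card, m, fun _ _ => ⟨⟨s, le_rfl, hs1, hs2⟩, hm.le⟩⟩
      · exact ⟨0, 0, fun _ h => absurd h hdl⟩
    · exact ⟨0, 0, fun h => absurd h hA⟩
  choose kk mm hkm using h3
  refine ⟨fun A => c (kk A) (mm A), fun A H => hc _ _ H, ?_⟩
  filter_upwards [h2] with α hα A hA hdl x hx
  obtain ⟨h4, h5⟩ := hkm A hA hdl
  exact hα _ _ A h4 h5 x hx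

/-- **The signs `(-1)^⌊α a_p + β⌋`, for all `β` simultaneously.** -/
theorem all_beta (g : ℕ → ℤˣ) (hg : MultS g) (a : ℕ → ℝ) (d : ℝ) (hd : 0 < d)
    (hsep : ∀ p q : ℕ, p.Prime → q.Prime → p ≠ q → d ≤ |a p - a q|) :
    ∃ c : Finset ℕ → ℝ, (∀ H, 0 < c H) ∧ ∀ᵐ α : ℝ, ∀ (β : ℝ) (f : ℕ → ℤˣ), MultS f →
      (∀ p : ℕ, p.Prime → f p = g p * (-1) ^ ⌊α * a p + β⌋) → Aperiodic f ∧ FairSystem f ∧
        ∀ H : Finset ℕ, H.Nonempty → ∀ᶠ N : ℕ in atTop, |LA (prodSeq f H) N| ≤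
          Real.exp (-(c H * Real.sqrt (Real.log (Real.log N)))) := by
  obtain ⟨c, hc, h⟩ := all_d g hg hd hsep (w := fun _ => 1) (C := 1) (fun n => by simp) 2
    (δ₀ := 1 / 2) (by norm_num) (by norm_num)
  refine ⟨c, hc, ?_⟩
  have hq : ∀ᵐ α : ℝ, ∀ A : Set ℝ, KInt 2 A → 1 / 2 ≤ dl A →
      ∀ x : ℕ → ℤˣ, (∀ p : ℕ, p.Prime → (x p = -1 ↔ Int.fract (1 / 2 * α * a p) ∈ A)) →
        Concl g (fun _ => 1) c x := ae_scale (c := 1 / 2) (by norm_num) h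
  filter_upwards [hq] with α hα β f hf hfp
  obtain ⟨h2, h3⟩ := hα (rotS (β / 2) (Set.Ico (1 / 2 : ℝ) 1)) (kint_rot (β / 2) kint_half)
    (by rw [dl_rot _ measurableSet_Ico, dl_half]) (fun p => (-1) ^ ⌊α * a p + β⌋) (fun p _ => by
      rw [mem_rotS, neg_one_floor_r]
      have h3 : 1 / 2 * α * a p + β / 2 = (α * a p + β) / 2 := by ring
      rw [h3])
  have h4 := h2 f hf ⟨1, one_pos, 1, not_tendsto_DD_one fun p hp => by
    rw [hfp p hp, Int.units_mul_self]⟩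
  refine ⟨h4.1, h4.2.1, fun H hH => ?_⟩
  filter_upwards [h3 H hH] with N h5
  have h7 : |LA (fun n => (fun _ : ℕ => (1:ℝ)) n * prodSeq f H n) N| ≤ _ := h5 f hf hfp
  have h8 : (fun n => (fun _ : ℕ => (1:ℝ)) n * prodSeq f H n) = prodSeq f H := by
    funext n
    exact one_mul _
  rw [h8] at h7
  exact h7

end Pool.Agent.Lib.P4a7640V
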