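import Mathlib
import Pool.Agent.Lib.P4a7640K.MomentC
import Pool.Agent.Lib.P4a7640V.Par

/-!
# The second moment bound for integer frequencies, uniform in the sets
-/

open MeasureTheory Filter Finset Topology

namespace Pool.Agent.Lib.P4a7640V

open Pool.Agent.Lib.P4a7640 Pool.Agent.Lib.P4a7640M Pool.Agent.Lib.P4a7640Y Pool.Agent.Lib.P4a7640Z
open Pool.Agent.Lib.P4a7640K

/-- `moment_c`, uniform in the sets -/
theorem moment_cu {k : ℕ} {K κ : ℝ} (hK : 0 < K) (hκ : 0 < κ) (hκ1 : κ ≤ 1) {b : ℕ → ℕ}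
    (hb : CntN K κ b) {δ : ℕ → ℝ} (hδ0 : ∀ p, 0 ≤ δ p) (hδ1 : ∀ p, δ p ≤ 1)
    (hM : Tendsto (fun N : ℕ => mass δ N / Real.log (lam N) ^ 2) atTop atTop)
    {H : Finset ℕ} (hH : H.Nonempty) :
    ∃ c : ℝ, 0 < c ∧ ∃ B : ℝ, 0 < B ∧ ∀ᶠ N : ℕ in atTop, ∀ A : ℕ → Set ℝ, (∀ p, KInt k (A p)) →
      (∀ p, δ p ≤ dl (A p)) → ∀ w : ℕ → ℝ, (∀ n, |w n| ≤ 1) →
      ∀ (θ : ℕ → ℝ) (u : ℝ), ∫ α in u..(u + 1), FF w H N (xc A b θ α) ^ 2 ≤
        B * Real.exp (-(4 * c * Real.sqrt (mass δ N))) := by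
  classical
  obtain ⟨C₀, hC₀, hsum⟩ := sum_cnt hK hκ hκ1
  obtain ⟨ck, hck, hkap⟩ := kap_kint k
  set δ' : ℕ → ℝ := fun p => if b p = 0 then 0 else δ p with hδ'
  have hδ'0 : ∀ p, 0 ≤ δ' p := fun p => by
    show 0 ≤ ite _ _ _
    split_ifs
    · exact le_rfl
    · exact hδ0 _
  have hδ'1 : ∀ p, δ' p ≤ 1 := fun p => by
    show ite _ _ _ ≤ (1:ℝ)
    split_ifs
    · exact zero_le_one
    · exact hδ1 _
  have hdiff : ∀ N, mass δ N ≤ mass δ' N + C₀ := by
    intro N
    have h1 := hsum b hb 0 1 le_rfl (((Finset.Icc 1 N).filter Nat.Prime).filter (fun p => b p = 0))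
      (fun p hp => by
        have h2 := Finset.mem_filter.mp hp
        have h3 := Finset.mem_filter.mp h2.1
        exact ⟨h3.2, by exact_mod_cast h3.2.one_lt.le, h2.2⟩)
    rw [Real.one_rpow, div_one, Finset.sum_filter] at h1
    refine le_trans ?_ (add_le_add (le_refl (mass δ' N)) h1)
    unfold mass
    rw [← Finset.sum_add_distrib]
    refine Finset.sum_le_sum fun p _ => ?_
    show δ p / p ≤ (if b p = 0 then 0 else δ p) / p + if b p = 0 then 1 / (p:ℝ) else 0
    split_ifs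
    · rw [zero_div, zero_add]
      exact div_le_div_of_nonneg_right (hδ1 _) (Nat.cast_nonneg p)
    · rw [add_zero]
  have hlamT : Tendsto lam atTop atTop := Real.tendsto_log_atTop.comp
    (Real.tendsto_log_atTop.comp tendsto_natCast_atTop_atTop)
  have hlog1 : ∀ᶠ N : ℕ in atTop, 1 ≤ Real.log (lam N) :=
    (Real.tendsto_log_atTop.comp hlamT).eventually_ge_atTop 1
  have hhalf : ∀ᶠ N : ℕ in atTop, mass δ N / 2 ≤ mass δ' N := by
    filter_upwards [hM.eventually_ge_atTop (2 * C₀), hlog1] with N h1 h2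
    rw [le_div_iff₀ (by positivity)] at h1
    have h3 : 2 * C₀ * 1 ≤ 2 * C₀ * Real.log (lam N) ^ 2 := by
      refine mul_le_mul_of_nonneg_left ?_ (by positivity)
      nlinarith
    have h4 := hdiff N
    linarith
  have hM' : Tendsto (fun N : ℕ => mass δ' N / Real.log (lam N) ^ 2) atTop atTop := by
    refine tendsto_atTop_mono' _ ?_ (hM.atTop_div_const (show (0:ℝ) < 2 by norm_num))
    filter_upwards [hhalf] with N h1
    rw [div_right_comm]
    exact div_le_div_of_nonneg_right h1 (sq_nonneg _)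
  obtain ⟨c, hc, B, hB, hev⟩ := moment_k (K₀ := 2 * K) (κ := κ) (C := 4 * (k:ℝ) + 4) (ck := ck)
    (a := fun p => if b p = 0 then 1 else b p) (δ := δ') (by positivity) hκ hκ1 (by positivity) hck
    (fun p => by
      show (if b p = 0 then 1 else b p) ≠ 0
      split_ifs with h
      · exact one_ne_zero
      · exact h) hb.one hδ'0 hδ'1 hM' hH
  refine ⟨c / 2, by positivity, B, hB, ?_⟩
  filter_upwards [hev, hhalf, eventually_ge_atTop 3] with N h1 h2 hN A hA hdl w hw θ u
  have hlog : 1 ≤ Real.log N := P4a7640L.Brun.log_ge_one hN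
  have hl : 0 < Real.log N := by linarith
  rw [FF_xc]
  simp_rw [FT_zero (fun p => phR (A p) (θ p)) b]
  refine (h1 (fun n => w n / n / Real.log N) ?_ _ ?_ ?_ ?_ ?_).trans ?_
  · intro n
    show |w n / n / Real.log N| ≤ _
    rw [abs_div, abs_div, abs_of_pos hl, abs_of_nonneg (Nat.cast_nonneg (α := ℝ) n)]
    exact div_le_div_of_nonneg_right (div_le_div_of_nonneg_right (hw n) (Nat.cast_nonneg n)) hl.le
  · intro p
    show Measurable (if b p = 0 then (fun _ => phR (A p) (θ p) 0) else phR (A p) (θ p))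
    split_ifs
    · exact measurable_const
    · exact measurable_phR (hA p).measurableSet _
  · intro p x
    show |(if b p = 0 then (fun _ => phR (A p) (θ p) 0) else phR (A p) (θ p)) x| = 1
    split_ifs
    · exact abs_phR _ _ _
    · exact abs_phR _ _ _
  · intro p
    show LL1 _ (if b p = 0 then (fun _ => phR (A p) (θ p) 0) else phR (A p) (θ p))
    split_ifs
    · exact LL1_const (by positivity) _
    · exact lip_phR (hA p) _
  · intro p
    show ck * (if b p = 0 then 0 else δ p) ≤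
      1 - kap (if b p = 0 then (fun _ => phR (A p) (θ p) 0) else phR (A p) (θ p))
    split_ifs
    · rw [mul_zero, sub_nonneg]
      exact kap_le fun x => (abs_phR _ _ _).le
    · rw [kap_phR]
      exact (mul_le_mul_of_nonneg_left (hdl p) hck.le).trans (hkap _ (hA p))
  · refine mul_le_mul_of_nonneg_left ?_ hB.le
    apply Real.exp_le_exp.mpr
    have hm0 : 0 ≤ mass δ N := Finset.sum_nonneg fun p _ => div_nonneg (hδ0 p) (Nat.cast_nonneg p)
    have h3 : Real.sqrt (mass δ N) / 2 ≤ Real.sqrt (mass δ' N) := by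
      apply Real.le_sqrt_of_sq_le
      rw [div_pow, Real.sq_sqrt hm0]
      linarith
    have h4 := mul_le_mul_of_nonneg_left h3 (show 0 ≤ 4 * c by positivity)
    linarith

end Pool.Agent.Lib.P4a7640V
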